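import Mathlib
import Pool.Agent.P.MP_2ca0d6_al.Geo

-- part Pool.Agent.P.MP_2ca0d6_al.CupA
section

/-!
The greedy anchor/pointer automaton and the quasimorphism it defines on a free group.
Letters: `(n, false)` is the anchor `n`, `(n, true)` is the pointer to `n`.
-/

set_option autoImplicit false
set_option linter.dupNamespace false

namespace Pool.Agent.P.MP_2ca0d6_al.Cup

open Classical FreeGroup

/-- letters: anchors `(n, false)` and pointers `(n, true)` -/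
abbrev Let := ℕ × Bool

/-- positive words -/
abbrev Wd := List Let

/-- one step of the automaton on the set of live anchors -/
noncomputable def step (S : Set ℕ) (x : Let) : Set ℕ :=
  if x.2 = true then (if x.1 ∈ S then ∅ else S) else insert x.1 S

/-- a pointer to a live anchor counts one -/
noncomputable def hit (S : Set ℕ) (x : Let) : ℕ :=
  if x.2 = true ∧ x.1 ∈ S then 1 else 0

/-- the state after reading a word -/
noncomputable def st (S : Set ℕ) (w : Wd) : Set ℕ := w.foldl step S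

/-- the count after reading a word -/
noncomputable def G : Set ℕ → Wd → ℕ
  | _, [] => 0
  | S, x :: w => hit S x + G (step S x) w

theorem G_realize : True := by have := @G.eq_def; trivial

@[simp] lemma st_nil (S : Set ℕ) : st S [] = S := rfl
@[simp] lemma st_cons (S : Set ℕ) (x : Let) (w : Wd) : st S (x :: w) = st (step S x) w := rfl
lemma st_append (S : Set ℕ) (u v : Wd) : st S (u ++ v) = st (st S u) v := by
  simp [st, List.foldl_append]

@[simp] lemma G_nil (S : Set ℕ) : G S [] = 0 := by simp [G]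
@[simp] lemma G_cons (S : Set ℕ) (x : Let) (w : Wd) :
    G S (x :: w) = hit S x + G (step S x) w := by simp [G]

lemma G_append (u v : Wd) : ∀ S : Set ℕ, G S (u ++ v) = G S u + G (st S u) v := by
  induction u with
  | nil => intro S; simp
  | cons x u ih => intro S; simp [ih, add_assoc]

lemma G_mono_lip (w : Wd) :
    (∀ S S' : Set ℕ, S ⊆ S' → G S w ≤ G S' w) ∧ (∀ S S' : Set ℕ, G S' w ≤ G S w + 1) := by
  induction w with
  | nil => simp
  | cons x w ih =>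
    obtain ⟨hm, hl⟩ := ih
    obtain ⟨n, b⟩ := x
    cases b with
    | false =>
      refine ⟨fun S S' h => ?_, fun S S' => ?_⟩
      · simpa [hit, step] using hm _ _ (Set.insert_subset_insert h)
      · simpa [hit, step] using hl _ _
    | true =>
      refine ⟨fun S S' h => ?_, fun S S' => ?_⟩
      · by_cases h1 : n ∈ S
        · have h2 : n ∈ S' := h h1
          simp [hit, step, h1, h2]
        · by_cases h2 : n ∈ S'
          · have := hl ∅ S
            simp only [G_cons, hit, step, h1, h2, true_and, if_true, if_false]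
            omega
          · simpa [hit, step, h1, h2] using hm _ _ h
      · by_cases h1 : n ∈ S <;> by_cases h2 : n ∈ S'
        · simp [hit, step, h1, h2]
        · have := hl ∅ S'
          simp only [G_cons, hit, step, h1, h2, true_and, if_true, if_false]
          omega
        · have := hm ∅ S (Set.empty_subset _)
          simp only [G_cons, hit, step, h1, h2, true_and, if_true, if_false]
          omega
        · simpa [hit, step, h1, h2] using hl S S'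

/-- the count from the empty state -/
noncomputable def c (w : Wd) : ℕ := G ∅ w

@[simp] lemma c_nil : c [] = 0 := by simp [c]

lemma c_append (u v : Wd) : c u + c v ≤ c (u ++ v) ∧ c (u ++ v) ≤ c u + c v + 1 := by
  have h1 := (G_mono_lip v).1 ∅ (st ∅ u) (Set.empty_subset _)
  have h2 := (G_mono_lip v).2 ∅ (st ∅ u)
  simp only [c, G_append]
  omega

/-- the positive letters of a group word -/
def pos (w : List (Let × Bool)) : Wd := (w.filter (fun x => x.2)).map Prod.fst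

lemma pos_append (u v : List (Let × Bool)) : pos (u ++ v) = pos u ++ pos v := by
  simp [pos]

/-- the antisymmetrised count on group words -/
noncomputable def psi (w : List (Let × Bool)) : ℝ := (c (pos w) : ℝ) - c (pos (invRev w))

lemma psi_append (u v : List (Let × Bool)) : |psi (u ++ v) - psi u - psi v| ≤ 1 := by
  have h1 := c_append (pos u) (pos v)
  have h2 := c_append (pos (invRev v)) (pos (invRev u))
  simp only [psi, invRev_append, pos_append]
  obtain ⟨a1, a2⟩ := h1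
  obtain ⟨b1, b2⟩ := h2
  have a1' : ((c (pos u) : ℝ) + c (pos v)) ≤ c (pos u ++ pos v) := by exact_mod_cast a1
  have a2' : (c (pos u ++ pos v) : ℝ) ≤ c (pos u) + c (pos v) + 1 := by exact_mod_cast a2
  have b1' : ((c (pos (invRev v)) : ℝ) + c (pos (invRev u))) ≤
      c (pos (invRev v) ++ pos (invRev u)) := by exact_mod_cast b1
  have b2' : (c (pos (invRev v) ++ pos (invRev u)) : ℝ) ≤
      c (pos (invRev v)) + c (pos (invRev u)) + 1 := by exact_mod_cast b2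
  rw [abs_le]
  constructor <;> linarith

lemma psi_invRev (u : List (Let × Bool)) : psi (invRev u) = - psi u := by
  simp [psi]

/-- the quasimorphism -/
noncomputable def phi (g : FreeGroup Let) : ℝ := psi g.toWord

/-- its bounded 2-cocycle -/
noncomputable def f (x y : FreeGroup Let) : ℝ := phi x + phi y - phi (x * y)

lemma f_bdd (x y : FreeGroup Let) : |f x y| ≤ 3 := by
  obtain ⟨A1, C, B1, h1, h2, h3⟩ := cancel_decomp y.toWord x.toWord
    isReduced_toWord isReduced_toWord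
  have e1 : x = mk A1 * mk C := by rw [mul_mk, ← h1, mk_toWord]
  have e2 : y = (mk C)⁻¹ * mk B1 := by rw [inv_mk, mul_mk, ← h2, mk_toWord]
  have e3 : x * y = mk (A1 ++ B1) := by
    rw [← mul_mk, e1, e2]; group
  have e4 : (x * y).toWord = A1 ++ B1 := by rw [e3, toWord_mk, h3.reduce_eq]
  have p1 := psi_append A1 C
  have p2 := psi_append (invRev C) B1
  have p3 := psi_append A1 B1
  rw [psi_invRev] at p2
  simp only [f, phi, e4]
  rw [h1, h2]
  rw [abs_le] at *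
  constructor <;> linarith [p1.1, p1.2, p2.1, p2.2, p3.1, p3.2]

lemma f_cocycle (x y z : FreeGroup Let) : f y z - f (x * y) z + f x (y * z) - f x y = 0 := by
  simp only [f, mul_assoc]; ring

/-- the group element of a positive word -/
def emb (w : Wd) : FreeGroup Let := mk (w.map fun a => (a, true))

lemma emb_append (u v : Wd) : emb (u ++ v) = emb u * emb v := by
  simp [emb, mul_mk]

lemma red_pos : ∀ (L : List (Let × Bool)), (∀ l ∈ L, l.2 = true) → IsReduced L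
  | [], _ => IsReduced.nil
  | [_], _ => IsReduced.singleton
  | a :: b :: L, h => by
    refine List.isChain_cons_cons.2 ⟨fun _ => ?_, red_pos (b :: L) fun l hl => h l (by simp [hl])⟩
    rw [h a (by simp), h b (by simp)]

lemma phi_emb (w : Wd) : phi (emb w) = c w := by
  have h1 : (emb w).toWord = w.map fun a => (a, true) := by
    rw [emb, toWord_mk]
    refine (red_pos _ fun l hl => ?_).reduce_eq
    simp only [List.mem_map] at hl
    obtain ⟨a, -, rfl⟩ := hl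
    rfl
  have h2 : pos (w.map fun a => (a, true)) = w := by
    simp [pos, List.filter_map, Function.comp_def]
  have h3 : pos (invRev (w.map fun a => (a, true))) = [] := by
    simp [pos, invRev]
  simp [phi, psi, h1, h2, h3]

/-- the cocycle on positive words -/
noncomputable def F (u v : Wd) : ℝ := (c u : ℝ) + c v - c (u ++ v)

lemma f_emb (u v : Wd) : f (emb u) (emb v) = F u v := by
  simp [f, F, ← emb_append, phi_emb]

end Pool.Agent.P.MP_2ca0d6_al.Cup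
end

-- part Pool.Agent.P.MP_2ca0d6_al.CupB
section

/-!
An idempotent ultrafilter on the free monoid `List ℕ` concentrated on nonempty lists of large
numbers, and the random segments it defines.
-/

set_option autoImplicit false
set_option linter.dupNamespace false

namespace Pool.Agent.P.MP_2ca0d6_al.Cup

open Classical Filter

/-- lists of anchor names -/
abbrev Ls := List ℕ

lemma ev_bind {X Y : Type} (U : Ultrafilter X) (k : X → Ultrafilter Y) (p : Y → Prop) :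
    (∀ᶠ y in ((U >>= k : Ultrafilter Y) : Filter Y), p y) ↔
      ∀ᶠ x in (U : Filter X), ∀ᶠ y in (k x : Filter Y), p y := Iff.rfl

lemma ev_pure {Y : Type} (y : Y) (p : Y → Prop) :
    (∀ᶠ z in ((pure y : Ultrafilter Y) : Filter Y), p z) ↔ p y := Iff.rfl

lemma bassoc {X Y Z : Type} (U : Ultrafilter X) (k : X → Ultrafilter Y) (l : Y → Ultrafilter Z) :
    (U >>= k) >>= l = U >>= fun x => k x >>= l := by
  apply Ultrafilter.coe_injective
  apply Filter.ext'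
  intro p
  rfl

lemma pbind {X Y : Type} (x : X) (k : X → Ultrafilter Y) :
    ((pure x : Ultrafilter X) >>= k) = k x := by
  apply Ultrafilter.coe_injective
  apply Filter.ext'
  intro p
  rfl

lemma affine {X Y : Type} (U : Ultrafilter X) (V : Ultrafilter Y) :
    (U >>= fun _ => V) = V := by
  apply Ultrafilter.coe_injective
  apply Filter.ext'
  intro p
  rw [ev_bind]
  exact Filter.eventually_const

attribute [local instance] Ultrafilter.mul Ultrafilter.semigroup in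
theorem exists_U : ∃ U : Ultrafilter Ls,
    (U >>= fun v => U >>= fun v' => (pure (v ++ v') : Ultrafilter Ls)) = U ∧
    ∀ N : ℕ, ∀ᶠ v in (U : Filter Ls), v ≠ [] ∧ ∀ a ∈ v, N ≤ a := by
  let X : ℕ → Set (FreeMonoid ℕ) := fun N =>
    {v | FreeMonoid.toList v ≠ [] ∧ ∀ a ∈ FreeMonoid.toList v, N ≤ a}
  let s : Set (Ultrafilter (FreeMonoid ℕ)) := ⋂ N, {U | X N ∈ U}
  have hs : IsClosed s := isClosed_iInter fun N => ultrafilter_isClosed_basic _
  have hne : s.Nonempty := by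
    refine ⟨Ultrafilter.map FreeMonoid.of (Ultrafilter.of atTop), Set.mem_iInter.2 fun N => ?_⟩
    show X N ∈ Ultrafilter.map FreeMonoid.of (Ultrafilter.of atTop)
    rw [Ultrafilter.mem_map]
    apply Ultrafilter.of_le atTop
    filter_upwards [eventually_ge_atTop N] with n hn
    simpa [X] using hn
  have hmul : ∀ x ∈ s, ∀ y ∈ s, x * y ∈ s := by
    intro x hx y hy
    refine Set.mem_iInter.2 fun N => ?_
    have h1 : ∀ᶠ v in (x : Filter (FreeMonoid ℕ)), v ∈ X N := Set.mem_iInter.1 hx N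
    have h2 : ∀ᶠ v in (y : Filter (FreeMonoid ℕ)), v ∈ X N := Set.mem_iInter.1 hy N
    show ∀ᶠ v in ((x * y : Ultrafilter (FreeMonoid ℕ)) : Filter (FreeMonoid ℕ)), v ∈ X N
    rw [Ultrafilter.eventually_mul]
    filter_upwards [h1] with v hv
    filter_upwards [h2] with w hw
    refine ⟨by simp [hv.1], fun a ha => ?_⟩
    rw [FreeMonoid.toList_mul, List.mem_append] at ha
    rcases ha with ha | ha
    · exact hv.2 a ha
    · exact hw.2 a ha
  obtain ⟨U, hU, hUU⟩ := exists_idempotent_in_compact_subsemigroup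
    Ultrafilter.continuous_mul_left s hne hs.isCompact hmul
  refine ⟨Ultrafilter.map FreeMonoid.toList U, ?_, fun N => ?_⟩
  · apply Ultrafilter.coe_injective
    apply Filter.ext'
    intro p
    have := Ultrafilter.eventually_mul U U (fun m => p (FreeMonoid.toList m))
    rw [hUU] at this
    simp only [ev_bind, ev_pure, Ultrafilter.coe_map, eventually_map]
    exact this.symm
  · exact Set.mem_iInter.1 hU N

/-- the chosen idempotent ultrafilter -/
noncomputable def U : Ultrafilter Ls := exists_U.choose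

lemma U_fresh (N : ℕ) : ∀ᶠ v in (U : Filter Ls), v ≠ [] ∧ ∀ a ∈ v, N ≤ a :=
  exists_U.choose_spec.2 N

lemma idem {X : Type} (k : Ls → Ultrafilter X) :
    (U >>= fun v => U >>= fun v' => k (v ++ v')) = U >>= k := by
  have h : (U >>= fun v => U >>= fun v' => (pure (v ++ v') : Ultrafilter Ls)) = U :=
    exists_U.choose_spec.1
  conv_rhs => rw [← h]
  simp only [bassoc, pbind]

/-- a block of anchors -/
def anch (v : Ls) : Wd := v.map fun n => (n, false)

lemma anch_append (u v : Ls) : anch (u ++ v) = anch u ++ anch v := by simp [anch]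

/-- the random segment with pointers to the names in `A`, separated by blocks of fresh anchors;
the second component lists the anchors used -/
noncomputable def seg : Ls → Ultrafilter (Wd × Ls)
  | [] => U >>= fun v => pure (anch v, v)
  | a :: A => U >>= fun v => seg A >>= fun y => pure (anch v ++ (a, true) :: y.1, v ++ y.2)

theorem seg_realize : True := by have := @seg.eq_def; trivial

lemma seg_nil : seg [] = U >>= fun v => pure (anch v, v) := by simp only [seg]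

lemma seg_cons (a : ℕ) (A : Ls) : seg (a :: A) =
    U >>= fun v => seg A >>= fun y => pure (anch v ++ (a, true) :: y.1, v ++ y.2) := by
  simp only [seg]

lemma absorb {X : Type} (A : Ls) (k : Wd × Ls → Ultrafilter X) :
    (U >>= fun v => seg A >>= fun y => k (anch v ++ y.1, v ++ y.2)) = seg A >>= k := by
  cases A with
  | nil =>
    simp only [seg_nil, bassoc, pbind]
    rw [← idem (fun u => k (anch u, u))]
    simp only [anch_append]
  | cons a A =>
    simp only [seg_cons, bassoc, pbind]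
    rw [← idem (fun u => seg A >>= fun y => k (anch u ++ (a, true) :: y.1, u ++ y.2))]
    simp only [anch_append, List.append_assoc]

lemma seg_append {X : Type} (A A' : Ls) : ∀ (k : Wd × Ls → Ultrafilter X),
    (seg A >>= fun x => seg A' >>= fun y => k (x.1 ++ y.1, x.2 ++ y.2)) = seg (A ++ A') >>= k := by
  induction A with
  | nil =>
    intro k
    simp only [seg_nil, bassoc, pbind, List.nil_append]
    exact absorb A' k
  | cons a A ih =>
    intro k
    simp only [seg_cons, bassoc, pbind, List.cons_append]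
    congr 1
    funext v
    rw [← ih (fun y => k (anch v ++ (a, true) :: y.1, v ++ y.2))]
    simp only [List.append_assoc, List.cons_append]

lemma seg_snd {X : Type} (A : Ls) : ∀ (k : Ls → Ultrafilter X),
    (seg A >>= fun x => k x.2) = U >>= k := by
  induction A with
  | nil => intro k; simp only [seg_nil, bassoc, pbind]
  | cons a A ih =>
    intro k
    simp only [seg_cons, bassoc, pbind]
    rw [← idem k]
    congr 1
    funext v
    exact ih (fun u => k (v ++ u))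

/-- no name of `A` is live -/
def Dj (S : Set ℕ) (A : Ls) : Prop := ∀ a ∈ A, a ∉ S

lemma G_anch (v : Ls) : ∀ S : Set ℕ, G S (anch v) = 0 ∧ st S (anch v) = S ∪ {a | a ∈ v} := by
  induction v with
  | nil => intro S; simp [anch]
  | cons a v ih =>
    intro S
    have h := ih (insert a S)
    simp only [anch, List.map_cons, G_cons, st_cons, hit, step] at h ⊢
    simp only [Bool.false_eq_true, false_and, if_false, zero_add]
    refine ⟨h.1, ?_⟩
    rw [h.2]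
    ext x
    simp only [Set.mem_union, Set.mem_insert_iff, Set.mem_ofPred_eq, List.mem_cons]
    tauto

/-- what a segment does to the automaton -/
def SegOK (N : ℕ) (A : Ls) (x : Wd × Ls) : Prop :=
  (∀ a ∈ x.2, N ≤ a) ∧ ∀ S : Set ℕ,
    (Dj S A → G S x.1 = 0 ∧ S ⊆ st S x.1 ∧ st S x.1 ⊆ S ∪ {a | a ∈ x.2}) ∧
    (¬ Dj S A → G S x.1 = 1 ∧ st S x.1 ⊆ {a | a ∈ x.2}) ∧
    ¬ Dj (st S x.1) x.2

lemma seg_ok (N : ℕ) (A : Ls) (hA : ∀ a ∈ A, a < N) :
    ∀ᶠ x in (seg A : Filter (Wd × Ls)), SegOK N A x := by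
  induction A with
  | nil =>
    simp only [seg_nil, ev_bind, ev_pure]
    filter_upwards [U_fresh N] with v hv
    refine ⟨hv.2, fun S => ?_⟩
    obtain ⟨h1, h2⟩ := G_anch v S
    refine ⟨fun _ => ⟨h1, ?_, ?_⟩, fun h => ?_, fun h => ?_⟩
    · simp only [h2]; exact Set.subset_union_left
    · simp only [h2]; exact subset_rfl
    · exact absurd (by simp [Dj]) h
    · obtain ⟨a, ha⟩ := List.exists_mem_of_ne_nil v hv.1
      exact h a ha (by simp only [h2]; exact Or.inr ha)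
  | cons a A ih =>
    simp only [seg_cons, ev_bind, ev_pure]
    filter_upwards [U_fresh N] with v hv
    filter_upwards [ih fun b hb => hA b (List.mem_cons_of_mem _ hb)] with y hy
    have haN : a < N := hA a List.mem_cons_self
    refine ⟨fun b hb => ?_, fun S => ?_⟩
    · rcases List.mem_append.1 hb with hb | hb
      · exact hv.2 b hb
      · exact hy.1 b hb
    obtain ⟨h1, h2⟩ := G_anch v S
    have hnv : ∀ b, b < N → (b ∈ S ∪ {a | a ∈ v} ↔ b ∈ S) := by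
      intro b hb
      constructor
      · rintro (h | h)
        · exact h
        · exact absurd (hv.2 b h) (by omega)
      · exact Or.inl
    have hsub : {b | b ∈ y.2} ⊆ {b | b ∈ v ++ y.2} := fun b hb => List.mem_append_right _ hb
    simp only [G_append, st_append, h1, h2, G_cons, st_cons, zero_add]
    by_cases haS : a ∈ S
    · have e1 : hit (S ∪ {a | a ∈ v}) (a, true) = 1 := by simp [hit, haS]
      have e2 : step (S ∪ {a | a ∈ v}) (a, true) = ∅ := by simp [step, haS]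
      rw [e1, e2]
      obtain ⟨k1, -, k3⟩ := hy.2 ∅
      obtain ⟨k1, -, k2⟩ := k1 (fun _ _ => Set.notMem_empty _)
      refine ⟨fun h => absurd haS (h a List.mem_cons_self), fun _ => ⟨by omega, ?_⟩, fun h => ?_⟩
      · rw [Set.empty_union] at k2
        exact k2.trans hsub
      · exact k3 fun b hb => h b (List.mem_append_right _ hb)
    · have haS' : a ∉ S ∪ {a | a ∈ v} := fun h => haS ((hnv a haN).1 h)
      have e1 : hit (S ∪ {a | a ∈ v}) (a, true) = 0 := by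
        simp only [hit, haS', and_false, if_false]
      have e2 : step (S ∪ {a | a ∈ v}) (a, true) = S ∪ {a | a ∈ v} := by
        simp only [step, haS', if_true, if_false]
      rw [e1, e2]
      obtain ⟨k1, k2, k3⟩ := hy.2 (S ∪ {a | a ∈ v})
      have hD : Dj (S ∪ {a | a ∈ v}) A ↔ Dj S (a :: A) := by
        constructor
        · intro h b hb
          rcases List.mem_cons.1 hb with rfl | hb
          · exact haS
          · exact fun hbS => h b hb (Or.inl hbS)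
        · intro h b hb hbS
          exact h b (List.mem_cons_of_mem _ hb)
            ((hnv b (hA b (List.mem_cons_of_mem _ hb))).1 hbS)
      refine ⟨fun h => ?_, fun h => ?_, fun h => ?_⟩
      · obtain ⟨m1, m2, m3⟩ := k1 (hD.2 h)
        refine ⟨by omega, Set.subset_union_left.trans m2, m3.trans ?_⟩
        rintro b ((hb | hb) | hb)
        · exact Or.inl hb
        · exact Or.inr (List.mem_append_left _ hb)
        · exact Or.inr (List.mem_append_right _ hb)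
      · obtain ⟨m1, m2⟩ := k2 (fun h' => h (hD.1 h'))
        exact ⟨by omega, m2.trans hsub⟩
      · exact k3 fun b hb => h b (List.mem_append_right _ hb)

end Pool.Agent.P.MP_2ca0d6_al.Cup
end

-- part Pool.Agent.P.MP_2ca0d6_al.CupC
section

/-!
Stationary random words made of segments whose pointers refer to the anchors one period back,
for periods `5` and `4`, and the merging of two consecutive segments of each period.
-/

set_option autoImplicit false
set_option linter.dupNamespace false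

namespace Pool.Agent.P.MP_2ca0d6_al.Cup

open Classical Filter

section generic

variable {σ : Type} (sp : σ → Ultrafilter (Wd × σ))

/-- `m` steps, concatenating the words -/
noncomputable def run : ℕ → σ → Ultrafilter (Wd × σ)
  | 0, q => pure ([], q)
  | m + 1, q => sp q >>= fun x => run m x.2 >>= fun y => pure (x.1 ++ y.1, y.2)

theorem run_realize : True := by have := @run.eq_def; trivial

lemma run_zero (q : σ) : run sp 0 q = pure ([], q) := by simp only [run]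

lemma run_succ (m : ℕ) (q : σ) : run sp (m + 1) q =
    sp q >>= fun x => run sp m x.2 >>= fun y => pure (x.1 ++ y.1, y.2) := by simp only [run]

lemma run_add {X : Type} (a b : ℕ) : ∀ (q : σ) (k : Wd × σ → Ultrafilter X),
    (run sp a q >>= fun x => run sp b x.2 >>= fun y => k (x.1 ++ y.1, y.2)) =
      run sp (a + b) q >>= k := by
  induction a with
  | zero => intro q k; simp only [run_zero, pbind, List.nil_append, zero_add]
  | succ a ih =>
    intro q k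
    rw [show a + 1 + b = (a + b) + 1 by ring]
    simp only [run_succ, bassoc, pbind]
    congr 1
    funext x
    rw [← ih x.2 (fun y => k (x.1 ++ y.1, y.2))]
    simp only [List.append_assoc]

lemma run_stat {X : Type} (ini : Ultrafilter σ)
    (hst : ∀ k : σ → Ultrafilter X, (ini >>= fun q => sp q >>= fun x => k x.2) = ini >>= k)
    (m : ℕ) : ∀ k : σ → Ultrafilter X,
      (ini >>= fun q => run sp m q >>= fun x => k x.2) = ini >>= k := by
  induction m with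
  | zero => intro k; simp only [run_zero, pbind]
  | succ m ih =>
    intro k
    simp only [run_succ, bassoc, pbind]
    rw [hst (fun q => run sp m q >>= fun y => k y.2), ih]

/-- law of three consecutive words -/
noncomputable def law3 (ini : Ultrafilter σ) (a b c : ℕ) : Ultrafilter (Wd × Wd × Wd) :=
  ini >>= fun q => run sp a q >>= fun x => run sp b x.2 >>= fun y => run sp c y.2 >>= fun z =>
    pure (x.1, y.1, z.1)

/-- law of four consecutive words -/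
noncomputable def law4 (ini : Ultrafilter σ) (a b c d : ℕ) : Ultrafilter (Wd × Wd × Wd × Wd) :=
  ini >>= fun q => run sp a q >>= fun x => run sp b x.2 >>= fun y => run sp c y.2 >>= fun z =>
    run sp d z.2 >>= fun t => pure (x.1, y.1, z.1, t.1)

lemma face0 (ini : Ultrafilter σ)
    (hst : ∀ k : σ → Ultrafilter (Wd × Wd × Wd),
      (ini >>= fun q => sp q >>= fun x => k x.2) = ini >>= k) (a b c d : ℕ) :
    (law4 sp ini a b c d >>= fun w => pure (w.2.1, w.2.2.1, w.2.2.2)) = law3 sp ini b c d := by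
  simp only [law4, law3, bassoc, pbind]
  exact run_stat sp ini hst a (fun q => run sp b q >>= fun x => run sp c x.2 >>= fun y =>
    run sp d y.2 >>= fun z => pure (x.1, y.1, z.1))

lemma face1 (ini : Ultrafilter σ) (a b c d : ℕ) :
    (law4 sp ini a b c d >>= fun w => pure (w.1 ++ w.2.1, w.2.2.1, w.2.2.2)) =
      law3 sp ini (a + b) c d := by
  simp only [law4, law3, bassoc, pbind]
  congr 1
  funext q
  exact run_add sp a b q (fun x => run sp c x.2 >>= fun y =>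
    run sp d y.2 >>= fun z => pure (x.1, y.1, z.1))

lemma face2 (ini : Ultrafilter σ) (a b c d : ℕ) :
    (law4 sp ini a b c d >>= fun w => pure (w.1, w.2.1 ++ w.2.2.1, w.2.2.2)) =
      law3 sp ini a (b + c) d := by
  simp only [law4, law3, bassoc, pbind]
  congr 1
  funext q
  congr 1
  funext x
  exact run_add sp b c x.2 (fun y => run sp d y.2 >>= fun z => pure (x.1, y.1, z.1))

lemma face3 (ini : Ultrafilter σ) (a b c d : ℕ) :
    (law4 sp ini a b c d >>= fun w => pure (w.1, w.2.1, w.2.2.1 ++ w.2.2.2)) =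
      law3 sp ini a b (c + d) := by
  simp only [law4, law3, bassoc, pbind]
  congr 1
  funext q
  congr 1
  funext x
  congr 1
  funext y
  exact run_add sp c d y.2 (fun z => pure (x.1, y.1, z.1))

lemma face4 (ini : Ultrafilter σ) (a b c d : ℕ) :
    (law4 sp ini a b c d >>= fun w => pure (w.1, w.2.1, w.2.2.1)) = law3 sp ini a b c := by
  simp only [law4, law3, bassoc, pbind, affine]

end generic

/-- queue of the anchor lists of the last five segments -/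
abbrev Q5 := Ls × Ls × Ls × Ls × Ls
/-- queue of the anchor lists of the last four segments -/
abbrev Q4 := Ls × Ls × Ls × Ls

/-- one segment, period five -/
noncomputable def sp5 (q : Q5) : Ultrafilter (Wd × Q5) :=
  seg q.1 >>= fun x => pure (x.1, q.2.1, q.2.2.1, q.2.2.2.1, q.2.2.2.2, x.2)

/-- one segment, period four -/
noncomputable def sp4 (q : Q4) : Ultrafilter (Wd × Q4) :=
  seg q.1 >>= fun x => pure (x.1, q.2.1, q.2.2.1, q.2.2.2, x.2)

/-- stationary initial law, period five -/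
noncomputable def ini5 : Ultrafilter Q5 :=
  U >>= fun A => U >>= fun B => U >>= fun C => U >>= fun D => U >>= fun E => pure (A, B, C, D, E)

/-- stationary initial law, period four -/
noncomputable def ini4 : Ultrafilter Q4 :=
  U >>= fun A => U >>= fun B => U >>= fun C => U >>= fun D => pure (A, B, C, D)

lemma stat5 {X : Type} (k : Q5 → Ultrafilter X) :
    (ini5 >>= fun q => sp5 q >>= fun x => k x.2) = ini5 >>= k := by
  simp only [ini5, sp5, bassoc, pbind]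
  have h : ∀ A B C D E : Ls, (seg A >>= fun x => k (B, C, D, E, x.2)) =
      U >>= fun L => k (B, C, D, E, L) := fun A B C D E => seg_snd A (fun L => k (B, C, D, E, L))
  simp only [h, affine]

/-- merge the entries `i` and `i+1` of the queue -/
def mu (i : ℕ) (q : Q5) : Q4 :=
  if i = 0 then (q.1 ++ q.2.1, q.2.2.1, q.2.2.2.1, q.2.2.2.2)
  else if i = 1 then (q.1, q.2.1 ++ q.2.2.1, q.2.2.2.1, q.2.2.2.2)
  else if i = 2 then (q.1, q.2.1, q.2.2.1 ++ q.2.2.2.1, q.2.2.2.2)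
  else (q.1, q.2.1, q.2.2.1, q.2.2.2.1 ++ q.2.2.2.2)

lemma mu0 (A B C D E : Ls) : mu 0 (A, B, C, D, E) = (A ++ B, C, D, E) := by simp [mu]
lemma mu1 (A B C D E : Ls) : mu 1 (A, B, C, D, E) = (A, B ++ C, D, E) := by simp [mu]
lemma mu2 (A B C D E : Ls) : mu 2 (A, B, C, D, E) = (A, B, C ++ D, E) := by simp [mu]
lemma mu3 (A B C D E : Ls) : mu 3 (A, B, C, D, E) = (A, B, C, D ++ E) := by simp [mu]

lemma ini_mu {X : Type} (i : ℕ) (hi : i < 4) (k : Q4 → Ultrafilter X) :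
    (ini5 >>= fun q => k (mu i q)) = ini4 >>= k := by
  simp only [ini5, ini4, bassoc, pbind]
  interval_cases i
  · simp only [mu0]
    exact idem (fun A => U >>= fun C => U >>= fun D => U >>= fun E => k (A, C, D, E))
  · simp only [mu1]
    congr 1
    funext A
    exact idem (fun B => U >>= fun D => U >>= fun E => k (A, B, D, E))
  · simp only [mu2]
    congr 1
    funext A
    congr 1
    funext B
    exact idem (fun C => U >>= fun E => k (A, B, C, E))
  · simp only [mu3]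
    congr 1
    funext A
    congr 1
    funext B
    congr 1
    funext C
    exact idem (fun D => k (A, B, C, D))

/-- number of fine steps making `n` coarse steps -/
def fine (i n : ℕ) : ℕ := n + (n + 3 - i) / 4

/-- position of the merged pair after `n` coarse steps -/
def nxt (i n : ℕ) : ℕ := (i + 3 * n) % 4

lemma sim {X : Type} (n : ℕ) : ∀ (i : ℕ), i < 4 → ∀ (q : Q5) (k : Wd × Q4 → Ultrafilter X),
    (run sp5 (fine i n) q >>= fun x => k (x.1, mu (nxt i n) x.2)) = run sp4 n (mu i q) >>= k := by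
  induction n with
  | zero =>
    intro i hi q k
    have h1 : fine i 0 = 0 := by unfold fine; omega
    have h2 : nxt i 0 = i := by unfold nxt; omega
    simp only [h1, h2, run_zero, pbind]
  | succ n ih =>
    intro i hi q k
    obtain ⟨A, B, C, D, E⟩ := q
    rcases Nat.eq_zero_or_pos i with rfl | hpos
    · have h1 : fine 0 (n + 1) = fine 3 n + 1 + 1 := by unfold fine; omega
      have h2 : nxt 0 (n + 1) = nxt 3 n := by unfold nxt; omega
      simp only [h1, h2, run_succ, sp5, sp4, mu0, bassoc, pbind]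
      rw [← seg_append A B (fun x => run sp4 n (C, D, E, x.2) >>= fun y => k (x.1 ++ y.1, y.2))]
      congr 1
      funext x
      congr 1
      funext x'
      have := ih 3 (by norm_num) (C, D, E, x.2, x'.2) (fun y => k (x.1 ++ x'.1 ++ y.1, y.2))
      rw [mu3] at this
      simp only [List.append_assoc] at this ⊢
      exact this
    · obtain ⟨j, rfl⟩ : ∃ j, i = j + 1 := ⟨i - 1, by omega⟩
      have h1 : fine (j + 1) (n + 1) = fine j n + 1 := by unfold fine; omega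
      have h2 : nxt (j + 1) (n + 1) = nxt j n := by unfold nxt; omega
      have hj : j < 3 := by omega
      simp only [h1, h2, run_succ, sp5, sp4, bassoc, pbind]
      have e1 : (mu (j + 1) (A, B, C, D, E)).1 = A := by
        interval_cases j <;> simp [mu]
      rw [e1]
      congr 1
      funext x
      have := ih j (by omega) (B, C, D, E, x.2) (fun y => k (x.1 ++ y.1, y.2))
      rw [this]
      congr 2
      interval_cases j <;> simp [mu]

lemma law3_merge (i : ℕ) (hi : i < 4) (a b c : ℕ) :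
    law3 sp5 ini5 (fine i a) (fine (nxt i a) b) (fine (nxt (nxt i a) b) c) =
      law3 sp4 ini4 a b c := by
  have hn : ∀ j n, nxt j n < 4 := fun j n => Nat.mod_lt _ (by norm_num)
  simp only [law3]
  rw [← ini_mu i hi]
  congr 1
  funext q
  rw [← sim a i hi q]
  congr 1
  funext x
  rw [← sim b _ (hn i a) x.2]
  congr 1
  funext y
  rw [← sim c _ (hn _ b) y.2]

/-- the first `e` queue entries are dead and entry `e` (if any) is live -/
def Inv (S : Set ℕ) (q : Q5) (e : ℕ) : Prop :=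
  (0 < e → Dj S q.1) ∧ (1 < e → Dj S q.2.1) ∧ (2 < e → Dj S q.2.2.1) ∧ (3 < e → Dj S q.2.2.2.1) ∧
  (4 < e → Dj S q.2.2.2.2) ∧
  (e = 0 → ¬ Dj S q.1) ∧ (e = 1 → ¬ Dj S q.2.1) ∧ (e = 2 → ¬ Dj S q.2.2.1) ∧
  (e = 3 → ¬ Dj S q.2.2.2.1) ∧ (e = 4 → ¬ Dj S q.2.2.2.2)

lemma exists_bound (A : Ls) : ∃ N, ∀ a ∈ A, a < N := by
  induction A with
  | nil => exact ⟨0, by simp⟩
  | cons a A ih =>
    obtain ⟨N, hN⟩ := ih
    refine ⟨max N (a + 1), fun b hb => ?_⟩
    rcases List.mem_cons.1 hb with rfl | hb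
    · omega
    · have := hN b hb; omega

lemma step_ok (S : Set ℕ) (q : Q5) (e : ℕ) (he : e ≤ 5) (h : Inv S q e) :
    ∀ᶠ x in (sp5 q : Filter (Wd × Q5)),
      G S x.1 = (if e = 0 then 1 else 0) ∧ Inv (st S x.1) x.2 (if e = 0 then 4 else e - 1) := by
  obtain ⟨A, B, C, D, E⟩ := q
  obtain ⟨N, hN⟩ := exists_bound (A ++ B ++ C ++ D ++ E)
  simp only [List.mem_append] at hN
  simp only [sp5, ev_bind, ev_pure]
  filter_upwards [seg_ok N A (fun a ha => hN a (by tauto))] with x hx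
  obtain ⟨hf, hx⟩ := hx
  obtain ⟨k1, k2, k3⟩ := hx S
  have fresh : ∀ Z : Ls, (∀ a ∈ Z, a < N) → ∀ a ∈ Z, a ∉ x.2 := by
    intro Z hZ a ha hb
    have := hZ a ha
    have := hf a hb
    omega
  have fB := fresh B (fun a ha => hN a (by tauto))
  have fC := fresh C (fun a ha => hN a (by tauto))
  have fD := fresh D (fun a ha => hN a (by tauto))
  have fE := fresh E (fun a ha => hN a (by tauto))
  obtain ⟨d0, d1, d2, d3, d4, l0, l1, l2, l3, l4⟩ := h
  simp only at d0 d1 d2 d3 d4 l0 l1 l2 l3 l4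
  by_cases h0 : e = 0
  · obtain ⟨m1, m2⟩ := k2 (l0 h0)
    have dead : ∀ Z : Ls, (∀ a ∈ Z, a ∉ x.2) → Dj (st S x.1) Z :=
      fun Z hZ a ha hb => hZ a ha (m2 hb)
    simp only [h0, if_true]
    refine ⟨m1, fun _ => dead B fB, fun _ => dead C fC, fun _ => dead D fD, fun _ => dead E fE,
      by omega, by omega, by omega, by omega, by omega, fun _ => k3⟩
  · obtain ⟨m1, m2, m3⟩ := k1 (d0 (by omega))
    have dead : ∀ Z : Ls, (∀ a ∈ Z, a ∉ x.2) → Dj S Z → Dj (st S x.1) Z := by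
      intro Z hZ hS a ha hb
      rcases m3 hb with hb | hb
      · exact hS a ha hb
      · exact hZ a ha hb
    have live : ∀ Z : Ls, ¬ Dj S Z → ¬ Dj (st S x.1) Z :=
      fun Z hZ hb => hZ fun a ha hc => hb a ha (m2 hc)
    simp only [h0, if_false]
    refine ⟨m1, fun _ => dead B fB (d1 (by omega)), fun _ => dead C fC (d2 (by omega)),
      fun _ => dead D fD (d3 (by omega)), fun _ => dead E fE (d4 (by omega)), by omega,
      fun _ => live B (l1 (by omega)), fun _ => live C (l2 (by omega)),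
      fun _ => live D (l3 (by omega)), fun _ => live E (l4 (by omega)), fun _ => k3⟩

lemma run_ok (m : ℕ) : ∀ (S : Set ℕ) (q : Q5) (e : ℕ), e ≤ 5 → Inv S q e →
    ∀ᶠ x in (run sp5 m q : Filter (Wd × Q5)), G S x.1 = (m + 4 - e) / 5 := by
  induction m with
  | zero =>
    intro S q e he _
    rw [run_zero, ev_pure]
    simp only [G_nil]
    omega
  | succ m ih =>
    intro S q e he h
    simp only [run_succ, ev_bind, ev_pure]
    filter_upwards [step_ok S q e he h] with x hx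
    filter_upwards [ih _ _ _ (by split_ifs <;> omega) hx.2] with y hy
    rw [G_append, hx.1, hy]
    split_ifs <;> omega

lemma c_run (m : ℕ) (q : Q5) :
    ∀ᶠ x in (run sp5 m q : Filter (Wd × Q5)), c x.1 = (m - 1) / 5 := by
  have hI : Inv ∅ q 5 := by simp [Inv, Dj]
  filter_upwards [run_ok m ∅ q 5 le_rfl hI] with x hx
  rw [c, hx]
  omega

/-- the value of the cocycle on two consecutive words -/
noncomputable def Fn (a b : ℕ) : ℝ :=
  (((a - 1) / 5 : ℕ) : ℝ) + (((b - 1) / 5 : ℕ) : ℝ) - (((a + b - 1) / 5 : ℕ) : ℝ)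

lemma F_run (a b : ℕ) (q : Q5) :
    ∀ᶠ x in (run sp5 a q : Filter (Wd × Q5)), ∀ᶠ y in (run sp5 b x.2 : Filter (Wd × Q5)),
      F x.1 y.1 = Fn a b := by
  have h3 := c_run (a + b) q
  have e := run_add sp5 a b q (fun x => (pure x : Ultrafilter (Wd × Q5)))
  have e2 : (run sp5 (a + b) q >>= fun x => (pure x : Ultrafilter (Wd × Q5))) =
      run sp5 (a + b) q := by
    apply Ultrafilter.coe_injective
    apply Filter.ext'
    intro p
    rfl
  rw [e2] at e
  rw [← e] at h3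
  simp only [ev_bind, ev_pure] at h3
  filter_upwards [h3, c_run a q] with x hx h1
  filter_upwards [hx, c_run b x.2] with y hy h2
  simp only [F, Fn, h1, h2, hy]

lemma FF_law4 (a b c d : ℕ) :
    ∀ᶠ w in (law4 sp5 ini5 a b c d : Filter (Wd × Wd × Wd × Wd)),
      F w.1 w.2.1 * F w.2.2.1 w.2.2.2 = Fn a b * Fn c d := by
  simp only [law4, ev_bind, ev_pure]
  refine Eventually.of_forall fun q => ?_
  filter_upwards [F_run a b q] with x hx
  filter_upwards [hx] with y hy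
  filter_upwards [F_run c d y.2] with z hz
  filter_upwards [hz] with t ht
  rw [hy, ht]

end Pool.Agent.P.MP_2ca0d6_al.Cup
end

-- part Pool.Agent.P.MP_2ca0d6_al.CupD
section

/-!
The alternating sum over the 24 cyclic types of five points on a circle, and the averaging over
winding numbers.
-/

set_option autoImplicit false
set_option linter.dupNamespace false

namespace Pool.Agent.P.MP_2ca0d6_al.Cup

open Finset

lemma Fn0 (a b : ℕ) (h : (a - 1) / 5 + (b - 1) / 5 = (a + b - 1) / 5) : Fn a b = 0 := by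
  unfold Fn
  rw [← h]
  push_cast
  ring

lemma Fn1 (a b : ℕ) (h : (a - 1) / 5 + (b - 1) / 5 + 1 = (a + b - 1) / 5) : Fn a b = -1 := by
  unfold Fn
  rw [← h]
  push_cast
  ring

/-- sum over a box of winding numbers -/
noncomputable def Sm (T : ℕ → ℕ → ℕ → ℝ) (N s2 s3 s4 : ℕ) : ℝ :=
  ∑ n2 ∈ range N, ∑ n3 ∈ range N, ∑ n4 ∈ range N, T (4 * n2 + s2) (4 * n3 + s3) (4 * n4 + s4)

lemma shift1 (g : ℕ → ℝ) (K : ℝ) (hK : ∀ n, |g n| ≤ K) (N : ℕ) :
    |∑ n ∈ range N, g (n + 1) - ∑ n ∈ range N, g n| ≤ 2 * K := by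
  have h1 := sum_range_succ g N
  have h2 := sum_range_succ' g N
  have h3 := hK N
  have h4 := hK 0
  rw [abs_le] at *
  constructor <;> linarith [h3.1, h3.2, h4.1, h4.2]

lemma sum_bd (g : ℕ → ℝ) (K : ℝ) (hK : ∀ n, |g n| ≤ K) (N : ℕ) :
    |∑ n ∈ range N, g n| ≤ N * K := by
  refine (abs_sum_le_sum_abs _ _).trans ?_
  refine (sum_le_sum fun n _ => hK n).trans ?_
  simp

lemma Sm_shift2 (T : ℕ → ℕ → ℕ → ℝ) (K : ℝ) (hK : ∀ a b c, |T a b c| ≤ K) (N s2 s3 s4 : ℕ) :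
    |Sm T N (s2 + 4) s3 s4 - Sm T N s2 s3 s4| ≤ 2 * (N * (N * K)) := by
  have := shift1 (fun n2 => ∑ n3 ∈ range N, ∑ n4 ∈ range N,
    T (4 * n2 + s2) (4 * n3 + s3) (4 * n4 + s4)) (N * (N * K))
    (fun n => sum_bd _ _ (fun m => sum_bd _ _ (fun l => hK _ _ _) N) N) N
  simp only [Sm]
  convert this using 7
  ring

lemma Sm_shift3 (T : ℕ → ℕ → ℕ → ℝ) (K : ℝ) (hK : ∀ a b c, |T a b c| ≤ K) (N s2 s3 s4 : ℕ) :
    |Sm T N s2 (s3 + 4) s4 - Sm T N s2 s3 s4| ≤ 2 * (N * (N * K)) := by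
  simp only [Sm]
  rw [← sum_sub_distrib]
  refine (sum_bd _ (2 * (N * K)) (fun n2 => ?_) N).trans (le_of_eq (by ring))
  have := shift1 (fun n3 => ∑ n4 ∈ range N,
    T (4 * n2 + s2) (4 * n3 + s3) (4 * n4 + s4)) (N * K)
    (fun m => sum_bd _ _ (fun l => hK _ _ _) N) N
  convert this using 6
  ring

lemma Sm_shift4 (T : ℕ → ℕ → ℕ → ℝ) (K : ℝ) (hK : ∀ a b c, |T a b c| ≤ K) (N s2 s3 s4 : ℕ) :
    |Sm T N s2 s3 (s4 + 4) - Sm T N s2 s3 s4| ≤ 2 * (N * (N * K)) := by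
  simp only [Sm]
  rw [← sum_sub_distrib]
  refine (sum_bd _ (N * (2 * K)) (fun n2 => ?_) N).trans (le_of_eq (by ring))
  rw [← sum_sub_distrib]
  refine sum_bd _ (2 * K) (fun n3 => ?_) N
  have := shift1 (fun n4 => T (4 * n2 + s2) (4 * n3 + s3) (4 * n4 + s4)) K
    (fun l => hK _ _ _) N
  convert this using 5
  ring

lemma Sm_mod (T : ℕ → ℕ → ℕ → ℝ) (K : ℝ) (hK : ∀ a b c, |T a b c| ≤ K) (N s2 s3 s4 : ℕ)
    (h2 : s2 < 8) (h3 : s3 < 8) (h4 : s4 < 8) (r2 r3 r4 : ℕ)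
    (e2 : s2 % 4 = r2) (e3 : s3 % 4 = r3) (e4 : s4 % 4 = r4) :
    |Sm T N s2 s3 s4 - Sm T N r2 r3 r4| ≤ 6 * (N * (N * K)) := by
  have hK0 : 0 ≤ K := (abs_nonneg _).trans (hK 0 0 0)
  have hP : 0 ≤ (N : ℝ) * (N * K) := by positivity
  have a2 : |Sm T N s2 s3 s4 - Sm T N r2 s3 s4| ≤ 2 * (N * (N * K)) := by
    rcases (by omega : s2 = r2 ∨ s2 = r2 + 4) with h | h
    · rw [h, sub_self, abs_zero]; linarith
    · rw [h]; exact Sm_shift2 T K hK N r2 s3 s4
  have a3 : |Sm T N r2 s3 s4 - Sm T N r2 r3 s4| ≤ 2 * (N * (N * K)) := by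
    rcases (by omega : s3 = r3 ∨ s3 = r3 + 4) with h | h
    · rw [h, sub_self, abs_zero]; linarith
    · rw [h]; exact Sm_shift3 T K hK N r2 r3 s4
  have a4 : |Sm T N r2 r3 s4 - Sm T N r2 r3 r4| ≤ 2 * (N * (N * K)) := by
    rcases (by omega : s4 = r4 ∨ s4 = r4 + 4) with h | h
    · rw [h, sub_self, abs_zero]; linarith
    · rw [h]; exact Sm_shift4 T K hK N r2 r3 r4
  rw [abs_le] at *
  constructor <;> linarith [a2.1, a2.2, a3.1, a3.2, a4.1, a4.2]

section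

variable (T5 T4 : ℕ → ℕ → ℕ → ℝ)
  (H1 : ∀ a b c d, |Fn a b * Fn c d -
    (T5 b c d - T5 (a + b) c d + T5 a (b + c) d - T5 a b (c + d) + T5 a b c)| ≤ 1 / 24)
  (H2 : ∀ i i1 i2 a b c A B C : ℕ, i < 4 → (i + 3 * a) % 4 = i1 → (i1 + 3 * b) % 4 = i2 →
    A = a + (a + 3 - i) / 4 → B = b + (b + 3 - i1) / 4 → C = c + (c + 3 - i2) / 4 →
    T5 A B C = T4 a b c)

include H1 H2

lemma type0 (n2 n3 n4 : ℕ) :
    |(0 : ℝ) - (T4 (4 * n2 + 5) (4 * n3 + 5) (4 * n4 + 5) - T4 (4 * n2 + 9) (4 * n3 + 5) (4 * n4 + 5)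
      + T4 (5) (4 * n2 + 4 * n3 + 9) (4 * n4 + 5) - T4 (5) (4 * n2 + 5) (4 * n3 + 4 * n4 + 9)
      + T4 (5) (4 * n2 + 5) (4 * n3 + 5))| ≤ 1 / 24 := by
  have h := H1 (6) (5 * n2 + 6) (5 * n3 + 6) (5 * n4 + 6)
  rw [Fn0 (6) (5 * n2 + 6) (by omega), Fn0 (5 * n3 + 6) (5 * n4 + 6) (by omega)] at h
  rw [H2 3 2 1 (4 * n2 + 5) (4 * n3 + 5) (4 * n4 + 5)
    (5 * n2 + 6) (5 * n3 + 6) (5 * n4 + 6)
    (by omega) (by omega) (by omega) (by omega) (by omega) (by omega)] at h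
  rw [H2 0 3 2 (4 * n2 + 9) (4 * n3 + 5) (4 * n4 + 5)
    ((6) + (5 * n2 + 6)) (5 * n3 + 6) (5 * n4 + 6)
    (by omega) (by omega) (by omega) (by omega) (by omega) (by omega)] at h
  rw [H2 1 0 3 (5) (4 * n2 + 4 * n3 + 9) (4 * n4 + 5)
    (6) ((5 * n2 + 6) + (5 * n3 + 6)) (5 * n4 + 6)
    (by omega) (by omega) (by omega) (by omega) (by omega) (by omega)] at h
  rw [H2 2 1 0 (5) (4 * n2 + 5) (4 * n3 + 4 * n4 + 9)
    (6) (5 * n2 + 6) ((5 * n3 + 6) + (5 * n4 + 6))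
    (by omega) (by omega) (by omega) (by omega) (by omega) (by omega)] at h
  rw [H2 3 2 1 (5) (4 * n2 + 5) (4 * n3 + 5)
    (6) (5 * n2 + 6) (5 * n3 + 6)
    (by omega) (by omega) (by omega) (by omega) (by omega) (by omega)] at h
  simpa using h

lemma type1 (n2 n3 n4 : ℕ) :
    |(0 : ℝ) - (T4 (4 * n2 + 5) (4 * n3 + 6) (4 * n4 + 3) - T4 (4 * n2 + 9) (4 * n3 + 6) (4 * n4 + 3)
      + T4 (5) (4 * n2 + 4 * n3 + 10) (4 * n4 + 3) - T4 (5) (4 * n2 + 5) (4 * n3 + 4 * n4 + 9)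
      + T4 (5) (4 * n2 + 5) (4 * n3 + 5))| ≤ 1 / 24 := by
  have h := H1 (6) (5 * n2 + 6) (5 * n3 + 7) (5 * n4 + 4)
  rw [Fn0 (6) (5 * n2 + 6) (by omega), Fn1 (5 * n3 + 7) (5 * n4 + 4) (by omega)] at h
  rw [H2 3 2 0 (4 * n2 + 5) (4 * n3 + 6) (4 * n4 + 3)
    (5 * n2 + 6) (5 * n3 + 7) (5 * n4 + 4)
    (by omega) (by omega) (by omega) (by omega) (by omega) (by omega)] at h
  rw [H2 0 3 1 (4 * n2 + 9) (4 * n3 + 6) (4 * n4 + 3)
    ((6) + (5 * n2 + 6)) (5 * n3 + 7) (5 * n4 + 4)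
    (by omega) (by omega) (by omega) (by omega) (by omega) (by omega)] at h
  rw [H2 1 0 2 (5) (4 * n2 + 4 * n3 + 10) (4 * n4 + 3)
    (6) ((5 * n2 + 6) + (5 * n3 + 7)) (5 * n4 + 4)
    (by omega) (by omega) (by omega) (by omega) (by omega) (by omega)] at h
  rw [H2 3 2 1 (5) (4 * n2 + 5) (4 * n3 + 4 * n4 + 9)
    (6) (5 * n2 + 6) ((5 * n3 + 7) + (5 * n4 + 4))
    (by omega) (by omega) (by omega) (by omega) (by omega) (by omega)] at h
  rw [H2 2 1 0 (5) (4 * n2 + 5) (4 * n3 + 5)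
    (6) (5 * n2 + 6) (5 * n3 + 7)
    (by omega) (by omega) (by omega) (by omega) (by omega) (by omega)] at h
  simpa using h

lemma type2 (n2 n3 n4 : ℕ) :
    |(0 : ℝ) - (T4 (4 * n2 + 6) (4 * n3 + 3) (4 * n4 + 6) - T4 (4 * n2 + 10) (4 * n3 + 3) (4 * n4 + 6)
      + T4 (5) (4 * n2 + 4 * n3 + 9) (4 * n4 + 5) - T4 (5) (4 * n2 + 5) (4 * n3 + 4 * n4 + 9)
      + T4 (5) (4 * n2 + 6) (4 * n3 + 3))| ≤ 1 / 24 := by
  have h := H1 (6) (5 * n2 + 7) (5 * n3 + 4) (5 * n4 + 7)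
  rw [Fn0 (6) (5 * n2 + 7) (by omega), Fn1 (5 * n3 + 4) (5 * n4 + 7) (by omega)] at h
  rw [H2 3 1 2 (4 * n2 + 6) (4 * n3 + 3) (4 * n4 + 6)
    (5 * n2 + 7) (5 * n3 + 4) (5 * n4 + 7)
    (by omega) (by omega) (by omega) (by omega) (by omega) (by omega)] at h
  rw [H2 0 2 3 (4 * n2 + 10) (4 * n3 + 3) (4 * n4 + 6)
    ((6) + (5 * n2 + 7)) (5 * n3 + 4) (5 * n4 + 7)
    (by omega) (by omega) (by omega) (by omega) (by omega) (by omega)] at h
  rw [H2 2 1 0 (5) (4 * n2 + 4 * n3 + 9) (4 * n4 + 5)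
    (6) ((5 * n2 + 7) + (5 * n3 + 4)) (5 * n4 + 7)
    (by omega) (by omega) (by omega) (by omega) (by omega) (by omega)] at h
  rw [H2 1 0 3 (5) (4 * n2 + 5) (4 * n3 + 4 * n4 + 9)
    (6) (5 * n2 + 7) ((5 * n3 + 4) + (5 * n4 + 7))
    (by omega) (by omega) (by omega) (by omega) (by omega) (by omega)] at h
  rw [H2 3 2 0 (5) (4 * n2 + 6) (4 * n3 + 3)
    (6) (5 * n2 + 7) (5 * n3 + 4)
    (by omega) (by omega) (by omega) (by omega) (by omega) (by omega)] at h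
  simpa using h

lemma type3 (n2 n3 n4 : ℕ) :
    |(0 : ℝ) - (T4 (4 * n2 + 6) (4 * n3 + 5) (4 * n4 + 2) - T4 (4 * n2 + 10) (4 * n3 + 5) (4 * n4 + 2)
      + T4 (5) (4 * n2 + 4 * n3 + 10) (4 * n4 + 3) - T4 (5) (4 * n2 + 6) (4 * n3 + 4 * n4 + 7)
      + T4 (5) (4 * n2 + 5) (4 * n3 + 5))| ≤ 1 / 24 := by
  have h := H1 (6) (5 * n2 + 7) (5 * n3 + 6) (5 * n4 + 3)
  rw [Fn0 (6) (5 * n2 + 7) (by omega), Fn0 (5 * n3 + 6) (5 * n4 + 3) (by omega)] at h
  rw [H2 3 1 0 (4 * n2 + 6) (4 * n3 + 5) (4 * n4 + 2)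
    (5 * n2 + 7) (5 * n3 + 6) (5 * n4 + 3)
    (by omega) (by omega) (by omega) (by omega) (by omega) (by omega)] at h
  rw [H2 0 2 1 (4 * n2 + 10) (4 * n3 + 5) (4 * n4 + 2)
    ((6) + (5 * n2 + 7)) (5 * n3 + 6) (5 * n4 + 3)
    (by omega) (by omega) (by omega) (by omega) (by omega) (by omega)] at h
  rw [H2 2 1 3 (5) (4 * n2 + 4 * n3 + 10) (4 * n4 + 3)
    (6) ((5 * n2 + 7) + (5 * n3 + 6)) (5 * n4 + 3)
    (by omega) (by omega) (by omega) (by omega) (by omega) (by omega)] at h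
  rw [H2 3 2 0 (5) (4 * n2 + 6) (4 * n3 + 4 * n4 + 7)
    (6) (5 * n2 + 7) ((5 * n3 + 6) + (5 * n4 + 3))
    (by omega) (by omega) (by omega) (by omega) (by omega) (by omega)] at h
  rw [H2 1 0 3 (5) (4 * n2 + 5) (4 * n3 + 5)
    (6) (5 * n2 + 7) (5 * n3 + 6)
    (by omega) (by omega) (by omega) (by omega) (by omega) (by omega)] at h
  simpa using h

lemma type4 (n2 n3 n4 : ℕ) :
    |(0 : ℝ) - (T4 (4 * n2 + 7) (4 * n3 + 2) (4 * n4 + 5) - T4 (4 * n2 + 11) (4 * n3 + 2) (4 * n4 + 5)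
      + T4 (5) (4 * n2 + 4 * n3 + 9) (4 * n4 + 5) - T4 (5) (4 * n2 + 6) (4 * n3 + 4 * n4 + 7)
      + T4 (5) (4 * n2 + 6) (4 * n3 + 3))| ≤ 1 / 24 := by
  have h := H1 (6) (5 * n2 + 8) (5 * n3 + 3) (5 * n4 + 6)
  rw [Fn0 (6) (5 * n2 + 8) (by omega), Fn0 (5 * n3 + 3) (5 * n4 + 6) (by omega)] at h
  rw [H2 3 0 2 (4 * n2 + 7) (4 * n3 + 2) (4 * n4 + 5)
    (5 * n2 + 8) (5 * n3 + 3) (5 * n4 + 6)
    (by omega) (by omega) (by omega) (by omega) (by omega) (by omega)] at h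
  rw [H2 0 1 3 (4 * n2 + 11) (4 * n3 + 2) (4 * n4 + 5)
    ((6) + (5 * n2 + 8)) (5 * n3 + 3) (5 * n4 + 6)
    (by omega) (by omega) (by omega) (by omega) (by omega) (by omega)] at h
  rw [H2 3 2 1 (5) (4 * n2 + 4 * n3 + 9) (4 * n4 + 5)
    (6) ((5 * n2 + 8) + (5 * n3 + 3)) (5 * n4 + 6)
    (by omega) (by omega) (by omega) (by omega) (by omega) (by omega)] at h
  rw [H2 1 0 2 (5) (4 * n2 + 6) (4 * n3 + 4 * n4 + 7)
    (6) (5 * n2 + 8) ((5 * n3 + 3) + (5 * n4 + 6))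
    (by omega) (by omega) (by omega) (by omega) (by omega) (by omega)] at h
  rw [H2 2 1 3 (5) (4 * n2 + 6) (4 * n3 + 3)
    (6) (5 * n2 + 8) (5 * n3 + 3)
    (by omega) (by omega) (by omega) (by omega) (by omega) (by omega)] at h
  simpa using h

lemma type5 (n2 n3 n4 : ℕ) :
    |(0 : ℝ) - (T4 (4 * n2 + 7) (4 * n3 + 3) (4 * n4 + 3) - T4 (4 * n2 + 11) (4 * n3 + 3) (4 * n4 + 3)
      + T4 (5) (4 * n2 + 4 * n3 + 10) (4 * n4 + 3) - T4 (5) (4 * n2 + 6) (4 * n3 + 4 * n4 + 7)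
      + T4 (5) (4 * n2 + 6) (4 * n3 + 3))| ≤ 1 / 24 := by
  have h := H1 (6) (5 * n2 + 8) (5 * n3 + 4) (5 * n4 + 4)
  rw [Fn0 (6) (5 * n2 + 8) (by omega), Fn1 (5 * n3 + 4) (5 * n4 + 4) (by omega)] at h
  rw [H2 3 0 1 (4 * n2 + 7) (4 * n3 + 3) (4 * n4 + 3)
    (5 * n2 + 8) (5 * n3 + 4) (5 * n4 + 4)
    (by omega) (by omega) (by omega) (by omega) (by omega) (by omega)] at h
  rw [H2 0 1 2 (4 * n2 + 11) (4 * n3 + 3) (4 * n4 + 3)
    ((6) + (5 * n2 + 8)) (5 * n3 + 4) (5 * n4 + 4)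
    (by omega) (by omega) (by omega) (by omega) (by omega) (by omega)] at h
  rw [H2 3 2 0 (5) (4 * n2 + 4 * n3 + 10) (4 * n4 + 3)
    (6) ((5 * n2 + 8) + (5 * n3 + 4)) (5 * n4 + 4)
    (by omega) (by omega) (by omega) (by omega) (by omega) (by omega)] at h
  rw [H2 2 1 3 (5) (4 * n2 + 6) (4 * n3 + 4 * n4 + 7)
    (6) (5 * n2 + 8) ((5 * n3 + 4) + (5 * n4 + 4))
    (by omega) (by omega) (by omega) (by omega) (by omega) (by omega)] at h
  rw [H2 1 0 2 (5) (4 * n2 + 6) (4 * n3 + 3)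
    (6) (5 * n2 + 8) (5 * n3 + 4)
    (by omega) (by omega) (by omega) (by omega) (by omega) (by omega)] at h
  simpa using h

lemma type6 (n2 n3 n4 : ℕ) :
    |(0 : ℝ) - (T4 (4 * n2 + 3) (4 * n3 + 6) (4 * n4 + 5) - T4 (4 * n2 + 9) (4 * n3 + 5) (4 * n4 + 5)
      + T4 (5) (4 * n2 + 4 * n3 + 9) (4 * n4 + 5) - T4 (6) (4 * n2 + 3) (4 * n3 + 4 * n4 + 10)
      + T4 (6) (4 * n2 + 3) (4 * n3 + 6))| ≤ 1 / 24 := by
  have h := H1 (7) (5 * n2 + 4) (5 * n3 + 7) (5 * n4 + 6)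
  rw [Fn1 (7) (5 * n2 + 4) (by omega), Fn0 (5 * n3 + 7) (5 * n4 + 6) (by omega)] at h
  rw [H2 2 3 1 (4 * n2 + 3) (4 * n3 + 6) (4 * n4 + 5)
    (5 * n2 + 4) (5 * n3 + 7) (5 * n4 + 6)
    (by omega) (by omega) (by omega) (by omega) (by omega) (by omega)] at h
  rw [H2 1 0 3 (4 * n2 + 9) (4 * n3 + 5) (4 * n4 + 5)
    ((7) + (5 * n2 + 4)) (5 * n3 + 7) (5 * n4 + 6)
    (by omega) (by omega) (by omega) (by omega) (by omega) (by omega)] at h
  rw [H2 0 3 2 (5) (4 * n2 + 4 * n3 + 9) (4 * n4 + 5)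
    (7) ((5 * n2 + 4) + (5 * n3 + 7)) (5 * n4 + 6)
    (by omega) (by omega) (by omega) (by omega) (by omega) (by omega)] at h
  rw [H2 2 0 1 (6) (4 * n2 + 3) (4 * n3 + 4 * n4 + 10)
    (7) (5 * n2 + 4) ((5 * n3 + 7) + (5 * n4 + 6))
    (by omega) (by omega) (by omega) (by omega) (by omega) (by omega)] at h
  rw [H2 3 1 2 (6) (4 * n2 + 3) (4 * n3 + 6)
    (7) (5 * n2 + 4) (5 * n3 + 7)
    (by omega) (by omega) (by omega) (by omega) (by omega) (by omega)] at h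
  simpa using h

lemma type7 (n2 n3 n4 : ℕ) :
    |(1 : ℝ) - (T4 (4 * n2 + 3) (4 * n3 + 7) (4 * n4 + 3) - T4 (4 * n2 + 9) (4 * n3 + 6) (4 * n4 + 3)
      + T4 (5) (4 * n2 + 4 * n3 + 10) (4 * n4 + 3) - T4 (6) (4 * n2 + 3) (4 * n3 + 4 * n4 + 10)
      + T4 (6) (4 * n2 + 3) (4 * n3 + 6))| ≤ 1 / 24 := by
  have h := H1 (7) (5 * n2 + 4) (5 * n3 + 8) (5 * n4 + 4)
  rw [Fn1 (7) (5 * n2 + 4) (by omega), Fn1 (5 * n3 + 8) (5 * n4 + 4) (by omega)] at h
  rw [H2 2 3 0 (4 * n2 + 3) (4 * n3 + 7) (4 * n4 + 3)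
    (5 * n2 + 4) (5 * n3 + 8) (5 * n4 + 4)
    (by omega) (by omega) (by omega) (by omega) (by omega) (by omega)] at h
  rw [H2 1 0 2 (4 * n2 + 9) (4 * n3 + 6) (4 * n4 + 3)
    ((7) + (5 * n2 + 4)) (5 * n3 + 8) (5 * n4 + 4)
    (by omega) (by omega) (by omega) (by omega) (by omega) (by omega)] at h
  rw [H2 0 3 1 (5) (4 * n2 + 4 * n3 + 10) (4 * n4 + 3)
    (7) ((5 * n2 + 4) + (5 * n3 + 8)) (5 * n4 + 4)
    (by omega) (by omega) (by omega) (by omega) (by omega) (by omega)] at h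
  rw [H2 3 1 2 (6) (4 * n2 + 3) (4 * n3 + 4 * n4 + 10)
    (7) (5 * n2 + 4) ((5 * n3 + 8) + (5 * n4 + 4))
    (by omega) (by omega) (by omega) (by omega) (by omega) (by omega)] at h
  rw [H2 2 0 1 (6) (4 * n2 + 3) (4 * n3 + 6)
    (7) (5 * n2 + 4) (5 * n3 + 8)
    (by omega) (by omega) (by omega) (by omega) (by omega) (by omega)] at h
  simpa using h

lemma type8 (n2 n3 n4 : ℕ) :
    |(0 : ℝ) - (T4 (4 * n2 + 5) (4 * n3 + 2) (4 * n4 + 7) - T4 (4 * n2 + 10) (4 * n3 + 3) (4 * n4 + 6)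
      + T4 (6) (4 * n2 + 4 * n3 + 7) (4 * n4 + 6) - T4 (5) (4 * n2 + 5) (4 * n3 + 4 * n4 + 9)
      + T4 (6) (4 * n2 + 5) (4 * n3 + 2))| ≤ 1 / 24 := by
  have h := H1 (7) (5 * n2 + 6) (5 * n3 + 3) (5 * n4 + 8)
  rw [Fn0 (7) (5 * n2 + 6) (by omega), Fn1 (5 * n3 + 3) (5 * n4 + 8) (by omega)] at h
  rw [H2 2 1 3 (4 * n2 + 5) (4 * n3 + 2) (4 * n4 + 7)
    (5 * n2 + 6) (5 * n3 + 3) (5 * n4 + 8)
    (by omega) (by omega) (by omega) (by omega) (by omega) (by omega)] at h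
  rw [H2 1 3 0 (4 * n2 + 10) (4 * n3 + 3) (4 * n4 + 6)
    ((7) + (5 * n2 + 6)) (5 * n3 + 3) (5 * n4 + 8)
    (by omega) (by omega) (by omega) (by omega) (by omega) (by omega)] at h
  rw [H2 2 0 1 (6) (4 * n2 + 4 * n3 + 7) (4 * n4 + 6)
    (7) ((5 * n2 + 6) + (5 * n3 + 3)) (5 * n4 + 8)
    (by omega) (by omega) (by omega) (by omega) (by omega) (by omega)] at h
  rw [H2 0 3 2 (5) (4 * n2 + 5) (4 * n3 + 4 * n4 + 9)
    (7) (5 * n2 + 6) ((5 * n3 + 3) + (5 * n4 + 8))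
    (by omega) (by omega) (by omega) (by omega) (by omega) (by omega)] at h
  rw [H2 3 1 0 (6) (4 * n2 + 5) (4 * n3 + 2)
    (7) (5 * n2 + 6) (5 * n3 + 3)
    (by omega) (by omega) (by omega) (by omega) (by omega) (by omega)] at h
  simpa using h

lemma type9 (n2 n3 n4 : ℕ) :
    |(0 : ℝ) - (T4 (4 * n2 + 5) (4 * n3 + 5) (4 * n4 + 1) - T4 (4 * n2 + 10) (4 * n3 + 5) (4 * n4 + 2)
      + T4 (6) (4 * n2 + 4 * n3 + 9) (4 * n4 + 2) - T4 (6) (4 * n2 + 5) (4 * n3 + 4 * n4 + 6)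
      + T4 (5) (4 * n2 + 5) (4 * n3 + 5))| ≤ 1 / 24 := by
  have h := H1 (7) (5 * n2 + 6) (5 * n3 + 6) (5 * n4 + 2)
  rw [Fn0 (7) (5 * n2 + 6) (by omega), Fn0 (5 * n3 + 6) (5 * n4 + 2) (by omega)] at h
  rw [H2 2 1 0 (4 * n2 + 5) (4 * n3 + 5) (4 * n4 + 1)
    (5 * n2 + 6) (5 * n3 + 6) (5 * n4 + 2)
    (by omega) (by omega) (by omega) (by omega) (by omega) (by omega)] at h
  rw [H2 1 3 2 (4 * n2 + 10) (4 * n3 + 5) (4 * n4 + 2)
    ((7) + (5 * n2 + 6)) (5 * n3 + 6) (5 * n4 + 2)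
    (by omega) (by omega) (by omega) (by omega) (by omega) (by omega)] at h
  rw [H2 2 0 3 (6) (4 * n2 + 4 * n3 + 9) (4 * n4 + 2)
    (7) ((5 * n2 + 6) + (5 * n3 + 6)) (5 * n4 + 2)
    (by omega) (by omega) (by omega) (by omega) (by omega) (by omega)] at h
  rw [H2 3 1 0 (6) (4 * n2 + 5) (4 * n3 + 4 * n4 + 6)
    (7) (5 * n2 + 6) ((5 * n3 + 6) + (5 * n4 + 2))
    (by omega) (by omega) (by omega) (by omega) (by omega) (by omega)] at h
  rw [H2 0 3 2 (5) (4 * n2 + 5) (4 * n3 + 5)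
    (7) (5 * n2 + 6) (5 * n3 + 6)
    (by omega) (by omega) (by omega) (by omega) (by omega) (by omega)] at h
  simpa using h

lemma type10 (n2 n3 n4 : ℕ) :
    |(0 : ℝ) - (T4 (4 * n2 + 6) (4 * n3 + 1) (4 * n4 + 6) - T4 (4 * n2 + 11) (4 * n3 + 2) (4 * n4 + 5)
      + T4 (6) (4 * n2 + 4 * n3 + 7) (4 * n4 + 6) - T4 (5) (4 * n2 + 6) (4 * n3 + 4 * n4 + 7)
      + T4 (6) (4 * n2 + 5) (4 * n3 + 2))| ≤ 1 / 24 := by
  have h := H1 (7) (5 * n2 + 7) (5 * n3 + 2) (5 * n4 + 7)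
  rw [Fn0 (7) (5 * n2 + 7) (by omega), Fn0 (5 * n3 + 2) (5 * n4 + 7) (by omega)] at h
  rw [H2 2 0 3 (4 * n2 + 6) (4 * n3 + 1) (4 * n4 + 6)
    (5 * n2 + 7) (5 * n3 + 2) (5 * n4 + 7)
    (by omega) (by omega) (by omega) (by omega) (by omega) (by omega)] at h
  rw [H2 1 2 0 (4 * n2 + 11) (4 * n3 + 2) (4 * n4 + 5)
    ((7) + (5 * n2 + 7)) (5 * n3 + 2) (5 * n4 + 7)
    (by omega) (by omega) (by omega) (by omega) (by omega) (by omega)] at h
  rw [H2 3 1 2 (6) (4 * n2 + 4 * n3 + 7) (4 * n4 + 6)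
    (7) ((5 * n2 + 7) + (5 * n3 + 2)) (5 * n4 + 7)
    (by omega) (by omega) (by omega) (by omega) (by omega) (by omega)] at h
  rw [H2 0 3 1 (5) (4 * n2 + 6) (4 * n3 + 4 * n4 + 7)
    (7) (5 * n2 + 7) ((5 * n3 + 2) + (5 * n4 + 7))
    (by omega) (by omega) (by omega) (by omega) (by omega) (by omega)] at h
  rw [H2 2 0 3 (6) (4 * n2 + 5) (4 * n3 + 2)
    (7) (5 * n2 + 7) (5 * n3 + 2)
    (by omega) (by omega) (by omega) (by omega) (by omega) (by omega)] at h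
  simpa using h

lemma type11 (n2 n3 n4 : ℕ) :
    |(0 : ℝ) - (T4 (4 * n2 + 6) (4 * n3 + 3) (4 * n4 + 2) - T4 (4 * n2 + 11) (4 * n3 + 3) (4 * n4 + 3)
      + T4 (6) (4 * n2 + 4 * n3 + 9) (4 * n4 + 2) - T4 (6) (4 * n2 + 5) (4 * n3 + 4 * n4 + 6)
      + T4 (5) (4 * n2 + 6) (4 * n3 + 3))| ≤ 1 / 24 := by
  have h := H1 (7) (5 * n2 + 7) (5 * n3 + 4) (5 * n4 + 3)
  rw [Fn0 (7) (5 * n2 + 7) (by omega), Fn1 (5 * n3 + 4) (5 * n4 + 3) (by omega)] at h
  rw [H2 2 0 1 (4 * n2 + 6) (4 * n3 + 3) (4 * n4 + 2)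
    (5 * n2 + 7) (5 * n3 + 4) (5 * n4 + 3)
    (by omega) (by omega) (by omega) (by omega) (by omega) (by omega)] at h
  rw [H2 1 2 3 (4 * n2 + 11) (4 * n3 + 3) (4 * n4 + 3)
    ((7) + (5 * n2 + 7)) (5 * n3 + 4) (5 * n4 + 3)
    (by omega) (by omega) (by omega) (by omega) (by omega) (by omega)] at h
  rw [H2 3 1 0 (6) (4 * n2 + 4 * n3 + 9) (4 * n4 + 2)
    (7) ((5 * n2 + 7) + (5 * n3 + 4)) (5 * n4 + 3)
    (by omega) (by omega) (by omega) (by omega) (by omega) (by omega)] at h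
  rw [H2 2 0 3 (6) (4 * n2 + 5) (4 * n3 + 4 * n4 + 6)
    (7) (5 * n2 + 7) ((5 * n3 + 4) + (5 * n4 + 3))
    (by omega) (by omega) (by omega) (by omega) (by omega) (by omega)] at h
  rw [H2 0 3 1 (5) (4 * n2 + 6) (4 * n3 + 3)
    (7) (5 * n2 + 7) (5 * n3 + 4)
    (by omega) (by omega) (by omega) (by omega) (by omega) (by omega)] at h
  simpa using h

lemma type12 (n2 n3 n4 : ℕ) :
    |(0 : ℝ) - (T4 (4 * n2 + 2) (4 * n3 + 5) (4 * n4 + 6) - T4 (4 * n2 + 9) (4 * n3 + 5) (4 * n4 + 5)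
      + T4 (6) (4 * n2 + 4 * n3 + 7) (4 * n4 + 6) - T4 (6) (4 * n2 + 3) (4 * n3 + 4 * n4 + 10)
      + T4 (7) (4 * n2 + 2) (4 * n3 + 5))| ≤ 1 / 24 := by
  have h := H1 (8) (5 * n2 + 3) (5 * n3 + 6) (5 * n4 + 7)
  rw [Fn1 (8) (5 * n2 + 3) (by omega), Fn0 (5 * n3 + 6) (5 * n4 + 7) (by omega)] at h
  rw [H2 1 3 2 (4 * n2 + 2) (4 * n3 + 5) (4 * n4 + 6)
    (5 * n2 + 3) (5 * n3 + 6) (5 * n4 + 7)
    (by omega) (by omega) (by omega) (by omega) (by omega) (by omega)] at h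
  rw [H2 2 1 0 (4 * n2 + 9) (4 * n3 + 5) (4 * n4 + 5)
    ((8) + (5 * n2 + 3)) (5 * n3 + 6) (5 * n4 + 7)
    (by omega) (by omega) (by omega) (by omega) (by omega) (by omega)] at h
  rw [H2 0 2 3 (6) (4 * n2 + 4 * n3 + 7) (4 * n4 + 6)
    (8) ((5 * n2 + 3) + (5 * n3 + 6)) (5 * n4 + 7)
    (by omega) (by omega) (by omega) (by omega) (by omega) (by omega)] at h
  rw [H2 1 3 0 (6) (4 * n2 + 3) (4 * n3 + 4 * n4 + 10)
    (8) (5 * n2 + 3) ((5 * n3 + 6) + (5 * n4 + 7))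
    (by omega) (by omega) (by omega) (by omega) (by omega) (by omega)] at h
  rw [H2 3 0 2 (7) (4 * n2 + 2) (4 * n3 + 5)
    (8) (5 * n2 + 3) (5 * n3 + 6)
    (by omega) (by omega) (by omega) (by omega) (by omega) (by omega)] at h
  simpa using h

lemma type13 (n2 n3 n4 : ℕ) :
    |(1 : ℝ) - (T4 (4 * n2 + 2) (4 * n3 + 7) (4 * n4 + 2) - T4 (4 * n2 + 9) (4 * n3 + 6) (4 * n4 + 3)
      + T4 (6) (4 * n2 + 4 * n3 + 9) (4 * n4 + 2) - T4 (7) (4 * n2 + 2) (4 * n3 + 4 * n4 + 9)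
      + T4 (6) (4 * n2 + 3) (4 * n3 + 6))| ≤ 1 / 24 := by
  have h := H1 (8) (5 * n2 + 3) (5 * n3 + 8) (5 * n4 + 3)
  rw [Fn1 (8) (5 * n2 + 3) (by omega), Fn1 (5 * n3 + 8) (5 * n4 + 3) (by omega)] at h
  rw [H2 1 3 0 (4 * n2 + 2) (4 * n3 + 7) (4 * n4 + 2)
    (5 * n2 + 3) (5 * n3 + 8) (5 * n4 + 3)
    (by omega) (by omega) (by omega) (by omega) (by omega) (by omega)] at h
  rw [H2 2 1 3 (4 * n2 + 9) (4 * n3 + 6) (4 * n4 + 3)
    ((8) + (5 * n2 + 3)) (5 * n3 + 8) (5 * n4 + 3)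
    (by omega) (by omega) (by omega) (by omega) (by omega) (by omega)] at h
  rw [H2 0 2 1 (6) (4 * n2 + 4 * n3 + 9) (4 * n4 + 2)
    (8) ((5 * n2 + 3) + (5 * n3 + 8)) (5 * n4 + 3)
    (by omega) (by omega) (by omega) (by omega) (by omega) (by omega)] at h
  rw [H2 3 0 2 (7) (4 * n2 + 2) (4 * n3 + 4 * n4 + 9)
    (8) (5 * n2 + 3) ((5 * n3 + 8) + (5 * n4 + 3))
    (by omega) (by omega) (by omega) (by omega) (by omega) (by omega)] at h
  rw [H2 1 3 0 (6) (4 * n2 + 3) (4 * n3 + 6)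
    (8) (5 * n2 + 3) (5 * n3 + 8)
    (by omega) (by omega) (by omega) (by omega) (by omega) (by omega)] at h
  simpa using h

lemma type14 (n2 n3 n4 : ℕ) :
    |(1 : ℝ) - (T4 (4 * n2 + 3) (4 * n3 + 3) (4 * n4 + 7) - T4 (4 * n2 + 10) (4 * n3 + 3) (4 * n4 + 6)
      + T4 (6) (4 * n2 + 4 * n3 + 7) (4 * n4 + 6) - T4 (6) (4 * n2 + 3) (4 * n3 + 4 * n4 + 10)
      + T4 (7) (4 * n2 + 3) (4 * n3 + 3))| ≤ 1 / 24 := by
  have h := H1 (8) (5 * n2 + 4) (5 * n3 + 4) (5 * n4 + 8)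
  rw [Fn1 (8) (5 * n2 + 4) (by omega), Fn1 (5 * n3 + 4) (5 * n4 + 8) (by omega)] at h
  rw [H2 1 2 3 (4 * n2 + 3) (4 * n3 + 3) (4 * n4 + 7)
    (5 * n2 + 4) (5 * n3 + 4) (5 * n4 + 8)
    (by omega) (by omega) (by omega) (by omega) (by omega) (by omega)] at h
  rw [H2 2 0 1 (4 * n2 + 10) (4 * n3 + 3) (4 * n4 + 6)
    ((8) + (5 * n2 + 4)) (5 * n3 + 4) (5 * n4 + 8)
    (by omega) (by omega) (by omega) (by omega) (by omega) (by omega)] at h
  rw [H2 1 3 0 (6) (4 * n2 + 4 * n3 + 7) (4 * n4 + 6)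
    (8) ((5 * n2 + 4) + (5 * n3 + 4)) (5 * n4 + 8)
    (by omega) (by omega) (by omega) (by omega) (by omega) (by omega)] at h
  rw [H2 0 2 3 (6) (4 * n2 + 3) (4 * n3 + 4 * n4 + 10)
    (8) (5 * n2 + 4) ((5 * n3 + 4) + (5 * n4 + 8))
    (by omega) (by omega) (by omega) (by omega) (by omega) (by omega)] at h
  rw [H2 3 0 1 (7) (4 * n2 + 3) (4 * n3 + 3)
    (8) (5 * n2 + 4) (5 * n3 + 4)
    (by omega) (by omega) (by omega) (by omega) (by omega) (by omega)] at h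
  simpa using h

lemma type15 (n2 n3 n4 : ℕ) :
    |(0 : ℝ) - (T4 (4 * n2 + 3) (4 * n3 + 6) (4 * n4 + 1) - T4 (4 * n2 + 10) (4 * n3 + 5) (4 * n4 + 2)
      + T4 (6) (4 * n2 + 4 * n3 + 9) (4 * n4 + 2) - T4 (7) (4 * n2 + 3) (4 * n3 + 4 * n4 + 7)
      + T4 (6) (4 * n2 + 3) (4 * n3 + 6))| ≤ 1 / 24 := by
  have h := H1 (8) (5 * n2 + 4) (5 * n3 + 7) (5 * n4 + 2)
  rw [Fn1 (8) (5 * n2 + 4) (by omega), Fn0 (5 * n3 + 7) (5 * n4 + 2) (by omega)] at h
  rw [H2 1 2 0 (4 * n2 + 3) (4 * n3 + 6) (4 * n4 + 1)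
    (5 * n2 + 4) (5 * n3 + 7) (5 * n4 + 2)
    (by omega) (by omega) (by omega) (by omega) (by omega) (by omega)] at h
  rw [H2 2 0 3 (4 * n2 + 10) (4 * n3 + 5) (4 * n4 + 2)
    ((8) + (5 * n2 + 4)) (5 * n3 + 7) (5 * n4 + 2)
    (by omega) (by omega) (by omega) (by omega) (by omega) (by omega)] at h
  rw [H2 1 3 2 (6) (4 * n2 + 4 * n3 + 9) (4 * n4 + 2)
    (8) ((5 * n2 + 4) + (5 * n3 + 7)) (5 * n4 + 2)
    (by omega) (by omega) (by omega) (by omega) (by omega) (by omega)] at h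
  rw [H2 3 0 1 (7) (4 * n2 + 3) (4 * n3 + 4 * n4 + 7)
    (8) (5 * n2 + 4) ((5 * n3 + 7) + (5 * n4 + 2))
    (by omega) (by omega) (by omega) (by omega) (by omega) (by omega)] at h
  rw [H2 0 2 3 (6) (4 * n2 + 3) (4 * n3 + 6)
    (8) (5 * n2 + 4) (5 * n3 + 7)
    (by omega) (by omega) (by omega) (by omega) (by omega) (by omega)] at h
  simpa using h

lemma type16 (n2 n3 n4 : ℕ) :
    |(0 : ℝ) - (T4 (4 * n2 + 5) (4 * n3 + 1) (4 * n4 + 5) - T4 (4 * n2 + 11) (4 * n3 + 2) (4 * n4 + 5)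
      + T4 (7) (4 * n2 + 4 * n3 + 6) (4 * n4 + 5) - T4 (6) (4 * n2 + 5) (4 * n3 + 4 * n4 + 6)
      + T4 (6) (4 * n2 + 5) (4 * n3 + 2))| ≤ 1 / 24 := by
  have h := H1 (8) (5 * n2 + 6) (5 * n3 + 2) (5 * n4 + 6)
  rw [Fn0 (8) (5 * n2 + 6) (by omega), Fn0 (5 * n3 + 2) (5 * n4 + 6) (by omega)] at h
  rw [H2 1 0 3 (4 * n2 + 5) (4 * n3 + 1) (4 * n4 + 5)
    (5 * n2 + 6) (5 * n3 + 2) (5 * n4 + 6)
    (by omega) (by omega) (by omega) (by omega) (by omega) (by omega)] at h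
  rw [H2 2 3 1 (4 * n2 + 11) (4 * n3 + 2) (4 * n4 + 5)
    ((8) + (5 * n2 + 6)) (5 * n3 + 2) (5 * n4 + 6)
    (by omega) (by omega) (by omega) (by omega) (by omega) (by omega)] at h
  rw [H2 3 0 2 (7) (4 * n2 + 4 * n3 + 6) (4 * n4 + 5)
    (8) ((5 * n2 + 6) + (5 * n3 + 2)) (5 * n4 + 6)
    (by omega) (by omega) (by omega) (by omega) (by omega) (by omega)] at h
  rw [H2 0 2 1 (6) (4 * n2 + 5) (4 * n3 + 4 * n4 + 6)
    (8) (5 * n2 + 6) ((5 * n3 + 2) + (5 * n4 + 6))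
    (by omega) (by omega) (by omega) (by omega) (by omega) (by omega)] at h
  rw [H2 1 3 2 (6) (4 * n2 + 5) (4 * n3 + 2)
    (8) (5 * n2 + 6) (5 * n3 + 2)
    (by omega) (by omega) (by omega) (by omega) (by omega) (by omega)] at h
  simpa using h

lemma type17 (n2 n3 n4 : ℕ) :
    |(0 : ℝ) - (T4 (4 * n2 + 5) (4 * n3 + 2) (4 * n4 + 3) - T4 (4 * n2 + 11) (4 * n3 + 3) (4 * n4 + 3)
      + T4 (7) (4 * n2 + 4 * n3 + 7) (4 * n4 + 3) - T4 (6) (4 * n2 + 5) (4 * n3 + 4 * n4 + 6)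
      + T4 (6) (4 * n2 + 5) (4 * n3 + 2))| ≤ 1 / 24 := by
  have h := H1 (8) (5 * n2 + 6) (5 * n3 + 3) (5 * n4 + 4)
  rw [Fn0 (8) (5 * n2 + 6) (by omega), Fn1 (5 * n3 + 3) (5 * n4 + 4) (by omega)] at h
  rw [H2 1 0 2 (4 * n2 + 5) (4 * n3 + 2) (4 * n4 + 3)
    (5 * n2 + 6) (5 * n3 + 3) (5 * n4 + 4)
    (by omega) (by omega) (by omega) (by omega) (by omega) (by omega)] at h
  rw [H2 2 3 0 (4 * n2 + 11) (4 * n3 + 3) (4 * n4 + 3)
    ((8) + (5 * n2 + 6)) (5 * n3 + 3) (5 * n4 + 4)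
    (by omega) (by omega) (by omega) (by omega) (by omega) (by omega)] at h
  rw [H2 3 0 1 (7) (4 * n2 + 4 * n3 + 7) (4 * n4 + 3)
    (8) ((5 * n2 + 6) + (5 * n3 + 3)) (5 * n4 + 4)
    (by omega) (by omega) (by omega) (by omega) (by omega) (by omega)] at h
  rw [H2 1 3 2 (6) (4 * n2 + 5) (4 * n3 + 4 * n4 + 6)
    (8) (5 * n2 + 6) ((5 * n3 + 3) + (5 * n4 + 4))
    (by omega) (by omega) (by omega) (by omega) (by omega) (by omega)] at h
  rw [H2 0 2 1 (6) (4 * n2 + 5) (4 * n3 + 2)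
    (8) (5 * n2 + 6) (5 * n3 + 3)
    (by omega) (by omega) (by omega) (by omega) (by omega) (by omega)] at h
  simpa using h

lemma type18 (n2 n3 n4 : ℕ) :
    |(0 : ℝ) - (T4 (4 * n2 + 1) (4 * n3 + 5) (4 * n4 + 5) - T4 (4 * n2 + 9) (4 * n3 + 5) (4 * n4 + 5)
      + T4 (7) (4 * n2 + 4 * n3 + 6) (4 * n4 + 5) - T4 (7) (4 * n2 + 2) (4 * n3 + 4 * n4 + 9)
      + T4 (7) (4 * n2 + 2) (4 * n3 + 5))| ≤ 1 / 24 := by
  have h := H1 (9) (5 * n2 + 2) (5 * n3 + 6) (5 * n4 + 6)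
  rw [Fn1 (9) (5 * n2 + 2) (by omega), Fn0 (5 * n3 + 6) (5 * n4 + 6) (by omega)] at h
  rw [H2 0 3 2 (4 * n2 + 1) (4 * n3 + 5) (4 * n4 + 5)
    (5 * n2 + 2) (5 * n3 + 6) (5 * n4 + 6)
    (by omega) (by omega) (by omega) (by omega) (by omega) (by omega)] at h
  rw [H2 3 2 1 (4 * n2 + 9) (4 * n3 + 5) (4 * n4 + 5)
    ((9) + (5 * n2 + 2)) (5 * n3 + 6) (5 * n4 + 6)
    (by omega) (by omega) (by omega) (by omega) (by omega) (by omega)] at h
  rw [H2 0 1 3 (7) (4 * n2 + 4 * n3 + 6) (4 * n4 + 5)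
    (9) ((5 * n2 + 2) + (5 * n3 + 6)) (5 * n4 + 6)
    (by omega) (by omega) (by omega) (by omega) (by omega) (by omega)] at h
  rw [H2 1 2 0 (7) (4 * n2 + 2) (4 * n3 + 4 * n4 + 9)
    (9) (5 * n2 + 2) ((5 * n3 + 6) + (5 * n4 + 6))
    (by omega) (by omega) (by omega) (by omega) (by omega) (by omega)] at h
  rw [H2 2 3 1 (7) (4 * n2 + 2) (4 * n3 + 5)
    (9) (5 * n2 + 2) (5 * n3 + 6)
    (by omega) (by omega) (by omega) (by omega) (by omega) (by omega)] at h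
  simpa using h

lemma type19 (n2 n3 n4 : ℕ) :
    |(1 : ℝ) - (T4 (4 * n2 + 1) (4 * n3 + 6) (4 * n4 + 3) - T4 (4 * n2 + 9) (4 * n3 + 6) (4 * n4 + 3)
      + T4 (7) (4 * n2 + 4 * n3 + 7) (4 * n4 + 3) - T4 (7) (4 * n2 + 2) (4 * n3 + 4 * n4 + 9)
      + T4 (7) (4 * n2 + 2) (4 * n3 + 5))| ≤ 1 / 24 := by
  have h := H1 (9) (5 * n2 + 2) (5 * n3 + 7) (5 * n4 + 4)
  rw [Fn1 (9) (5 * n2 + 2) (by omega), Fn1 (5 * n3 + 7) (5 * n4 + 4) (by omega)] at h
  rw [H2 0 3 1 (4 * n2 + 1) (4 * n3 + 6) (4 * n4 + 3)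
    (5 * n2 + 2) (5 * n3 + 7) (5 * n4 + 4)
    (by omega) (by omega) (by omega) (by omega) (by omega) (by omega)] at h
  rw [H2 3 2 0 (4 * n2 + 9) (4 * n3 + 6) (4 * n4 + 3)
    ((9) + (5 * n2 + 2)) (5 * n3 + 7) (5 * n4 + 4)
    (by omega) (by omega) (by omega) (by omega) (by omega) (by omega)] at h
  rw [H2 0 1 2 (7) (4 * n2 + 4 * n3 + 7) (4 * n4 + 3)
    (9) ((5 * n2 + 2) + (5 * n3 + 7)) (5 * n4 + 4)
    (by omega) (by omega) (by omega) (by omega) (by omega) (by omega)] at h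
  rw [H2 2 3 1 (7) (4 * n2 + 2) (4 * n3 + 4 * n4 + 9)
    (9) (5 * n2 + 2) ((5 * n3 + 7) + (5 * n4 + 4))
    (by omega) (by omega) (by omega) (by omega) (by omega) (by omega)] at h
  rw [H2 1 2 0 (7) (4 * n2 + 2) (4 * n3 + 5)
    (9) (5 * n2 + 2) (5 * n3 + 7)
    (by omega) (by omega) (by omega) (by omega) (by omega) (by omega)] at h
  simpa using h

lemma type20 (n2 n3 n4 : ℕ) :
    |(1 : ℝ) - (T4 (4 * n2 + 2) (4 * n3 + 3) (4 * n4 + 6) - T4 (4 * n2 + 10) (4 * n3 + 3) (4 * n4 + 6)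
      + T4 (7) (4 * n2 + 4 * n3 + 6) (4 * n4 + 5) - T4 (7) (4 * n2 + 2) (4 * n3 + 4 * n4 + 9)
      + T4 (7) (4 * n2 + 3) (4 * n3 + 3))| ≤ 1 / 24 := by
  have h := H1 (9) (5 * n2 + 3) (5 * n3 + 4) (5 * n4 + 7)
  rw [Fn1 (9) (5 * n2 + 3) (by omega), Fn1 (5 * n3 + 4) (5 * n4 + 7) (by omega)] at h
  rw [H2 0 2 3 (4 * n2 + 2) (4 * n3 + 3) (4 * n4 + 6)
    (5 * n2 + 3) (5 * n3 + 4) (5 * n4 + 7)
    (by omega) (by omega) (by omega) (by omega) (by omega) (by omega)] at h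
  rw [H2 3 1 2 (4 * n2 + 10) (4 * n3 + 3) (4 * n4 + 6)
    ((9) + (5 * n2 + 3)) (5 * n3 + 4) (5 * n4 + 7)
    (by omega) (by omega) (by omega) (by omega) (by omega) (by omega)] at h
  rw [H2 1 2 0 (7) (4 * n2 + 4 * n3 + 6) (4 * n4 + 5)
    (9) ((5 * n2 + 3) + (5 * n3 + 4)) (5 * n4 + 7)
    (by omega) (by omega) (by omega) (by omega) (by omega) (by omega)] at h
  rw [H2 0 1 3 (7) (4 * n2 + 2) (4 * n3 + 4 * n4 + 9)
    (9) (5 * n2 + 3) ((5 * n3 + 4) + (5 * n4 + 7))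
    (by omega) (by omega) (by omega) (by omega) (by omega) (by omega)] at h
  rw [H2 2 3 0 (7) (4 * n2 + 3) (4 * n3 + 3)
    (9) (5 * n2 + 3) (5 * n3 + 4)
    (by omega) (by omega) (by omega) (by omega) (by omega) (by omega)] at h
  simpa using h

lemma type21 (n2 n3 n4 : ℕ) :
    |(0 : ℝ) - (T4 (4 * n2 + 2) (4 * n3 + 5) (4 * n4 + 2) - T4 (4 * n2 + 10) (4 * n3 + 5) (4 * n4 + 2)
      + T4 (7) (4 * n2 + 4 * n3 + 7) (4 * n4 + 3) - T4 (7) (4 * n2 + 3) (4 * n3 + 4 * n4 + 7)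
      + T4 (7) (4 * n2 + 2) (4 * n3 + 5))| ≤ 1 / 24 := by
  have h := H1 (9) (5 * n2 + 3) (5 * n3 + 6) (5 * n4 + 3)
  rw [Fn1 (9) (5 * n2 + 3) (by omega), Fn0 (5 * n3 + 6) (5 * n4 + 3) (by omega)] at h
  rw [H2 0 2 1 (4 * n2 + 2) (4 * n3 + 5) (4 * n4 + 2)
    (5 * n2 + 3) (5 * n3 + 6) (5 * n4 + 3)
    (by omega) (by omega) (by omega) (by omega) (by omega) (by omega)] at h
  rw [H2 3 1 0 (4 * n2 + 10) (4 * n3 + 5) (4 * n4 + 2)
    ((9) + (5 * n2 + 3)) (5 * n3 + 6) (5 * n4 + 3)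
    (by omega) (by omega) (by omega) (by omega) (by omega) (by omega)] at h
  rw [H2 1 2 3 (7) (4 * n2 + 4 * n3 + 7) (4 * n4 + 3)
    (9) ((5 * n2 + 3) + (5 * n3 + 6)) (5 * n4 + 3)
    (by omega) (by omega) (by omega) (by omega) (by omega) (by omega)] at h
  rw [H2 2 3 0 (7) (4 * n2 + 3) (4 * n3 + 4 * n4 + 7)
    (9) (5 * n2 + 3) ((5 * n3 + 6) + (5 * n4 + 3))
    (by omega) (by omega) (by omega) (by omega) (by omega) (by omega)] at h
  rw [H2 0 1 3 (7) (4 * n2 + 2) (4 * n3 + 5)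
    (9) (5 * n2 + 3) (5 * n3 + 6)
    (by omega) (by omega) (by omega) (by omega) (by omega) (by omega)] at h
  simpa using h

lemma type22 (n2 n3 n4 : ℕ) :
    |(0 : ℝ) - (T4 (4 * n2 + 3) (4 * n3 + 2) (4 * n4 + 5) - T4 (4 * n2 + 11) (4 * n3 + 2) (4 * n4 + 5)
      + T4 (7) (4 * n2 + 4 * n3 + 6) (4 * n4 + 5) - T4 (7) (4 * n2 + 3) (4 * n3 + 4 * n4 + 7)
      + T4 (7) (4 * n2 + 3) (4 * n3 + 3))| ≤ 1 / 24 := by
  have h := H1 (9) (5 * n2 + 4) (5 * n3 + 3) (5 * n4 + 6)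
  rw [Fn1 (9) (5 * n2 + 4) (by omega), Fn0 (5 * n3 + 3) (5 * n4 + 6) (by omega)] at h
  rw [H2 0 1 3 (4 * n2 + 3) (4 * n3 + 2) (4 * n4 + 5)
    (5 * n2 + 4) (5 * n3 + 3) (5 * n4 + 6)
    (by omega) (by omega) (by omega) (by omega) (by omega) (by omega)] at h
  rw [H2 3 0 2 (4 * n2 + 11) (4 * n3 + 2) (4 * n4 + 5)
    ((9) + (5 * n2 + 4)) (5 * n3 + 3) (5 * n4 + 6)
    (by omega) (by omega) (by omega) (by omega) (by omega) (by omega)] at h
  rw [H2 2 3 1 (7) (4 * n2 + 4 * n3 + 6) (4 * n4 + 5)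
    (9) ((5 * n2 + 4) + (5 * n3 + 3)) (5 * n4 + 6)
    (by omega) (by omega) (by omega) (by omega) (by omega) (by omega)] at h
  rw [H2 0 1 2 (7) (4 * n2 + 3) (4 * n3 + 4 * n4 + 7)
    (9) (5 * n2 + 4) ((5 * n3 + 3) + (5 * n4 + 6))
    (by omega) (by omega) (by omega) (by omega) (by omega) (by omega)] at h
  rw [H2 1 2 3 (7) (4 * n2 + 3) (4 * n3 + 3)
    (9) (5 * n2 + 4) (5 * n3 + 3)
    (by omega) (by omega) (by omega) (by omega) (by omega) (by omega)] at h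
  simpa using h

lemma type23 (n2 n3 n4 : ℕ) :
    |(1 : ℝ) - (T4 (4 * n2 + 3) (4 * n3 + 3) (4 * n4 + 3) - T4 (4 * n2 + 11) (4 * n3 + 3) (4 * n4 + 3)
      + T4 (7) (4 * n2 + 4 * n3 + 7) (4 * n4 + 3) - T4 (7) (4 * n2 + 3) (4 * n3 + 4 * n4 + 7)
      + T4 (7) (4 * n2 + 3) (4 * n3 + 3))| ≤ 1 / 24 := by
  have h := H1 (9) (5 * n2 + 4) (5 * n3 + 4) (5 * n4 + 4)
  rw [Fn1 (9) (5 * n2 + 4) (by omega), Fn1 (5 * n3 + 4) (5 * n4 + 4) (by omega)] at h
  rw [H2 0 1 2 (4 * n2 + 3) (4 * n3 + 3) (4 * n4 + 3)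
    (5 * n2 + 4) (5 * n3 + 4) (5 * n4 + 4)
    (by omega) (by omega) (by omega) (by omega) (by omega) (by omega)] at h
  rw [H2 3 0 1 (4 * n2 + 11) (4 * n3 + 3) (4 * n4 + 3)
    ((9) + (5 * n2 + 4)) (5 * n3 + 4) (5 * n4 + 4)
    (by omega) (by omega) (by omega) (by omega) (by omega) (by omega)] at h
  rw [H2 2 3 0 (7) (4 * n2 + 4 * n3 + 7) (4 * n4 + 3)
    (9) ((5 * n2 + 4) + (5 * n3 + 4)) (5 * n4 + 4)
    (by omega) (by omega) (by omega) (by omega) (by omega) (by omega)] at h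
  rw [H2 1 2 3 (7) (4 * n2 + 3) (4 * n3 + 4 * n4 + 7)
    (9) (5 * n2 + 4) ((5 * n3 + 4) + (5 * n4 + 4))
    (by omega) (by omega) (by omega) (by omega) (by omega) (by omega)] at h
  rw [H2 0 1 2 (7) (4 * n2 + 3) (4 * n3 + 3)
    (9) (5 * n2 + 4) (5 * n3 + 4)
    (by omega) (by omega) (by omega) (by omega) (by omega) (by omega)] at h
  simpa using h

lemma pointwise (n2 n3 n4 : ℕ) :
    (1 : ℝ) ≤ 0 + T4 (4 * n2 + 5) (4 * n3 + 5) (4 * n4 + 5)
      - T4 (4 * n2 + 5) (4 * n3 + 6) (4 * n4 + 3)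
      - T4 (4 * n2 + 6) (4 * n3 + 3) (4 * n4 + 6)
      + T4 (4 * n2 + 6) (4 * n3 + 5) (4 * n4 + 2)
      + T4 (4 * n2 + 7) (4 * n3 + 2) (4 * n4 + 5)
      - T4 (4 * n2 + 7) (4 * n3 + 3) (4 * n4 + 3)
      - T4 (4 * n2 + 3) (4 * n3 + 6) (4 * n4 + 5)
      + T4 (4 * n2 + 3) (4 * n3 + 7) (4 * n4 + 3)
      + T4 (4 * n2 + 5) (4 * n3 + 2) (4 * n4 + 7)
      - T4 (4 * n2 + 5) (4 * n3 + 5) (4 * n4 + 1)
      - T4 (4 * n2 + 6) (4 * n3 + 1) (4 * n4 + 6)
      + T4 (4 * n2 + 6) (4 * n3 + 3) (4 * n4 + 2)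
      + T4 (4 * n2 + 2) (4 * n3 + 5) (4 * n4 + 6)
      - T4 (4 * n2 + 2) (4 * n3 + 7) (4 * n4 + 2)
      - T4 (4 * n2 + 3) (4 * n3 + 3) (4 * n4 + 7)
      + T4 (4 * n2 + 3) (4 * n3 + 6) (4 * n4 + 1)
      + T4 (4 * n2 + 5) (4 * n3 + 1) (4 * n4 + 5)
      - T4 (4 * n2 + 5) (4 * n3 + 2) (4 * n4 + 3)
      - T4 (4 * n2 + 1) (4 * n3 + 5) (4 * n4 + 5)
      + T4 (4 * n2 + 1) (4 * n3 + 6) (4 * n4 + 3)
      + T4 (4 * n2 + 2) (4 * n3 + 3) (4 * n4 + 6)
      - T4 (4 * n2 + 2) (4 * n3 + 5) (4 * n4 + 2)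
      - T4 (4 * n2 + 3) (4 * n3 + 2) (4 * n4 + 5)
      + T4 (4 * n2 + 3) (4 * n3 + 3) (4 * n4 + 3)
      := by
  have h0 := abs_le.1 (type0 T5 T4 H1 H2 n2 n3 n4)
  have h1 := abs_le.1 (type1 T5 T4 H1 H2 n2 n3 n4)
  have h2 := abs_le.1 (type2 T5 T4 H1 H2 n2 n3 n4)
  have h3 := abs_le.1 (type3 T5 T4 H1 H2 n2 n3 n4)
  have h4 := abs_le.1 (type4 T5 T4 H1 H2 n2 n3 n4)
  have h5 := abs_le.1 (type5 T5 T4 H1 H2 n2 n3 n4)
  have h6 := abs_le.1 (type6 T5 T4 H1 H2 n2 n3 n4)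
  have h7 := abs_le.1 (type7 T5 T4 H1 H2 n2 n3 n4)
  have h8 := abs_le.1 (type8 T5 T4 H1 H2 n2 n3 n4)
  have h9 := abs_le.1 (type9 T5 T4 H1 H2 n2 n3 n4)
  have h10 := abs_le.1 (type10 T5 T4 H1 H2 n2 n3 n4)
  have h11 := abs_le.1 (type11 T5 T4 H1 H2 n2 n3 n4)
  have h12 := abs_le.1 (type12 T5 T4 H1 H2 n2 n3 n4)
  have h13 := abs_le.1 (type13 T5 T4 H1 H2 n2 n3 n4)
  have h14 := abs_le.1 (type14 T5 T4 H1 H2 n2 n3 n4)
  have h15 := abs_le.1 (type15 T5 T4 H1 H2 n2 n3 n4)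
  have h16 := abs_le.1 (type16 T5 T4 H1 H2 n2 n3 n4)
  have h17 := abs_le.1 (type17 T5 T4 H1 H2 n2 n3 n4)
  have h18 := abs_le.1 (type18 T5 T4 H1 H2 n2 n3 n4)
  have h19 := abs_le.1 (type19 T5 T4 H1 H2 n2 n3 n4)
  have h20 := abs_le.1 (type20 T5 T4 H1 H2 n2 n3 n4)
  have h21 := abs_le.1 (type21 T5 T4 H1 H2 n2 n3 n4)
  have h22 := abs_le.1 (type22 T5 T4 H1 H2 n2 n3 n4)
  have h23 := abs_le.1 (type23 T5 T4 H1 H2 n2 n3 n4)
  linarith [h0.1, h0.2, h1.1, h1.2, h2.1, h2.2, h3.1, h3.2, h4.1, h4.2, h5.1, h5.2, h6.1, h6.2, h7.1, h7.2, h8.1, h8.2, h9.1, h9.2, h10.1, h10.2, h11.1, h11.2, h12.1, h12.2, h13.1, h13.2, h14.1, h14.2, h15.1, h15.2, h16.1, h16.2, h17.1, h17.2, h18.1, h18.2, h19.1, h19.2, h20.1, h20.2, h21.1, h21.2, h22.1, h22.2, h23.1, h23.2]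

lemma contra (K : ℝ) (hK : ∀ a b c, |T4 a b c| ≤ K) : False := by
  have key : ∀ N : ℕ, (N : ℝ) * (N * N) ≤ 144 * (N * (N * K)) := by
    intro N
    have h : (N : ℝ) * (N * N) ≤ 0 + Sm T4 N 5 5 5
      - Sm T4 N 5 6 3
      - Sm T4 N 6 3 6
      + Sm T4 N 6 5 2
      + Sm T4 N 7 2 5
      - Sm T4 N 7 3 3
      - Sm T4 N 3 6 5
      + Sm T4 N 3 7 3
      + Sm T4 N 5 2 7
      - Sm T4 N 5 5 1
      - Sm T4 N 6 1 6
      + Sm T4 N 6 3 2
      + Sm T4 N 2 5 6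
      - Sm T4 N 2 7 2
      - Sm T4 N 3 3 7
      + Sm T4 N 3 6 1
      + Sm T4 N 5 1 5
      - Sm T4 N 5 2 3
      - Sm T4 N 1 5 5
      + Sm T4 N 1 6 3
      + Sm T4 N 2 3 6
      - Sm T4 N 2 5 2
      - Sm T4 N 3 2 5
      + Sm T4 N 3 3 3
      := by
      have h0 : ∑ _n2 ∈ range N, ∑ _n3 ∈ range N, ∑ _n4 ∈ range N, (1 : ℝ) ≤ _ :=
        sum_le_sum fun n2 _ => sum_le_sum fun n3 _ => sum_le_sum fun n4 _ =>
          pointwise T5 T4 H1 H2 n2 n3 n4
      simp only [sum_add_distrib, sum_sub_distrib, sum_const, card_range, nsmul_eq_mul,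
        mul_one, mul_zero] at h0
      simp only [Sm]
      exact h0
    have k0 := abs_le.1 (Sm_mod T4 K hK N 5 5 5 (by norm_num) (by norm_num) (by norm_num)
      1 1 1 (by norm_num) (by norm_num) (by norm_num))
    have k1 := abs_le.1 (Sm_mod T4 K hK N 5 6 3 (by norm_num) (by norm_num) (by norm_num)
      1 2 3 (by norm_num) (by norm_num) (by norm_num))
    have k2 := abs_le.1 (Sm_mod T4 K hK N 6 3 6 (by norm_num) (by norm_num) (by norm_num)
      2 3 2 (by norm_num) (by norm_num) (by norm_num))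
    have k3 := abs_le.1 (Sm_mod T4 K hK N 6 5 2 (by norm_num) (by norm_num) (by norm_num)
      2 1 2 (by norm_num) (by norm_num) (by norm_num))
    have k4 := abs_le.1 (Sm_mod T4 K hK N 7 2 5 (by norm_num) (by norm_num) (by norm_num)
      3 2 1 (by norm_num) (by norm_num) (by norm_num))
    have k5 := abs_le.1 (Sm_mod T4 K hK N 7 3 3 (by norm_num) (by norm_num) (by norm_num)
      3 3 3 (by norm_num) (by norm_num) (by norm_num))
    have k6 := abs_le.1 (Sm_mod T4 K hK N 3 6 5 (by norm_num) (by norm_num) (by norm_num)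
      3 2 1 (by norm_num) (by norm_num) (by norm_num))
    have k7 := abs_le.1 (Sm_mod T4 K hK N 3 7 3 (by norm_num) (by norm_num) (by norm_num)
      3 3 3 (by norm_num) (by norm_num) (by norm_num))
    have k8 := abs_le.1 (Sm_mod T4 K hK N 5 2 7 (by norm_num) (by norm_num) (by norm_num)
      1 2 3 (by norm_num) (by norm_num) (by norm_num))
    have k9 := abs_le.1 (Sm_mod T4 K hK N 5 5 1 (by norm_num) (by norm_num) (by norm_num)
      1 1 1 (by norm_num) (by norm_num) (by norm_num))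
    have k10 := abs_le.1 (Sm_mod T4 K hK N 6 1 6 (by norm_num) (by norm_num) (by norm_num)
      2 1 2 (by norm_num) (by norm_num) (by norm_num))
    have k11 := abs_le.1 (Sm_mod T4 K hK N 6 3 2 (by norm_num) (by norm_num) (by norm_num)
      2 3 2 (by norm_num) (by norm_num) (by norm_num))
    have k12 := abs_le.1 (Sm_mod T4 K hK N 2 5 6 (by norm_num) (by norm_num) (by norm_num)
      2 1 2 (by norm_num) (by norm_num) (by norm_num))
    have k13 := abs_le.1 (Sm_mod T4 K hK N 2 7 2 (by norm_num) (by norm_num) (by norm_num)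
      2 3 2 (by norm_num) (by norm_num) (by norm_num))
    have k14 := abs_le.1 (Sm_mod T4 K hK N 3 3 7 (by norm_num) (by norm_num) (by norm_num)
      3 3 3 (by norm_num) (by norm_num) (by norm_num))
    have k15 := abs_le.1 (Sm_mod T4 K hK N 3 6 1 (by norm_num) (by norm_num) (by norm_num)
      3 2 1 (by norm_num) (by norm_num) (by norm_num))
    have k16 := abs_le.1 (Sm_mod T4 K hK N 5 1 5 (by norm_num) (by norm_num) (by norm_num)
      1 1 1 (by norm_num) (by norm_num) (by norm_num))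
    have k17 := abs_le.1 (Sm_mod T4 K hK N 5 2 3 (by norm_num) (by norm_num) (by norm_num)
      1 2 3 (by norm_num) (by norm_num) (by norm_num))
    have k18 := abs_le.1 (Sm_mod T4 K hK N 1 5 5 (by norm_num) (by norm_num) (by norm_num)
      1 1 1 (by norm_num) (by norm_num) (by norm_num))
    have k19 := abs_le.1 (Sm_mod T4 K hK N 1 6 3 (by norm_num) (by norm_num) (by norm_num)
      1 2 3 (by norm_num) (by norm_num) (by norm_num))
    have k20 := abs_le.1 (Sm_mod T4 K hK N 2 3 6 (by norm_num) (by norm_num) (by norm_num)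
      2 3 2 (by norm_num) (by norm_num) (by norm_num))
    have k21 := abs_le.1 (Sm_mod T4 K hK N 2 5 2 (by norm_num) (by norm_num) (by norm_num)
      2 1 2 (by norm_num) (by norm_num) (by norm_num))
    have k22 := abs_le.1 (Sm_mod T4 K hK N 3 2 5 (by norm_num) (by norm_num) (by norm_num)
      3 2 1 (by norm_num) (by norm_num) (by norm_num))
    have k23 := abs_le.1 (Sm_mod T4 K hK N 3 3 3 (by norm_num) (by norm_num) (by norm_num)
      3 3 3 (by norm_num) (by norm_num) (by norm_num))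
    linarith [k0.1, k0.2, k1.1, k1.2, k2.1, k2.2, k3.1, k3.2, k4.1, k4.2, k5.1, k5.2, k6.1, k6.2, k7.1, k7.2, k8.1, k8.2, k9.1, k9.2, k10.1, k10.2, k11.1, k11.2, k12.1, k12.2, k13.1, k13.2, k14.1, k14.2, k15.1, k15.2, k16.1, k16.2, k17.1, k17.2, k18.1, k18.2, k19.1, k19.2, k20.1, k20.2, k21.1, k21.2, k22.1, k22.2, k23.1, k23.2]
  obtain ⟨N, hN⟩ := exists_nat_gt (144 * K)
  have hK0 : 0 ≤ K := (abs_nonneg _).trans (hK 0 0 0)
  have hN0 : (0 : ℝ) < N := by linarith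
  have h1 := key N
  have h2 : (N : ℝ) * N * (144 * K) < N * N * N := by
    apply mul_lt_mul_of_pos_left hN
    positivity
  nlinarith

end

end Pool.Agent.P.MP_2ca0d6_al.Cup
end

-- part Pool.Agent.P.MP_2ca0d6_al.CupE
section

/-!
No bounded cochain on positive words has coboundary within `1/24` of the cup square.
-/

set_option autoImplicit false
set_option linter.dupNamespace false

namespace Pool.Agent.P.MP_2ca0d6_al.Cup

open Classical Filter Topology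

lemma exists_lim {X : Type} (B : X → ℝ) (K : ℝ) (hK : ∀ x, |B x| ≤ K) (V : Ultrafilter X) :
    ∃ t, |t| ≤ K ∧ Tendsto B V (𝓝 t) := by
  obtain ⟨t, ht, h⟩ := (isCompact_Icc (a := -K) (b := K)).ultrafilter_le_nhds
    (Ultrafilter.map B V) (by
      rw [Ultrafilter.coe_map, le_principal_iff, mem_map]
      exact Eventually.of_forall fun x => abs_le.1 (hK x))
  exact ⟨t, abs_le.2 ht, h⟩

lemma tendsto_face {X Y : Type} (B : Y → ℝ) (V : Ultrafilter X) (g : X → Y) (t : ℝ)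
    (h : Tendsto B ((V >>= fun w => pure (g w) : Ultrafilter Y) : Filter Y) (𝓝 t)) :
    Tendsto (fun w => B (g w)) V (𝓝 t) := fun _ hs => h hs

theorem no_primitive (B : Wd × Wd × Wd → ℝ) (K : ℝ) (hK : ∀ x, |B x| ≤ K)
    (hB : ∀ x y z w : Wd, |F x y * F z w -
      (B (y, z, w) - B (x ++ y, z, w) + B (x, y ++ z, w) - B (x, y, z ++ w) + B (x, y, z))|
        ≤ 1 / 24) : False := by
  choose L hLK hL using exists_lim B K hK
  refine contra (fun a b c => L (law3 sp5 ini5 a b c)) (fun a b c => L (law3 sp4 ini4 a b c))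
    ?_ ?_ K (fun a b c => hLK _)
  · intro a b c d
    have t0 := hL (law3 sp5 ini5 b c d)
    have t1 := hL (law3 sp5 ini5 (a + b) c d)
    have t2 := hL (law3 sp5 ini5 a (b + c) d)
    have t3 := hL (law3 sp5 ini5 a b (c + d))
    have t4 := hL (law3 sp5 ini5 a b c)
    nth_rewrite 1 [← face0 sp5 ini5 stat5 a b c d] at t0
    nth_rewrite 1 [← face1 sp5 ini5 a b c d] at t1
    nth_rewrite 1 [← face2 sp5 ini5 a b c d] at t2
    nth_rewrite 1 [← face3 sp5 ini5 a b c d] at t3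
    nth_rewrite 1 [← face4 sp5 ini5 a b c d] at t4
    have s0 := tendsto_face _ _ _ _ t0
    have s1 := tendsto_face _ _ _ _ t1
    have s2 := tendsto_face _ _ _ _ t2
    have s3 := tendsto_face _ _ _ _ t3
    have s4 := tendsto_face _ _ _ _ t4
    have s := ((tendsto_const_nhds (x := Fn a b * Fn c d)).sub
      ((((s0.sub s1).add s2).sub s3).add s4)).abs
    refine le_of_tendsto s ?_
    filter_upwards [FF_law4 a b c d] with w hw
    rw [← hw]
    exact hB _ _ _ _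
  · intro i i1 i2 a b c A B C hi h1 h2 hA hB hC
    have := law3_merge i hi a b c
    simp only [fine, nxt, h1, h2, ← hA, ← hB, ← hC] at this
    simp only [this]

end Pool.Agent.P.MP_2ca0d6_al.Cup
end
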