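import Pool.Agent.K.MP_2ca0d6_al.C0

-- part Pool.Agent.P.MP_2ca0d6_al.PosA
section

set_option autoImplicit false
set_option linter.dupNamespace false

namespace Pool.Agent.P.MP_2ca0d6_al.Pos

open Finset Pool.Agent.P.MP_2ca0d6_al

open Classical in
/-- extension by zero of the restriction of a cochain to tuples in `A` -/
noncomputable def res {X : Type} {k : ℕ} (A : X → Prop) (c : (Fin k → X) → ℝ) :
    (Fin k → X) → ℝ :=
  fun t => if ∀ i, A (t i) then c t else 0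

open Classical in
lemma d_res {X : Type} {k : ℕ} (A : X → Prop) (c : (Fin k → X) → ℝ) (hc : d k c = 0)
    (t : Fin (k + 1) → X) :
    d k (res A c) t = ∑ j : Fin (k + 1),
      if ¬ A (t j) ∧ ∀ i, A (t (j.succAbove i)) then
        (-1 : ℝ) ^ (j : ℕ) * c (t ∘ j.succAbove) else 0 := by
  by_cases hall : ∀ j, A (t j)
  · have h1 : d k (res A c) t = d k c t := by
      rw [d_apply, d_apply]
      refine sum_congr rfl fun j _ => ?_
      unfold res
      rw [if_pos (show ∀ i, A ((t ∘ j.succAbove) i) from fun i => hall _)]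
    rw [h1, hc]
    refine (sum_eq_zero fun j _ => ?_).symm
    rw [if_neg fun h => h.1 (hall j)]
  · rw [d_apply]
    refine sum_congr rfl fun j _ => ?_
    unfold res
    by_cases h : ∀ i, A (t (j.succAbove i))
    · have hj : ¬ A (t j) := fun hj => hall fun l => Fin.succAboveCases j hj h l
      rw [if_pos (show ∀ i, A ((t ∘ j.succAbove) i) from h), if_pos ⟨hj, h⟩]
    · rw [if_neg (show ¬ ∀ i, A ((t ∘ j.succAbove) i) from h), if_neg fun h' => h h'.2, mul_zero]

lemma d_comp {X Y : Type} {k : ℕ} (φ : X → Y) (c : (Fin k → Y) → ℝ) (t : Fin (k + 1) → X) :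
    d k (fun z => c (φ ∘ z)) t = d k c (φ ∘ t) := rfl

lemma d_comp_zero {X Y : Type} {k : ℕ} (φ : X → Y) (c : (Fin k → Y) → ℝ) (hc : d k c = 0) :
    d k (fun z => c (φ ∘ z)) = 0 := by
  funext t
  rw [d_comp, hc]; rfl

/-- all entries of the tuple lie in `[a, b]` -/
def In (a b : ℕ) {k : ℕ} (t : Fin k → ℕ) : Prop := ∀ i, a ≤ t i ∧ t i ≤ b

instance (a b : ℕ) {k : ℕ} (t : Fin k → ℕ) : Decidable (In a b t) := by
  unfold In; infer_instance

/-- the finite combinatorial problem: cocycles on intervals with bounded overlap whose approximate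
primitives have large `ℓ²` overlap -/
structure Ex (k : ℕ) (C K : ℝ) {T : Type} (s : Finset T) (a b : T → ℕ)
    (c : T → (Fin (k + 1) → ℕ) → ℝ) : Prop where
  le : ∀ ι ∈ s, a ι ≤ b ι
  cocy : ∀ ι, d (k + 1) (c ι) = 0
  ovl : ∀ t, ∑ ι ∈ s, (if In (a ι) (b ι) t then |c ι t| else 0) ≤ C
  low : ∀ (u : T → (Fin k → ℕ) → ℝ) (e : T → (Fin (k + 1) → ℕ) → ℝ),
    (∀ ι ∈ s, ∀ t, In (a ι) (b ι) t → d k (u ι) t + e ι t = c ι t) →
    (∀ t, ∑ ι ∈ s, (if In (a ι) (b ι) t then e ι t ^ 2 else 0) ≤ 1 / 4) →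
    ∃ t, K < ∑ ι ∈ s, (if In (a ι) (b ι) t then u ι t ^ 2 else 0)

lemma ex_zero (K : ℝ) : ∃ M : ℕ, Ex 0 1 K (range M) id id fun _ _ => 1 := by
  obtain ⟨M, hM⟩ := exists_nat_gt (4 * K)
  refine ⟨M, fun _ _ => le_rfl, fun ι => ?_, fun t => ?_, fun u e h1 h2 => ?_⟩
  · funext t
    simp [d_apply, Fin.sum_univ_succ]
  · have : ∀ ι ∈ range M, (if In (id ι) (id ι) t then |(1 : ℝ)| else 0) ≤
        if t 0 = ι then 1 else 0 := by
      intro ι _
      split_ifs with h h'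
      · simp
      · exact absurd (le_antisymm (h 0).2 (h 0).1) h'
      · exact zero_le_one
      · exact le_rfl
    refine (sum_le_sum this).trans ?_
    rw [sum_ite_eq]
    split_ifs <;> norm_num
  · refine ⟨Fin.elim0, ?_⟩
    have : ∀ ι ∈ range M, (1 / 4 : ℝ) ≤
        if In (id ι) (id ι) (Fin.elim0 : Fin 0 → ℕ) then u ι Fin.elim0 ^ 2 else 0 := by
      intro ι hι
      rw [if_pos (show In (id ι) (id ι) (Fin.elim0 : Fin 0 → ℕ) from fun i => i.elim0)]
      have hin : In (id ι) (id ι) (fun _ : Fin (0 + 1) => ι) := fun _ => ⟨le_rfl, le_rfl⟩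
      have e1 := h1 ι hι _ hin
      have e2 : d 0 (u ι) (fun _ => ι) = u ι Fin.elim0 := by
        simp only [d_apply, Fin.sum_univ_succ, Fin.sum_univ_zero, Fin.val_zero, pow_zero, one_mul,
          add_zero]
        exact congrArg _ (Subsingleton.elim _ _)
      have e3 : e ι (fun _ => ι) ^ 2 ≤ 1 / 4 := by
        refine le_trans ?_ (h2 fun _ => ι)
        refine le_trans (le_of_eq ?_) (single_le_sum (f := fun κ =>
          if In (id κ) (id κ) (fun _ : Fin (0 + 1) => ι) then e κ (fun _ => ι) ^ 2 else 0)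
          (fun κ _ => by split_ifs <;> positivity) hι)
        rw [if_pos hin]
      rw [e2] at e1
      nlinarith [sq_nonneg (e ι (fun _ => ι) - 1 / 2)]
    have h3 := sum_le_sum this
    rw [sum_const, card_range, nsmul_eq_mul] at h3
    linarith

lemma Ex.reindex {k : ℕ} {C K : ℝ} {T T' : Type} [DecidableEq T'] {s : Finset T} {a b : T → ℕ}
    {c : T → (Fin (k + 1) → ℕ) → ℝ} (h : Ex k C K s a b c) (φ : T → T') (ψ : T' → T)
    (hφ : ∀ x, ψ (φ x) = x) : Ex k C K (s.image φ) (a ∘ ψ) (b ∘ ψ) (c ∘ ψ) := by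
  have hinj : Set.InjOn φ s := fun x _ y _ hxy => by rw [← hφ x, hxy, hφ]
  refine ⟨fun ι hι => ?_, fun ι => h.cocy _, fun t => ?_, fun u e h1 h2 => ?_⟩
  · obtain ⟨x, hx, rfl⟩ := mem_image.1 hι
    simpa [hφ] using h.le x hx
  · rw [sum_image hinj]
    simpa [hφ] using h.ovl t
  · obtain ⟨t, ht⟩ := h.low (u ∘ φ) (e ∘ φ) (fun ι hι t ht => by
      have := h1 (φ ι) (mem_image_of_mem φ hι) t (by simpa [hφ] using ht)
      simpa [hφ] using this) (fun t => by
      have := h2 t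
      rw [sum_image hinj] at this
      simpa [hφ] using this)
    refine ⟨t, ?_⟩
    rw [sum_image hinj]
    simpa [hφ] using ht

/-! ### binary digits -/

lemma div_pow_mono {y y' m m' : ℕ} (h : y / 2 ^ m = y' / 2 ^ m) (hm : m ≤ m') :
    y / 2 ^ m' = y' / 2 ^ m' := by
  obtain ⟨r, rfl⟩ := Nat.exists_eq_add_of_le hm
  rw [pow_add, ← Nat.div_div_eq_div_mul, ← Nat.div_div_eq_div_mul, h]

/-- the join level of two leaves of the binary tree -/
noncomputable def E (y y' : ℕ) : ℕ := sInf {m | y / 2 ^ m = y' / 2 ^ m}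

lemma E_le_iff (y y' m : ℕ) : E y y' ≤ m ↔ y / 2 ^ m = y' / 2 ^ m := by
  constructor
  · intro h
    have hne : {m | y / 2 ^ m = y' / 2 ^ m}.Nonempty := by
      refine ⟨y + y', ?_⟩
      have h1 : y + y' < 2 ^ (y + y') := Nat.lt_two_pow_self
      show y / 2 ^ (y + y') = y' / 2 ^ (y + y')
      rw [Nat.div_eq_of_lt (by omega), Nat.div_eq_of_lt (by omega)]
    exact div_pow_mono (Nat.sInf_mem hne) h
  · intro h
    exact Nat.sInf_le h

lemma E_comm (y y' : ℕ) : E y y' = E y' y := by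
  unfold E
  congr 1
  ext m
  exact eq_comm

lemma E_congr {x x' y a : ℕ} (h : x / 2 ^ a = x' / 2 ^ a) (hy : y / 2 ^ a ≠ x / 2 ^ a) :
    E x y = E x' y := by
  have key : ∀ m, E x y ≤ m ↔ E x' y ≤ m := by
    intro m
    rw [E_le_iff, E_le_iff]
    rcases le_total a m with hm | hm
    · rw [div_pow_mono h hm]
    · constructor
      · intro h1; exact absurd (div_pow_mono h1 hm).symm hy
      · intro h1; exact absurd ((div_pow_mono h1 hm).symm.trans h.symm) hy
  exact le_antisymm ((key _).2 le_rfl) ((key _).1 le_rfl)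

/-- a leaf whose join level with `y` is `i + 2` -/
def fl (y i : ℕ) : ℕ :=
  (if y / 2 ^ (i + 1) % 2 = 0 then y / 2 ^ (i + 1) + 1 else y / 2 ^ (i + 1) - 1) * 2 ^ (i + 1)

lemma E_fl (y i : ℕ) : E (fl y i) y = i + 2 := by
  have h1 : fl y i / 2 ^ (i + 1) =
      if y / 2 ^ (i + 1) % 2 = 0 then y / 2 ^ (i + 1) + 1 else y / 2 ^ (i + 1) - 1 :=
    Nat.mul_div_cancel _ (by positivity)
  have h2 : E (fl y i) y ≤ i + 2 := by
    rw [E_le_iff, pow_succ 2 (i + 1), ← Nat.div_div_eq_div_mul, ← Nat.div_div_eq_div_mul, h1]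
    generalize y / 2 ^ (i + 1) = q
    split_ifs <;> omega
  have h3 : ¬ E (fl y i) y ≤ i + 1 := by
    rw [E_le_iff, h1]
    generalize y / 2 ^ (i + 1) = q
    split_ifs <;> omega
  omega

lemma fl_congr {y y' a i : ℕ} (h : y / 2 ^ (a + 1) = y' / 2 ^ (a + 1)) (hi : a ≤ i) :
    fl y i = fl y' i := by
  unfold fl
  rw [div_pow_mono h (by omega : a + 1 ≤ i + 1)]

lemma kill (a S : ℕ) (hS : a + 1 ≤ S) (G : ℕ → ℝ)
    (hG : ∀ y y', y / 2 ^ (a + 1) = y' / 2 ^ (a + 1) → G y = G y') :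
    ∑ y ∈ range (2 ^ S), (-1 : ℝ) ^ (y / 2 ^ a) * G y = 0 := by
  obtain ⟨r, rfl⟩ := Nat.exists_eq_add_of_le hS
  rw [pow_add, mul_comm]
  generalize 2 ^ r = m
  induction m with
  | zero => simp
  | succ m ih =>
    rw [add_mul, one_mul, sum_range_add, ih, zero_add]
    have hp : 0 < 2 ^ a := by positivity
    have h2 : 2 ^ (a + 1) = 2 ^ a + 2 ^ a := by ring
    have hG' : ∀ x ∈ range (2 ^ (a + 1)), G (m * 2 ^ (a + 1) + x) = G (m * 2 ^ (a + 1)) := by
      intro x hx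
      apply hG
      rw [Nat.mul_div_cancel _ (by positivity), add_comm, Nat.add_mul_div_right _ _ (by positivity),
        Nat.div_eq_of_lt (mem_range.1 hx), zero_add]
    rw [sum_congr rfl fun x hx => by rw [hG' x hx], ← sum_mul]
    have h3 : ∀ x, (m * 2 ^ (a + 1) + x) / 2 ^ a = 2 * m + x / 2 ^ a := by
      intro x
      rw [show m * 2 ^ (a + 1) + x = x + (2 * m) * 2 ^ a by ring, Nat.add_mul_div_right _ _ hp,
        add_comm]
    simp only [h3]
    rw [h2, sum_range_add]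
    have e1 : ∀ x ∈ range (2 ^ a), (-1 : ℝ) ^ (2 * m + x / 2 ^ a) = 1 := by
      intro x hx
      rw [Nat.div_eq_of_lt (mem_range.1 hx)]
      simp
    have e2 : ∀ x ∈ range (2 ^ a), (-1 : ℝ) ^ (2 * m + (2 ^ a + x) / 2 ^ a) = -1 := by
      intro x hx
      rw [Nat.add_div_left _ hp, Nat.div_eq_of_lt (mem_range.1 hx)]
      simp [pow_succ]
    rw [sum_congr rfl e1, sum_congr rfl e2]
    simp

lemma in_node (j m y : ℕ) : (j * 2 ^ m ≤ y ∧ y ≤ j * 2 ^ m + (2 ^ m - 1)) ↔ y / 2 ^ m = j := by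
  have hp : 0 < 2 ^ m := by positivity
  rw [Nat.div_eq_iff hp]
  omega

end Pool.Agent.P.MP_2ca0d6_al.Pos
end

-- part Pool.Agent.P.MP_2ca0d6_al.PosB
section

set_option autoImplicit false
set_option linter.dupNamespace false

namespace Pool.Agent.P.MP_2ca0d6_al.Pos

open Finset Pool.Agent.P.MP_2ca0d6_al

open Classical in
/-- the stepping-up of a cochain along the binary tree -/
noncomputable def up {k : ℕ} (a : ℕ) (c : (Fin (k + 1) → ℕ) → ℝ) (t : Fin (k + 2) → ℕ) : ℝ :=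
  ∑ j : Fin (k + 2), if ∀ i, t (j.succAbove i) / 2 ^ a ≠ t j / 2 ^ a then
    (-1 : ℝ) ^ (t j / 2 ^ a) *
      ((-1 : ℝ) ^ (j : ℕ) * c fun i => max a (E (t j) (t (j.succAbove i)) - 2)) else 0

lemma up_eq {k : ℕ} (a : ℕ) (c : (Fin (k + 1) → ℕ) → ℝ) (hc : d (k + 1) c = 0) (Q : ℕ)
    (t : Fin (k + 2) → ℕ) (ht : ∀ j, t j < Q) :
    up a c t = (∑ q ∈ range Q, (-1 : ℝ) ^ q • d (k + 1) (res (fun y => y / 2 ^ a ≠ q)
      (fun z => c ((fun y => max a (E (q * 2 ^ a) y - 2)) ∘ z)))) t := by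
  classical
  rw [Finset.sum_apply]
  simp only [Pi.smul_apply, smul_eq_mul]
  rw [sum_congr rfl fun q _ => by rw [d_res _ _ (d_comp_zero _ c hc), mul_sum], sum_comm]
  unfold up
  refine sum_congr rfl fun j _ => ?_
  have hq : t j / 2 ^ a ∈ range Q := mem_range.2 (lt_of_le_of_lt (Nat.div_le_self _ _) (ht j))
  rw [sum_eq_single_of_mem _ hq]
  · by_cases h : ∀ i, t (j.succAbove i) / 2 ^ a ≠ t j / 2 ^ a
    · rw [if_pos h, if_pos ⟨by simp, h⟩]
      congr 3
      funext i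
      simp only [Function.comp]
      rw [E_congr (x := t j) (x' := t j / 2 ^ a * 2 ^ a)
        (by rw [Nat.mul_div_cancel _ (by positivity)]) (h i)]
    · rw [if_neg h, if_neg fun h' => h h'.2, mul_zero]
  · intro q _ hne
    rw [if_neg fun h' => h'.1 (Ne.symm hne), mul_zero]

lemma up_cocy {k : ℕ} (a : ℕ) (c : (Fin (k + 1) → ℕ) → ℝ) (hc : d (k + 1) c = 0) :
    d (k + 2) (up a c) = 0 := by
  funext t
  obtain ⟨Q, hQ⟩ : ∃ Q, ∀ j, t j < Q :=
    ⟨univ.sup t + 1, fun j => Nat.lt_succ_of_le (le_sup (f := t) (mem_univ j))⟩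
  have h1 : d (k + 2) (up a c) t = d (k + 2) (∑ q ∈ range Q, (-1 : ℝ) ^ q • d (k + 1)
      (res (fun y => y / 2 ^ a ≠ q)
      (fun z => c ((fun y => max a (E (q * 2 ^ a) y - 2)) ∘ z)))) t := by
    rw [d_apply, d_apply]
    refine sum_congr rfl fun j _ => ?_
    rw [up_eq a c hc Q (t ∘ j.succAbove) fun i => hQ _]
  rw [h1, map_sum]
  simp only [map_smul, d_d, smul_zero, sum_const_zero]

lemma up_ovl {k : ℕ} {C K : ℝ} {T : Type} {s : Finset T} {a b : T → ℕ}
    {c : T → (Fin (k + 1) → ℕ) → ℝ} (h : Ex k C K s a b c) (t : Fin (k + 2) → ℕ) :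
    ∑ ι ∈ s, (if ∀ j, t j / 2 ^ (b ι + 2) = t 0 / 2 ^ (b ι + 2) then |up (a ι) (c ι) t| else 0)
      ≤ 2 * (k + 2) * C := by
  classical
  let τ : Fin (k + 2) → Fin (k + 1) → ℕ := fun j i => E (t j) (t (j.succAbove i)) - 2
  let m : Fin (k + 2) → ℕ := fun j =>
    univ.inf' univ_nonempty fun i : Fin (k + 1) => E (t j) (t (j.succAbove i))
  let τ' : Fin (k + 2) → Fin (k + 1) → ℕ := fun j i => max (m j - 1) (τ j i)
  have key : ∀ ι ∈ s,
      (if ∀ j, t j / 2 ^ (b ι + 2) = t 0 / 2 ^ (b ι + 2) then |up (a ι) (c ι) t| else 0) ≤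
      ∑ j : Fin (k + 2), ((if In (a ι) (b ι) (τ j) then |c ι (τ j)| else 0) +
        (if In (a ι) (b ι) (τ' j) then |c ι (τ' j)| else 0)) := by
    intro ι hι
    have hnn : ∀ j, 0 ≤ (if In (a ι) (b ι) (τ j) then |c ι (τ j)| else 0) ∧
        0 ≤ (if In (a ι) (b ι) (τ' j) then |c ι (τ' j)| else 0) := fun j =>
      ⟨by split_ifs <;> positivity, by split_ifs <;> positivity⟩
    by_cases hb : ∀ j, t j / 2 ^ (b ι + 2) = t 0 / 2 ^ (b ι + 2)
    swap
    · rw [if_neg hb]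
      exact sum_nonneg fun j _ => add_nonneg (hnn j).1 (hnn j).2
    rw [if_pos hb]
    refine (abs_sum_le_sum_abs _ _).trans (sum_le_sum fun j _ => ?_)
    by_cases hj : ∀ i, t (j.succAbove i) / 2 ^ a ι ≠ t j / 2 ^ a ι
    swap
    · rw [if_neg hj, abs_zero]
      exact add_nonneg (hnn j).1 (hnn j).2
    rw [if_pos hj, abs_mul, abs_mul, abs_pow, abs_pow, abs_neg, abs_one, one_pow, one_pow, one_mul,
      one_mul]
    have hup : ∀ i, E (t j) (t (j.succAbove i)) ≤ b ι + 2 := fun i =>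
      (E_le_iff _ _ _).2 ((hb _).trans (hb _).symm)
    have hlo : ∀ i, a ι < E (t j) (t (j.succAbove i)) := fun i =>
      lt_of_not_ge fun h' => hj i ((E_le_iff _ _ _).1 h').symm
    have hm : ∀ i, m j ≤ E (t j) (t (j.succAbove i)) := fun i =>
      inf'_le (fun i : Fin (k + 1) => E (t j) (t (j.succAbove i))) (mem_univ i)
    have hm' : a ι < m j := (lt_inf'_iff _).2 fun i _ => hlo i
    have hab := h.le ι hι
    rcases Nat.lt_or_ge (a ι + 1) (m j) with h1 | h1
    · have e : (fun i => max (a ι) (E (t j) (t (j.succAbove i)) - 2)) = τ j := by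
        funext i
        have := hm i
        exact max_eq_right (by omega)
      have hin : In (a ι) (b ι) (τ j) := fun i => by
        have := hm i
        have := hup i
        simp only [τ]
        omega
      rw [e, if_pos hin]
      exact le_add_of_nonneg_right (hnn j).2
    · have e : (fun i => max (a ι) (E (t j) (t (j.succAbove i)) - 2)) = τ' j := by
        funext i
        simp only [τ', τ]
        congr 1
        omega
      have hin : In (a ι) (b ι) (τ' j) := fun i => by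
        have := hup i
        simp only [τ', τ]
        omega
      rw [e, if_pos hin]
      exact le_add_of_nonneg_left (hnn j).1
  refine (sum_le_sum key).trans ?_
  rw [sum_comm]
  refine (sum_le_card_nsmul _ _ (C + C) fun j _ => ?_).trans (le_of_eq ?_)
  · rw [sum_add_distrib]
    exact add_le_add (h.ovl _) (h.ovl _)
  · simp
    ring

/-- the test tuples -/
def tup {k : ℕ} (y : ℕ) (i : Fin k → ℕ) : Fin (k + 1) → ℕ := Fin.cons y (fl y ∘ i)

lemma E_tup {k : ℕ} (y : ℕ) (i : Fin k → ℕ) (l : Fin k) : E (tup y i l.succ) y = i l + 2 := by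
  simp [tup, E_fl]

lemma up_avg {k : ℕ} (a S : ℕ) (hS : a + 1 ≤ S) (c : (Fin (k + 1) → ℕ) → ℝ)
    (i : Fin (k + 1) → ℕ) (hi : ∀ l, a ≤ i l) :
    ∑ y ∈ range (2 ^ S), (-1 : ℝ) ^ (y / 2 ^ a) * up a c (tup y i) = 2 ^ S * c i := by
  classical
  unfold up
  simp only [Fin.sum_univ_succ (n := k + 1), mul_add, sum_add_distrib]
  have h0 : ∀ y ∈ range (2 ^ S), (-1 : ℝ) ^ (y / 2 ^ a) *
      (if ∀ l, tup y i ((0 : Fin (k + 2)).succAbove l) / 2 ^ a ≠ tup y i 0 / 2 ^ a then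
      (-1 : ℝ) ^ (tup y i 0 / 2 ^ a) * ((-1 : ℝ) ^ ((0 : Fin (k + 2)) : ℕ) *
        c fun l => max a (E (tup y i 0) (tup y i ((0 : Fin (k + 2)).succAbove l)) - 2)) else 0)
      = c i := by
    intro y _
    have e0 : tup y i 0 = y := rfl
    simp only [Fin.succAbove_zero, e0]
    rw [if_pos fun l hl => by
      have h1 := (E_le_iff _ _ _).2 hl
      have h2 := E_tup y i l
      have := hi l
      omega]
    have e : (fun l => max a (E y (tup y i l.succ) - 2)) = i := by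
      funext l
      rw [E_comm, E_tup]
      have := hi l
      omega
    rw [e, ← mul_assoc, ← mul_pow]
    simp
  rw [sum_congr rfl h0, kill a S hS]
  · simp
  · intro y y' hy
    refine sum_congr rfl fun j _ => ?_
    have e1 : ∀ l : Fin (k + 1), tup y i l.succ = tup y' i l.succ := fun l => fl_congr hy (hi l)
    have e2 : ∀ l, E (tup y i j.succ) (tup y i (j.succ.succAbove l)) =
        E (tup y' i j.succ) (tup y' i (j.succ.succAbove l)) := by
      intro l
      generalize j.succ.succAbove l = p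
      refine Fin.cases ?_ (fun p => ?_) p
      · exact (E_tup y i j).trans (E_tup y' i j).symm
      · rw [e1, e1]
    have e3 : (∀ l, tup y i (j.succ.succAbove l) / 2 ^ a ≠ tup y i j.succ / 2 ^ a) ↔
        ∀ l, tup y' i (j.succ.succAbove l) / 2 ^ a ≠ tup y' i j.succ / 2 ^ a := by
      refine forall_congr' fun l => not_congr ?_
      rw [← E_le_iff, ← E_le_iff, E_comm, e2, E_comm]
    simp only [e2, e3]
    rw [e1]

lemma jensen (n : ℕ) (hn : 0 < n) (ε f : ℕ → ℝ) (hε : ∀ y, ε y ^ 2 = 1) :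
    ((n : ℝ)⁻¹ * ∑ y ∈ range n, ε y * f y) ^ 2 ≤ (n : ℝ)⁻¹ * ∑ y ∈ range n, f y ^ 2 := by
  have h := sq_sum_le_card_mul_sum_sq (s := range n) (f := fun y => ε y * f y)
  simp only [mul_pow, hε, one_mul, card_range] at h
  have hn' : (0 : ℝ) < n := by exact_mod_cast hn
  rw [mul_pow]
  calc (n : ℝ)⁻¹ ^ 2 * (∑ y ∈ range n, ε y * f y) ^ 2
      ≤ (n : ℝ)⁻¹ ^ 2 * (n * ∑ y ∈ range n, f y ^ 2) := by gcongr
    _ = _ := by field_simp

theorem Ex.step {k : ℕ} {C K : ℝ} {T : Type} {s : Finset T} {a b : T → ℕ}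
    {c : T → (Fin (k + 1) → ℕ) → ℝ} (h : Ex k C K s a b c) (S : ℕ) (hS : ∀ ι ∈ s, b ι + 2 ≤ S) :
    Ex (k + 1) (2 * (k + 2) * C) K (range (2 ^ S) ×ˢ s) (fun p => p.1 * 2 ^ (b p.2 + 2))
      (fun p => p.1 * 2 ^ (b p.2 + 2) + (2 ^ (b p.2 + 2) - 1)) fun p => up (a p.2) (c p.2) := by
  classical
  have hp : 0 < 2 ^ S := by positivity
  have hp' : (0 : ℝ) < ((2 ^ S : ℕ) : ℝ) := by exact_mod_cast hp
  refine ⟨fun p _ => Nat.le_add_right _ _, fun p => up_cocy _ _ (h.cocy _), fun t => ?_,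
    fun u e h1 h2 => ?_⟩
  · refine le_trans ?_ (up_ovl h t)
    rw [sum_product_right]
    refine sum_le_sum fun ι _ => ?_
    have key : ∀ j ∈ range (2 ^ S), (if In (j * 2 ^ (b ι + 2))
        (j * 2 ^ (b ι + 2) + (2 ^ (b ι + 2) - 1)) t then |up (a ι) (c ι) t| else 0) ≤
        if t 0 / 2 ^ (b ι + 2) = j then (if ∀ l, t l / 2 ^ (b ι + 2) = t 0 / 2 ^ (b ι + 2) then
          |up (a ι) (c ι) t| else 0) else 0 := by
      intro j _
      by_cases hin : In (j * 2 ^ (b ι + 2)) (j * 2 ^ (b ι + 2) + (2 ^ (b ι + 2) - 1)) t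
      · have := fun l => (in_node _ _ _).1 (hin l)
        rw [if_pos hin, if_pos (this 0), if_pos fun l => (this l).trans (this 0).symm]
      · rw [if_neg hin]
        split_ifs <;> positivity
    refine (sum_le_sum key).trans ?_
    rw [sum_ite_eq]
    split_ifs <;> first | positivity | exact le_rfl
  · have hin : ∀ {m : ℕ} (ι : T) (y : ℕ) (i : Fin m → ℕ), In (a ι) (b ι) i →
        In (y / 2 ^ (b ι + 2) * 2 ^ (b ι + 2))
          (y / 2 ^ (b ι + 2) * 2 ^ (b ι + 2) + (2 ^ (b ι + 2) - 1)) (tup y i) := by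
      intro m ι y i hi l
      rw [in_node]
      refine Fin.cases rfl (fun l => ?_) l
      rw [← E_le_iff, E_tup]
      have := (hi l).2
      omega
    have hmem : ∀ ι ∈ s, ∀ y ∈ range (2 ^ S), (y / 2 ^ (b ι + 2), ι) ∈ range (2 ^ S) ×ˢ s :=
      fun ι hι y hy => mem_product.2
        ⟨mem_range.2 (lt_of_le_of_lt (Nat.div_le_self _ _) (mem_range.1 hy)), hι⟩
    have hsq : ∀ {m : ℕ} (f : ℕ × T → (Fin (m + 1) → ℕ) → ℝ) (i : Fin m → ℕ),
        ∑ ι ∈ s, (if In (a ι) (b ι) i then (((2 ^ S : ℕ) : ℝ)⁻¹ * ∑ y ∈ range (2 ^ S),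
          (-1 : ℝ) ^ (y / 2 ^ a ι) * f (y / 2 ^ (b ι + 2), ι) (tup y i)) ^ 2 else 0) ≤
        ((2 ^ S : ℕ) : ℝ)⁻¹ * ∑ y ∈ range (2 ^ S), ∑ p ∈ range (2 ^ S) ×ˢ s,
          if In (p.1 * 2 ^ (b p.2 + 2)) (p.1 * 2 ^ (b p.2 + 2) + (2 ^ (b p.2 + 2) - 1)) (tup y i)
          then f p (tup y i) ^ 2 else 0 := by
      intro m f i
      simp only [sum_product_right]
      rw [sum_comm, mul_sum]
      refine sum_le_sum fun ι hι => ?_
      by_cases hi : In (a ι) (b ι) i
      · rw [if_pos hi]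
        refine (jensen _ hp _ _ fun y => by rw [← pow_mul, mul_comm, pow_mul]; simp).trans ?_
        refine mul_le_mul_of_nonneg_left (sum_le_sum fun y hy => ?_) (by positivity)
        refine le_trans (le_of_eq ?_) (single_le_sum (f := fun j =>
          if In (j * 2 ^ (b ι + 2)) (j * 2 ^ (b ι + 2) + (2 ^ (b ι + 2) - 1)) (tup y i)
          then f (j, ι) (tup y i) ^ 2 else 0) (fun j _ => by split_ifs <;> positivity)
          (mem_product.1 (hmem ι hι y hy)).1)
        rw [if_pos (hin ι y i hi)]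
      · rw [if_neg hi]
        refine mul_nonneg (by positivity) (sum_nonneg fun y _ => sum_nonneg fun j _ => ?_)
        split_ifs <;> positivity
    obtain ⟨i, hi⟩ := h.low
      (fun ι i => - (((2 ^ S : ℕ) : ℝ)⁻¹ * ∑ y ∈ range (2 ^ S),
          (-1 : ℝ) ^ (y / 2 ^ a ι) * u (y / 2 ^ (b ι + 2), ι) (tup y i)))
      (fun ι i => ((2 ^ S : ℕ) : ℝ)⁻¹ * ∑ y ∈ range (2 ^ S),
          (-1 : ℝ) ^ (y / 2 ^ a ι) * e (y / 2 ^ (b ι + 2), ι) (tup y i))
      (fun ι hι i hi => by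
        have hab := h.le ι hι
        have hS' := hS ι hι
        have e1 := up_avg (a ι) S (by omega) (c ι) i fun l => (hi l).1
        have e2 : ∀ y ∈ range (2 ^ S), (-1 : ℝ) ^ (y / 2 ^ a ι) * up (a ι) (c ι) (tup y i) =
            (-1 : ℝ) ^ (y / 2 ^ a ι) * u (y / 2 ^ (b ι + 2), ι) (fl y ∘ i) -
            (-1 : ℝ) ^ (y / 2 ^ a ι) * d k (fun i' => u (y / 2 ^ (b ι + 2), ι) (tup y i')) i +
            (-1 : ℝ) ^ (y / 2 ^ a ι) * e (y / 2 ^ (b ι + 2), ι) (tup y i) := by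
          intro y hy
          have := h1 _ (hmem ι hι y hy) _ (hin ι y i hi)
          simp only at this
          rw [← this, ← mul_sub, ← mul_add]
          congr 2
          exact d_cons _ _ _ _
        rw [sum_congr rfl e2, sum_add_distrib, sum_sub_distrib, kill (a ι) S (by omega) _
          (fun y y' hy => by
            rw [div_pow_mono hy (by omega : a ι + 1 ≤ b ι + 2)]
            congr 1
            funext l
            exact fl_congr hy (hi l).1)] at e1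
        have e3 : d k (fun i => - (((2 ^ S : ℕ) : ℝ)⁻¹ * ∑ y ∈ range (2 ^ S),
            (-1 : ℝ) ^ (y / 2 ^ a ι) * u (y / 2 ^ (b ι + 2), ι) (tup y i))) i =
            - (((2 ^ S : ℕ) : ℝ)⁻¹ * ∑ y ∈ range (2 ^ S), (-1 : ℝ) ^ (y / 2 ^ a ι) *
              d k (fun i' => u (y / 2 ^ (b ι + 2), ι) (tup y i')) i) := by
          simp only [d_apply, mul_sum, mul_neg, sum_neg_distrib]
          rw [sum_comm]
          congr 1
          exact sum_congr rfl fun y _ => sum_congr rfl fun l _ => by ring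
        rw [e3]
        push_cast at e1 ⊢
        field_simp
        linarith)
      (fun i => (hsq e i).trans (by
        rw [inv_mul_le_iff₀ hp']
        refine (sum_le_card_nsmul _ _ _ fun y _ => h2 (tup y i)).trans (le_of_eq ?_)
        simp))
    simp only [neg_sq] at hi
    have h3 := hi.trans_le (hsq u i)
    by_contra hcon
    push Not at hcon
    rw [lt_inv_mul_iff₀ hp'] at h3
    have h4 := sum_le_card_nsmul (range (2 ^ S)) _ K fun y _ => hcon (tup y i)
    rw [card_range, nsmul_eq_mul] at h4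
    exact absurd h3 (not_lt.2 h4)

theorem ex_all (k : ℕ) : ∃ C : ℝ, ∀ K : ℝ, ∃ (s : Finset ℕ) (a b : ℕ → ℕ)
    (c : ℕ → (Fin (k + 1) → ℕ) → ℝ), Ex k C K s a b c := by
  induction k with
  | zero =>
    refine ⟨1, fun K => ?_⟩
    obtain ⟨M, hM⟩ := ex_zero K
    exact ⟨_, _, _, _, hM⟩
  | succ k ih =>
    obtain ⟨C, hC⟩ := ih
    refine ⟨2 * (k + 2) * C, fun K => ?_⟩
    obtain ⟨s, a, b, c, h⟩ := hC K
    have h' := h.step (s.sup b + 2) fun ι hι => Nat.add_le_add_right (le_sup hι) 2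
    exact ⟨_, _, _, _, h'.reindex (fun p => Nat.pair p.1 p.2) Nat.unpair fun p => by simp⟩

end Pool.Agent.P.MP_2ca0d6_al.Pos
end

-- part Pool.Agent.P.MP_2ca0d6_al.PosC
section

set_option autoImplicit false
set_option linter.dupNamespace false
set_option linter.unusedSectionVars false
set_option linter.unusedVariables false

namespace Pool.Agent.P.MP_2ca0d6_al.Pos

open Finset FreeGroup Pool.Agent.P.MP_2ca0d6_al

section lists
variable {β : Type} {A B : β}

lemma rep_inj (hAB : A ≠ B) : ∀ (n n' : ℕ) (V V' : List β),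
    List.replicate n B ++ A :: V = List.replicate n' B ++ A :: V' → n = n'
  | 0, 0, _, _, _ => rfl
  | 0, n' + 1, _, _, h => absurd (List.cons.inj h).1 hAB
  | n + 1, 0, _, _, h => absurd (List.cons.inj h).1.symm hAB
  | n + 1, n' + 1, V, V', h => congrArg (· + 1) (rep_inj hAB n n' V V' (List.cons.inj h).2)

lemma rep_cancel (hAB : A ≠ B) : ∀ (n : ℕ) (D X V Y : List β),
    D ++ A :: X = List.replicate n B ++ A :: V → ∃ Z, D ++ A :: Y = List.replicate n B ++ A :: Z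
  | 0, [], _, _, Y, _ => ⟨Y, rfl⟩
  | 0, e :: D, _, _, Y, h => ⟨D ++ A :: Y, by rw [(List.cons.inj h).1]; rfl⟩
  | n + 1, [], _, _, _, h => absurd (List.cons.inj h).1 hAB
  | n + 1, e :: D, X, V, Y, h => by
    obtain ⟨Z, hZ⟩ := rep_cancel hAB n D X V Y (List.cons.inj h).2
    exact ⟨Z, by rw [(List.cons.inj h).1, List.cons_append, hZ]; rfl⟩

end lists

variable {α : Type} [DecidableEq α] (A B : α)

/-- the half-tree beyond the edge from `g` to `g * A` -/
def H (g x : FreeGroup α) : Prop := ∃ V, (g⁻¹ * x).toWord = (A, true) :: V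

/-- the block `A B^n` -/
def blk (n : ℕ) : List (α × Bool) := (A, true) :: List.replicate n (B, true)

/-- positive elements -/
def Ps (w : FreeGroup α) : Prop := ∀ l ∈ w.toWord, l.2 = true

variable {A B}

lemma H_mul (h g x : FreeGroup α) : H A (h * g) (h * x) ↔ H A g x := by
  unfold H
  rw [show (h * g)⁻¹ * (h * x) = g⁻¹ * x by group]

lemma red_of_pos : ∀ (L : List (α × Bool)), (∀ l ∈ L, l.2 = true) → IsReduced L
  | [], _ => IsReduced.nil
  | [_], _ => IsReduced.singleton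
  | a :: b :: L, h => by
    refine List.isChain_cons_cons.2 ⟨fun _ => ?_, red_of_pos (b :: L) fun l hl => h l (by simp [hl])⟩
    rw [h a (by simp), h b (by simp)]

lemma toWord_blk (n : ℕ) : (mk (blk A B n)).toWord = blk A B n := by
  rw [toWord_mk]
  refine (red_of_pos _ fun l hl => ?_).reduce_eq
  simp only [blk, List.mem_cons, List.mem_replicate] at hl
  rcases hl with rfl | ⟨-, rfl⟩ <;> rfl

lemma Ps_blk (n : ℕ) : Ps (mk (blk A B n)) := by
  intro l hl
  rw [toWord_blk] at hl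
  simp only [blk, List.mem_cons, List.mem_replicate] at hl
  rcases hl with rfl | ⟨-, rfl⟩ <;> rfl

lemma Ps_one : Ps (1 : FreeGroup α) := by
  intro l hl
  simp at hl

lemma Ps_of (a : α) : Ps (of a) := by
  intro l hl
  simp only [toWord_of, List.mem_singleton] at hl
  rw [hl]

lemma Ps.mul {u v : FreeGroup α} (hu : Ps u) (hv : Ps v) : Ps (u * v) := by
  intro l hl
  rcases List.mem_append.1 ((toWord_mul_sublist u v).subset hl) with h | h
  · exact hu l h
  · exact hv l h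

lemma Ps.not_mem_inv {u : FreeGroup α} (hu : Ps u) (a : α) : (a, true) ∉ u⁻¹.toWord := by
  intro h
  rw [toWord_inv] at h
  simp only [invRev, List.mem_reverse, List.mem_map] at h
  obtain ⟨l, hl, e⟩ := h
  have := hu l hl
  have e2 := congrArg Prod.snd e
  simp [this] at e2

lemma word_split {g x z : FreeGroup α} (hx : ¬ H A g x) (hz : H A g z) :
    (x⁻¹ * z).toWord = (x⁻¹ * g).toWord ++ (g⁻¹ * z).toWord := by
  rw [show x⁻¹ * z = (x⁻¹ * g) * (g⁻¹ * z) by group, toWord_mul]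
  apply IsReduced.reduce_eq
  obtain ⟨V, hV⟩ := hz
  unfold FreeGroup.IsReduced
  rw [List.isChain_append]
  refine ⟨isReduced_toWord, isReduced_toWord, fun p hp q hq hpq => ?_⟩
  rw [hV] at hq
  simp only [List.head?_cons, Option.mem_def, Option.some.injEq] at hq
  subst hq
  by_contra hne
  apply hx
  obtain ⟨L, hL⟩ := List.getLast?_eq_some_iff.1 hp
  refine ⟨invRev L, ?_⟩
  rw [show g⁻¹ * x = (x⁻¹ * g)⁻¹ by group, toWord_inv, hL, invRev_append]
  obtain ⟨p1, p2⟩ := p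
  simp only at hpq hne
  subst hpq
  cases p2 <;> simp_all [invRev]

lemma H_pos {g x x' : FreeGroup α} (h : H A g x') (hp : Ps (x'⁻¹ * x)) : H A g x := by
  by_contra hx
  have h1 := word_split hx h
  obtain ⟨V, hV⟩ := h
  apply hp.not_mem_inv A
  rw [show (x'⁻¹ * x)⁻¹ = x⁻¹ * x' by group, h1, hV]
  simp

lemma not_H_self (g : FreeGroup α) : ¬ H A g g := by
  rintro ⟨V, hV⟩
  simp at hV

lemma not_H_of_pos {g x : FreeGroup α} (hp : Ps (x⁻¹ * g)) : ¬ H A g x :=
  fun h => not_H_self g (H_pos h hp)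

lemma H_blk (g x : FreeGroup α) (n : ℕ) :
    H A (g * mk (blk A B n)) x ↔ ∃ V, (g⁻¹ * x).toWord = blk A B n ++ (A, true) :: V := by
  constructor
  · intro h
    have h1 := word_split (x := g) (not_H_of_pos (by simpa using Ps_blk n)) h
    obtain ⟨V, hV⟩ := h
    exact ⟨V, by rw [h1, hV, inv_mul_cancel_left, toWord_blk]⟩
  · rintro ⟨V, hV⟩
    refine ⟨V, ?_⟩
    have h1 : (g * mk (blk A B n))⁻¹ * x = mk ((A, true) :: V) := by
      rw [mul_inv_rev, mul_assoc, ← mk_toWord (x := g⁻¹ * x), hV, ← mul_mk, inv_mul_cancel_left]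
    rw [h1, toWord_mk]
    exact IsReduced.reduce_eq (List.IsChain.right_of_append (hV ▸ isReduced_toWord))

lemma H_nest {g x : FreeGroup α} {n : ℕ} (h : H A (g * mk (blk A B n)) x) : H A g x := by
  obtain ⟨V, hV⟩ := (H_blk g x n).1 h
  exact ⟨_, hV⟩

lemma H_blk_self (g : FreeGroup α) (n : ℕ) : H A g (g * mk (blk A B n)) :=
  ⟨_, by rw [inv_mul_cancel_left, toWord_blk]; rfl⟩

lemma H_of_self (g : FreeGroup α) : H A g (g * of A) :=
  ⟨[], by rw [inv_mul_cancel_left, toWord_of]⟩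

lemma fwd (hAB : A ≠ B) {v z : FreeGroup α} {n n' : ℕ} (h : H A (v * mk (blk A B n)) z)
    (h' : H A (v * mk (blk A B n')) z) : n = n' := by
  obtain ⟨V, hV⟩ := (H_blk v z n).1 h
  obtain ⟨V', hV'⟩ := (H_blk v z n').1 h'
  exact rep_inj (by simpa using hAB) _ _ _ _ (List.cons.inj (hV.symm.trans hV')).2

lemma bwd (hAB : A ≠ B) {w w' x : FreeGroup α} {n n' : ℕ}
    (e : w * mk (blk A B n) = w' * mk (blk A B n')) (h : ¬ H A w x) (h' : ¬ H A w' x) :
    n = n' := by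
  have h1 := word_split h (H_blk_self (B := B) w n)
  have h2 := word_split h' (H_blk_self (B := B) w' n')
  rw [inv_mul_cancel_left, toWord_blk] at h1 h2
  rw [e, h2] at h1
  have h3 := congrArg List.reverse h1
  simp only [blk, List.reverse_append, List.reverse_cons, List.reverse_replicate,
    List.append_assoc, List.singleton_append] at h3
  exact (rep_inj (by simpa using hAB) _ _ _ _ h3).symm

lemma bracket (hAB : A ≠ B) {v v' x y z : FreeGroup α} {n n' : ℕ}
    (h1 : ¬ H A v x) (h2 : H A v y) (h3 : ¬ H A (v * mk (blk A B n)) y)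
    (h4 : H A (v * mk (blk A B n)) z)
    (h1' : ¬ H A v' x) (h2' : H A v' y) (h3' : ¬ H A (v' * mk (blk A B n')) y)
    (h4' : H A (v' * mk (blk A B n')) z) : v = v' ∧ n = n' := by
  wlog hl : (x⁻¹ * v).toWord.length ≤ (x⁻¹ * v').toWord.length generalizing v v' n n'
  · obtain ⟨e1, e2⟩ := this h1' h2' h3' h4' h1 h2 h3 h4 (le_of_not_ge hl)
    exact ⟨e1.symm, e2.symm⟩
  have z1 := word_split h1 (H_nest h4)
  have z2 := word_split h1' (H_nest h4')
  have y1 := word_split h1 h2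
  have y2 := word_split h1' h2'
  obtain ⟨D, hD⟩ : (x⁻¹ * v).toWord <+: (x⁻¹ * v').toWord :=
    List.prefix_of_prefix_length_le ⟨_, y1.symm⟩ ⟨_, y2.symm⟩ hl
  rw [← hD, List.append_assoc] at z2 y2
  have z3 := List.append_cancel_left (z1.symm.trans z2)
  have y3 := List.append_cancel_left (y1.symm.trans y2)
  cases D with
  | nil =>
    have e : v = v' := by
      rw [List.append_nil, toWord_inj] at hD
      exact mul_left_cancel hD
    subst e
    exact ⟨rfl, fwd hAB h4 h4'⟩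
  | cons e D =>
    exfalso
    obtain ⟨V, hV⟩ := (H_blk v z n).1 h4
    obtain ⟨V', hV'⟩ := H_nest h4'
    obtain ⟨Y', hY'⟩ := h2'
    rw [hV, hV'] at z3
    rw [hY'] at y3
    obtain ⟨e1, e2⟩ := List.cons.inj z3
    obtain ⟨Z, hZ⟩ := rep_cancel (by simpa using hAB) n D V' V Y' e2.symm
    refine h3 ((H_blk v y n).2 ⟨Z, ?_⟩)
    rw [y3, List.cons_append, hZ, ← e1]
    rfl

variable (A B)

/-- the vertices of a chain of blocks -/
def vx (g : FreeGroup α) (n : ℕ → ℕ) : ℕ → FreeGroup α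
  | 0 => g
  | s + 1 => vx g n s * mk (blk A B (n s))

theorem vx_realize : True := by have := @vx.eq_def; trivial

/-- the index of the block below a point -/
noncomputable def idx (g : FreeGroup α) (n : ℕ → ℕ) (x : FreeGroup α) : ℕ :=
  sInf {s | ¬ H A (vx A B g n (s + 1)) x}

variable {A B}

lemma vx_mul (h g : FreeGroup α) (n : ℕ → ℕ) (s : ℕ) : vx A B (h * g) n s = h * vx A B g n s := by
  induction s with
  | zero => rfl
  | succ s ih => rw [vx, vx, ih, mul_assoc]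

lemma idx_mul (h g x : FreeGroup α) (n : ℕ → ℕ) : idx A B (h * g) n (h * x) = idx A B g n x := by
  unfold idx
  simp only [vx_mul, H_mul]

lemma vx_nest {g x : FreeGroup α} {n : ℕ → ℕ} {s t : ℕ} (hst : s ≤ t) (h : H A (vx A B g n t) x) :
    H A (vx A B g n s) x := by
  induction t, hst using Nat.le_induction with
  | base => exact h
  | succ t _ ih => exact ih (H_nest h)

lemma vx_pos (g : FreeGroup α) (n : ℕ → ℕ) {s t : ℕ} (hst : s ≤ t) :
    Ps ((vx A B g n s)⁻¹ * vx A B g n t) := by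
  induction t, hst using Nat.le_induction with
  | base => simpa using Ps_one
  | succ t _ ih => rw [vx, ← mul_assoc]; exact ih.mul (Ps_blk _)

lemma vx_congr (g : FreeGroup α) {n n' : ℕ → ℕ} {s : ℕ} (h : ∀ t < s, n t = n' t) :
    vx A B g n s = vx A B g n' s := by
  induction s with
  | zero => rfl
  | succ s ih => rw [vx, vx, ih fun t ht => h t (by omega), h s (by omega)]

lemma vx_add (g : FreeGroup α) (n : ℕ → ℕ) (s t : ℕ) :
    vx A B g n (s + t) = vx A B (vx A B g n s) (fun u => n (s + u)) t := by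
  induction t with
  | zero => rfl
  | succ t ih => rw [← add_assoc, vx, vx, ih]

lemma idx_spec {g x : FreeGroup α} {n : ℕ → ℕ} {r : ℕ} (h1 : H A g x)
    (h2 : ¬ H A (vx A B g n r) x) :
    idx A B g n x < r ∧ H A (vx A B g n (idx A B g n x)) x ∧
      ¬ H A (vx A B g n (idx A B g n x + 1)) x := by
  obtain ⟨r, rfl⟩ : ∃ r', r = r' + 1 := by
    cases r with
    | zero => exact absurd h1 h2
    | succ r => exact ⟨r, rfl⟩
  have hm : r ∈ {s | ¬ H A (vx A B g n (s + 1)) x} := h2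
  refine ⟨Nat.lt_succ_of_le (Nat.sInf_le hm), ?_, Nat.sInf_mem ⟨r, hm⟩⟩
  rcases h : idx A B g n x with _ | m
  · exact h1
  · by_contra hc
    have : idx A B g n x ≤ m := Nat.sInf_le hc
    omega

lemma chain (hAB : A ≠ B) {g g' x z : FreeGroup α} {n n' : ℕ → ℕ} {r s : ℕ} (hs : s ≤ r)
    (h1 : ¬ H A g x) (h1' : ¬ H A g' x) (h2 : H A (vx A B g n r) z) (h2' : H A (vx A B g' n' r) z)
    (e : vx A B g n s = vx A B g' n' s) : g = g' ∧ ∀ t < r, n t = n' t := by
  have hb : ∀ s, vx A B g n s = vx A B g' n' s → g = g' ∧ ∀ t < s, n t = n' t := by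
    intro s
    induction s with
    | zero => exact fun e => ⟨e, fun t ht => absurd ht (Nat.not_lt_zero _)⟩
    | succ s ih =>
      intro e
      have e1 : n s = n' s := bwd hAB e (fun h => h1 (vx_nest (Nat.zero_le s) h))
        fun h => h1' (vx_nest (Nat.zero_le s) h)
      rw [vx, vx, e1] at e
      obtain ⟨e2, e3⟩ := ih (mul_right_cancel e)
      refine ⟨e2, fun t ht => ?_⟩
      rcases Nat.lt_succ_iff_lt_or_eq.1 ht with h | rfl
      · exact e3 t h
      · exact e1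
  apply hb
  have hf : ∀ t, s ≤ t → t ≤ r → vx A B g n t = vx A B g' n' t := by
    intro t hst
    induction t, hst using Nat.le_induction with
    | base => exact fun _ => e
    | succ t _ ih =>
      intro ht
      have e1 := ih (by omega)
      have a1 := vx_nest ht h2
      have a2 := vx_nest ht h2'
      rw [vx] at a1 a2
      rw [← e1] at a2
      rw [vx, vx, ← e1, fwd hAB a1 a2]
  exact hf r hs le_rfl

end Pool.Agent.P.MP_2ca0d6_al.Pos
end

-- part Pool.Agent.P.MP_2ca0d6_al.PosD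
section

set_option autoImplicit false
set_option linter.dupNamespace false
set_option linter.unusedSectionVars false
set_option linter.unusedVariables false

namespace Pool.Agent.P.MP_2ca0d6_al.Pos

open Finset FreeGroup Pool.Agent.P.MP_2ca0d6_al

variable {α : Type} [DecidableEq α] (A B : α) {k : ℕ}

/-- the points hanging off the segment -/
def Mid (g : FreeGroup α) (n : ℕ → ℕ) (r : ℕ) (x : FreeGroup α) : Prop :=
  H A g x ∧ ¬ H A (vx A B g n r) x

/-- the position of a point along the segment -/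
noncomputable def pos (g : FreeGroup α) (n : ℕ → ℕ) (lo : ℕ) (x : FreeGroup α) : ℕ :=
  lo + idx A B g n x / 2

/-- the cocycle attached to one segment -/
noncomputable def core (g : FreeGroup α) (n : ℕ → ℕ) (r lo : ℕ) (c : (Fin (k + 1) → ℕ) → ℝ) :
    (Fin (k + 3) → FreeGroup α) → ℝ :=
  d (k + 2) (res (H A g) (d (k + 1) (res (Mid A B g n r) fun z => c (pos A B g n lo ∘ z))))

/-- the point `l` is before the segment, the point `j` after it, and all others hang off it -/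
def Role (g : FreeGroup α) (n : ℕ → ℕ) (r : ℕ) (x : Fin (k + 3) → FreeGroup α)
    (l : Fin (k + 3)) (j : Fin (k + 2)) : Prop :=
  ¬ H A g (x l) ∧ H A (vx A B g n r) (x (l.succAbove j)) ∧
    ∀ i : Fin (k + 1), Mid A B g n r (x (l.succAbove (j.succAbove i)))

variable {A B}

open Classical in
lemma core_eq (g : FreeGroup α) (n : ℕ → ℕ) (r lo : ℕ) (c : (Fin (k + 1) → ℕ) → ℝ)
    (hc : d (k + 1) c = 0) (x : Fin (k + 3) → FreeGroup α) :
    core A B g n r lo c x = ∑ l : Fin (k + 3), ∑ j : Fin (k + 2), if Role A B g n r x l j then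
      (-1 : ℝ) ^ (l : ℕ) * ((-1 : ℝ) ^ (j : ℕ) *
        c fun i => pos A B g n lo (x (l.succAbove (j.succAbove i)))) else 0 := by
  unfold core
  rw [d_res _ _ (d_d _ _)]
  refine sum_congr rfl fun l _ => ?_
  by_cases hl : ¬ H A g (x l) ∧ ∀ i, H A g (x (l.succAbove i))
  · rw [if_pos hl, d_res _ _ (d_comp_zero _ c hc), mul_sum]
    refine sum_congr rfl fun j _ => ?_
    by_cases hj : Role A B g n r x l j
    · rw [if_pos hj, if_pos ⟨fun h => h.2 hj.2.1, hj.2.2⟩]
      rfl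
    · rw [if_neg hj, if_neg, mul_zero]
      rintro ⟨h1, h2⟩
      refine hj ⟨hl.1, ?_, h2⟩
      by_contra h3
      exact h1 ⟨hl.2 j, h3⟩
  · rw [if_neg hl]
    refine (sum_eq_zero fun j _ => if_neg fun hj => hl ⟨hj.1, fun i => ?_⟩).symm
    exact Fin.succAboveCases j (vx_nest (Nat.zero_le r) hj.2.1) (fun i => (hj.2.2 i).1) i

lemma core_mul (h g : FreeGroup α) (n : ℕ → ℕ) (r lo : ℕ) (c : (Fin (k + 1) → ℕ) → ℝ)
    (hc : d (k + 1) c = 0) (x : Fin (k + 3) → FreeGroup α) :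
    core A B (h * g) n r lo c (fun i => h * x i) = core A B g n r lo c x := by
  rw [core_eq _ _ _ _ _ hc, core_eq _ _ _ _ _ hc]
  refine sum_congr rfl fun l _ => sum_congr rfl fun j _ => ?_
  have : Role A B (h * g) n r (fun i => h * x i) l j ↔ Role A B g n r x l j := by
    simp only [Role, Mid, vx_mul, H_mul]
  simp only [pos, idx_mul]
  classical
  exact if_congr this rfl rfl

lemma compare (hAB : A ≠ B) {g x y z v : FreeGroup α} {n : ℕ → ℕ} {r m : ℕ}
    (h1 : ¬ H A g x) (h2 : H A (vx A B g n r) z) (h3 : Mid A B g n r y)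
    (h1' : ¬ H A v x) (h2' : H A v y) (h3' : ¬ H A (v * mk (blk A B m)) y)
    (h4' : H A (v * mk (blk A B m)) z) :
    vx A B g n (idx A B g n y) = v ∧ n (idx A B g n y) = m := by
  obtain ⟨a1, a2, a3⟩ := idx_spec h3.1 h3.2
  exact bracket hAB (fun h => h1 (vx_nest (Nat.zero_le _) h)) a2 a3
    (vx_nest (Nat.succ_le_of_lt a1) h2) h1' h2' h3' h4'

/-- an injective code -/
def enc (N τ : ℕ) (S : Finset ℕ) : ℕ := Encodable.encode (N, τ, S)

lemma enc_inj {N τ N' τ' : ℕ} {S S' : Finset ℕ} (h : enc N τ S = enc N' τ' S') :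
    N = N' ∧ τ = τ' ∧ S = S' := by
  simpa using Encodable.encode_injective h

/-- labels of segments -/
abbrev Lab : Type := ℕ × ℕ × (ℕ → Finset ℕ)

/-- exponents of the blocks of a segment -/
def ex (lo : ℕ → ℕ → ℕ) (Q : Lab) (t : ℕ) : ℕ := enc Q.1 (2 * lo Q.1 Q.2.1 + t) (Q.2.2 t)

/-- number of blocks of a segment -/
def ln (lo hi : ℕ → ℕ → ℕ) (Q : Lab) : ℕ := 2 * (hi Q.1 Q.2.1 + 1 - lo Q.1 Q.2.1)

/-- admissible labels -/
def Valid (s : ℕ → Finset ℕ) (lo hi : ℕ → ℕ → ℕ) (Q : Lab) : Prop :=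
  Q.2.1 ∈ s Q.1 ∧ ∀ t, ln lo hi Q ≤ t → Q.2.2 t = ∅

/-- a sign -/
def sg (ι : ℕ) (S : Finset ℕ) : ℝ := if ι ∈ S then -1 else 1

lemma abs_sg (ι : ℕ) (S : Finset ℕ) : |sg ι S| = 1 := by
  unfold sg
  split_ifs <;> simp

variable (A B)

open Classical in
/-- the contribution of one segment -/
noncomputable def term (s : ℕ → Finset ℕ) (lo hi : ℕ → ℕ → ℕ)
    (c : ℕ → ℕ → (Fin (k + 1) → ℕ) → ℝ) (P : FreeGroup α × Lab) :
    (Fin (k + 3) → FreeGroup α) → ℝ :=
  (if Valid s lo hi P.2 then sg P.2.2.1 (P.2.2.2 0) * sg P.2.2.1 (P.2.2.2 (ln lo hi P.2 - 1))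
    else 0) • core A B P.1 (ex lo P.2) (ln lo hi P.2) (lo P.2.1 P.2.2.1) (c P.2.1 P.2.2.1)

/-- the cocycle -/
noncomputable def cF (s : ℕ → Finset ℕ) (lo hi : ℕ → ℕ → ℕ)
    (c : ℕ → ℕ → (Fin (k + 1) → ℕ) → ℝ) (x : Fin (k + 3) → FreeGroup α) : ℝ :=
  ∑' P, term A B s lo hi c P x

variable {A B} {s : ℕ → Finset ℕ} {lo hi : ℕ → ℕ → ℕ} {c : ℕ → ℕ → (Fin (k + 1) → ℕ) → ℝ}

lemma pos_in {P : FreeGroup α × Lab} {y : FreeGroup α}
    (h : Mid A B P.1 (ex lo P.2) (ln lo hi P.2) y) :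
    lo P.2.1 P.2.2.1 ≤ pos A B P.1 (ex lo P.2) (lo P.2.1 P.2.2.1) y ∧
      pos A B P.1 (ex lo P.2) (lo P.2.1 P.2.2.1) y ≤ hi P.2.1 P.2.2.1 := by
  have := (idx_spec h.1 h.2).1
  unfold ln at this
  unfold pos
  omega

lemma role_key (hAB : A ≠ B) {P P' : FreeGroup α × Lab} {x : Fin (k + 3) → FreeGroup α}
    {l : Fin (k + 3)} {j : Fin (k + 2)} (hP : Valid s lo hi P.2) (hP' : Valid s lo hi P'.2)
    (h : Role A B P.1 (ex lo P.2) (ln lo hi P.2) x l j)
    (h' : Role A B P'.1 (ex lo P'.2) (ln lo hi P'.2) x l j) :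
    P.2.1 = P'.2.1 ∧ (∀ i, pos A B P.1 (ex lo P.2) (lo P.2.1 P.2.2.1)
      (x (l.succAbove (j.succAbove i))) = pos A B P'.1 (ex lo P'.2) (lo P'.2.1 P'.2.2.1)
      (x (l.succAbove (j.succAbove i)))) ∧ (P.2.2.1 = P'.2.2.1 → P = P') := by
  have key := fun i => by
    obtain ⟨a1, a2, a3⟩ := idx_spec (h'.2.2 i).1 (h'.2.2 i).2
    exact compare hAB h.1 h.2.1 (h.2.2 i) (fun h0 => h'.1 (vx_nest (Nat.zero_le _) h0)) a2 a3
      (vx_nest (Nat.succ_le_of_lt a1) h'.2.1)
  have hN := (enc_inj (key 0).2).1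
  refine ⟨hN, fun i => ?_, fun hι => ?_⟩
  · have := (enc_inj (key i).2).2.1
    unfold pos
    omega
  · obtain ⟨g, N, ι, ε⟩ := P
    obtain ⟨g', N', ι', ε'⟩ := P'
    simp only at hN hι
    subst hN hι
    have e1 := (enc_inj (key 0).2).2.1
    have e2 := (key 0).1
    simp only [add_right_inj] at e1
    rw [← e1] at e2
    obtain ⟨e3, e4⟩ := chain hAB (idx_spec (h.2.2 0).1 (h.2.2 0).2).1.le h.1 h'.1 h.2.1 h'.2.1 e2
    simp only at e3
    subst e3
    have : ε = ε' := by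
      funext t
      rcases Nat.lt_or_ge t (ln lo hi (N, ι, ε)) with ht | ht
      · exact (enc_inj (e4 t ht)).2.2
      · exact (hP.2 t ht).trans (hP'.2 t ht).symm
    rw [this]

lemma term_bd (hAB : A ≠ B) {C : ℝ} (hE : ∀ N : ℕ, Ex k C N (s N) (lo N) (hi N) (c N))
    (x : Fin (k + 3) → FreeGroup α) (U : Finset (FreeGroup α × Lab)) :
    ∑ P ∈ U, |term A B s lo hi c P x| ≤ (k + 3) * ((k + 2) * C) := by
  classical
  have key : ∀ P ∈ U, |term A B s lo hi c P x| ≤ ∑ l : Fin (k + 3), ∑ j : Fin (k + 2),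
      if Valid s lo hi P.2 ∧ Role A B P.1 (ex lo P.2) (ln lo hi P.2) x l j then
      |c P.2.1 P.2.2.1 fun i => pos A B P.1 (ex lo P.2) (lo P.2.1 P.2.2.1)
        (x (l.succAbove (j.succAbove i)))| else 0 := by
    intro P _
    unfold term
    rw [Pi.smul_apply, smul_eq_mul]
    by_cases hv : Valid s lo hi P.2
    · rw [if_pos hv, abs_mul, abs_mul, abs_sg, abs_sg, one_mul, one_mul,
        core_eq _ _ _ _ _ ((hE _).cocy _)]
      refine (abs_sum_le_sum_abs _ _).trans (sum_le_sum fun l _ => ?_)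
      refine (abs_sum_le_sum_abs _ _).trans (sum_le_sum fun j _ => le_of_eq ?_)
      simp only [hv, true_and]
      split_ifs
      · simp [abs_mul]
      · simp
    · simp [hv]
  refine (sum_le_sum key).trans ?_
  rw [sum_comm]
  refine (sum_le_card_nsmul _ _ ((k + 2) * C) fun l _ => ?_).trans (le_of_eq (by simp))
  rw [sum_comm]
  refine (sum_le_card_nsmul _ _ C fun j _ => ?_).trans (le_of_eq (by simp))
  rw [← sum_filter]
  set U' := U.filter fun P => Valid s lo hi P.2 ∧ Role A B P.1 (ex lo P.2) (ln lo hi P.2) x l j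
    with hU'
  rcases U'.eq_empty_or_nonempty with h0 | ⟨P0, hP0⟩
  · rw [h0, sum_empty]
    exact le_trans (sum_nonneg fun _ _ => by split_ifs <;> positivity) ((hE 0).ovl 0)
  have hk : ∀ P ∈ U', ∀ P' ∈ U', _ := fun P hP P' hP' =>
    role_key hAB (mem_filter.1 hP).2.1 (mem_filter.1 hP').2.1 (mem_filter.1 hP).2.2
      (mem_filter.1 hP').2.2
  let τ : Fin (k + 1) → ℕ := fun i => pos A B P0.1 (ex lo P0.2) (lo P0.2.1 P0.2.2.1)
    (x (l.succAbove (j.succAbove i)))
  refine le_trans ?_ ((hE P0.2.1).ovl τ)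
  have e1 : ∀ P ∈ U', |c P.2.1 P.2.2.1 fun i => pos A B P.1 (ex lo P.2) (lo P.2.1 P.2.2.1)
        (x (l.succAbove (j.succAbove i)))| =
      if In (lo P0.2.1 P.2.2.1) (hi P0.2.1 P.2.2.1) τ then |c P0.2.1 P.2.2.1 τ| else 0 := by
    intro P hP
    obtain ⟨a1, a2, -⟩ := hk P hP P0 hP0
    have a3 : (fun i => pos A B P.1 (ex lo P.2) (lo P.2.1 P.2.2.1)
        (x (l.succAbove (j.succAbove i)))) = τ := funext a2
    rw [if_pos, a3, a1]
    rw [← a1, ← a3]
    exact fun i => pos_in ((mem_filter.1 hP).2.2.2.2 i)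
  rw [sum_congr rfl e1, ← sum_image (f := fun ι =>
    if In (lo P0.2.1 ι) (hi P0.2.1 ι) τ then |c P0.2.1 ι τ| else 0) (g := fun P => P.2.2.1)
    fun P hP P' hP' => (hk P hP P' hP').2.2]
  refine sum_le_sum_of_subset_of_nonneg (fun ι hι => ?_) fun _ _ _ => by split_ifs <;> positivity
  obtain ⟨P, hP, rfl⟩ := mem_image.1 hι
  rw [← (hk P hP P0 hP0).1]
  exact (mem_filter.1 hP).2.1.1

lemma term_summable (hAB : A ≠ B) {C : ℝ} (hE : ∀ N : ℕ, Ex k C N (s N) (lo N) (hi N) (c N))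
    (x : Fin (k + 3) → FreeGroup α) : Summable fun P => term A B s lo hi c P x :=
  (summable_of_sum_le (fun _ => abs_nonneg _) (term_bd hAB hE x)).of_abs

lemma cF_bd (hAB : A ≠ B) {C : ℝ} (hE : ∀ N : ℕ, Ex k C N (s N) (lo N) (hi N) (c N)) :
    Bdd (cF A B s lo hi c) := by
  refine ⟨(k + 3) * ((k + 2) * C), fun x => ?_⟩
  have hs := (term_summable hAB hE x).abs
  have h1 : ‖∑' P, term A B s lo hi c P x‖ ≤ ∑' P, ‖term A B s lo hi c P x‖ :=
    norm_tsum_le_tsum_norm (f := fun P => term A B s lo hi c P x) hs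
  have h2 : ∑' P, |term A B s lo hi c P x| ≤ (k + 3) * ((k + 2) * C) :=
    hs.tsum_le_of_sum_le (term_bd hAB hE x)
  simp only [Real.norm_eq_abs] at h1
  exact h1.trans h2

lemma cF_cocy (hAB : A ≠ B) {C : ℝ} (hE : ∀ N : ℕ, Ex k C N (s N) (lo N) (hi N) (c N)) :
    d (k + 3) (cF A B s lo hi c) = 0 := by
  funext x
  rw [d_apply]
  unfold cF
  simp only [← tsum_mul_left]
  rw [← Summable.tsum_finsetSum fun i _ => (term_summable hAB hE _).mul_left _]
  have : ∀ P, ∑ i : Fin (k + 3 + 1), (-1 : ℝ) ^ (i : ℕ) * term A B s lo hi c P (x ∘ i.succAbove)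
      = 0 := by
    intro P
    rw [← d_apply]
    unfold term core
    rw [map_smul, d_d, smul_zero]
    rfl
  simp [this]

lemma cF_inv {C : ℝ} (hE : ∀ N : ℕ, Ex k C N (s N) (lo N) (hi N) (c N)) (h : FreeGroup α)
    (x : Fin (k + 3) → FreeGroup α) :
    cF A B s lo hi c (fun i => h * x i) = cF A B s lo hi c x := by
  unfold cF
  rw [← (Equiv.prodCongr (Equiv.mulLeft h) (Equiv.refl Lab)).tsum_eq]
  refine tsum_congr fun P => ?_
  unfold term
  simp only [Pi.smul_apply]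
  congr 1
  exact core_mul _ _ _ _ _ _ ((hE _).cocy _) _

end Pool.Agent.P.MP_2ca0d6_al.Pos
end

-- part Pool.Agent.P.MP_2ca0d6_al.PosE
section

set_option autoImplicit false
set_option linter.dupNamespace false
set_option linter.unusedSectionVars false
set_option linter.unusedVariables false

namespace Pool.Agent.P.MP_2ca0d6_al.Pos

open Finset FreeGroup Pool.Agent.P.MP_2ca0d6_al

variable {α : Type} [DecidableEq α] (A B : α) {k : ℕ}

/-- the vertices of the test path -/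
def GG (N : ℕ) (e : ℕ → Finset ℕ) (τ : ℕ) : FreeGroup α := vx A B 1 (fun τ => enc N τ (e τ)) τ

/-- the inner points of a test tuple -/
def YY (N : ℕ) (e : ℕ → Finset ℕ) {m : ℕ} (t : Fin m → ℕ) : Fin m → FreeGroup α :=
  fun i => GG A B N e (2 * t i + 1)

/-- the test tuples -/
def XX (N R : ℕ) (e : ℕ → Finset ℕ) {m : ℕ} (t : Fin m → ℕ) : Fin (m + 2) → FreeGroup α :=
  Fin.cons 1 (Fin.cons (GG A B N e R * of A) (YY A B N e t))

/-- the segments on the test path -/
def seg (lo hi : ℕ → ℕ → ℕ) (N : ℕ) (e : ℕ → Finset ℕ) (ι : ℕ) : FreeGroup α × Lab :=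
  (GG A B N e (2 * lo N ι), N, ι,
    fun t => if t < 2 * (hi N ι + 1 - lo N ι) then e (2 * lo N ι + t) else ∅)

variable {A B} {s : ℕ → Finset ℕ} {lo hi : ℕ → ℕ → ℕ} {c : ℕ → ℕ → (Fin (k + 1) → ℕ) → ℝ}

lemma GG_add (N : ℕ) (e : ℕ → Finset ℕ) (m u : ℕ) : GG A B N e (m + u) =
    GG A B N e m * vx A B 1 (fun v => enc N (m + v) (e (m + v))) u := by
  unfold GG
  rw [vx_add, ← vx_mul, mul_one]

lemma vx_seg (N : ℕ) (e : ℕ → Finset ℕ) (ι : ℕ) :
    vx A B (seg A B lo hi N e ι).1 (ex lo (seg A B lo hi N e ι).2)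
      (ln lo hi (seg A B lo hi N e ι).2) =
      GG A B N e (2 * lo N ι + 2 * (hi N ι + 1 - lo N ι)) := by
  unfold GG
  rw [vx_add]
  refine vx_congr _ fun t ht => ?_
  have ht' : t < 2 * (hi N ι + 1 - lo N ι) := ht
  simp only [ex, seg, if_pos ht']

lemma H_top {N R τ : ℕ} {e : ℕ → Finset ℕ} (h : τ ≤ R) :
    H A (GG A B N e τ) (GG A B N e R * of A) := vx_nest h (H_of_self _)

lemma not_H_one (N τ : ℕ) (e : ℕ → Finset ℕ) : ¬ H A (GG A B N e τ) 1 :=
  not_H_of_pos (vx_pos 1 _ (Nat.zero_le τ))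

lemma role_zero {g : FreeGroup α} {n : ℕ → ℕ} {r N R : ℕ} {e : ℕ → Finset ℕ} {t : Fin (k + 1) → ℕ}
    (ht : ∀ i, 2 * t i + 1 ≤ R) {l : Fin (k + 3)} {j : Fin (k + 2)}
    (h : Role A B g n r (XX A B N R e t) l j) : l = 0 ∧ j = 0 := by
  have hl : l = 0 := by
    by_contra hl
    obtain ⟨l, rfl⟩ := Fin.exists_succ_eq.2 hl
    have h1 : ∀ i, H A g (XX A B N R e t (l.succ.succAbove i)) := fun i =>
      Fin.succAboveCases j (vx_nest (Nat.zero_le r) h.2.1) (fun i => (h.2.2 i).1) i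
    have h2 := h1 0
    rw [Fin.succ_succAbove_zero] at h2
    refine h.1 (H_pos h2 ?_)
    refine Fin.cases ?_ (fun l => ?_) l
    · show Ps (1⁻¹ * (GG A B N e R * of A))
      rw [← mul_assoc]
      exact (vx_pos 1 _ (Nat.zero_le R)).mul (Ps_of A)
    · exact vx_pos 1 _ (Nat.zero_le _)
  subst hl
  refine ⟨rfl, ?_⟩
  by_contra hj
  obtain ⟨j, rfl⟩ := Fin.exists_succ_eq.2 hj
  have h2 := (h.2.2 0).2
  rw [Fin.succ_succAbove_zero] at h2
  refine h2 (H_pos h.2.1 ?_)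
  show Ps ((GG A B N e (2 * t j + 1))⁻¹ * (GG A B N e R * of A))
  rw [← mul_assoc]
  exact (vx_pos 1 _ (ht j)).mul (Ps_of A)

lemma role_pos (hAB : A ≠ B) {P : FreeGroup α × Lab} {N R : ℕ} {e : ℕ → Finset ℕ}
    {t : Fin (k + 1) → ℕ} (ht : ∀ i, 2 * t i + 1 ≤ R)
    (h : Role A B P.1 (ex lo P.2) (ln lo hi P.2) (XX A B N R e t) 0 0) :
    P.2.1 = N ∧ ∀ i, pos A B P.1 (ex lo P.2) (lo P.2.1 P.2.2.1) (YY A B N e t i) = t i := by
  have key := fun i => (enc_inj (compare hAB (v := GG A B N e (2 * t i))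
    (m := enc N (2 * t i) (e (2 * t i))) (y := YY A B N e t i) h.1 h.2.1 (h.2.2 i)
    (not_H_one _ _ _) (H_blk_self _ _) (not_H_self _) (H_top (ht i))).2)
  refine ⟨(key 0).1, fun i => ?_⟩
  have := (key i).2.1
  unfold pos
  omega

lemma role_seg {N R ι : ℕ} {e : ℕ → Finset ℕ} {t : Fin (k + 1) → ℕ}
    (hR : 2 * (hi N ι + 1) ≤ R) (hin : In (lo N ι) (hi N ι) t) :
    Role A B (seg A B lo hi N e ι).1 (ex lo (seg A B lo hi N e ι).2)
      (ln lo hi (seg A B lo hi N e ι).2) (XX A B N R e t) 0 0 := by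
  have h0 := hin 0
  refine ⟨not_H_one _ _ _, ?_, fun i => ⟨?_, ?_⟩⟩
  · rw [vx_seg]
    exact H_top (by omega)
  · have := hin i
    exact vx_nest (by omega : 2 * lo N ι ≤ 2 * t i) (H_blk_self _ _)
  · rw [vx_seg]
    have := hin i
    exact not_H_of_pos (vx_pos 1 _ (by omega : 2 * t i + 1 ≤ _))

lemma valid_seg {N ι : ℕ} {e : ℕ → Finset ℕ} (hι : ι ∈ s N) :
    Valid s lo hi (seg A B lo hi N e ι).2 :=
  ⟨hι, fun t ht => if_neg (not_lt.2 ht)⟩

lemma cF_eval (hAB : A ≠ B) {C : ℝ} (hE : ∀ N : ℕ, Ex k C N (s N) (lo N) (hi N) (c N))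
    {N R : ℕ} (hR : ∀ ι ∈ s N, 2 * (hi N ι + 1) ≤ R) (e : ℕ → Finset ℕ) {t : Fin (k + 1) → ℕ}
    (ht : ∀ i, 2 * t i + 1 ≤ R) :
    cF A B s lo hi c (XX A B N R e t) = ∑ ι ∈ s N, if In (lo N ι) (hi N ι) t then
      sg ι (e (2 * lo N ι)) * sg ι (e (2 * hi N ι + 1)) * c N ι t else 0 := by
  classical
  have hcore : ∀ P : FreeGroup α × Lab,
      core A B P.1 (ex lo P.2) (ln lo hi P.2) (lo P.2.1 P.2.2.1) (c P.2.1 P.2.2.1)
        (XX A B N R e t) = if Role A B P.1 (ex lo P.2) (ln lo hi P.2) (XX A B N R e t) 0 0 then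
        c P.2.1 P.2.2.1 t else 0 := by
    intro P
    rw [core_eq _ _ _ _ _ ((hE _).cocy _), Fintype.sum_eq_single 0, Fintype.sum_eq_single 0]
    · split_ifs with h
      · simp only [Fin.val_zero, pow_zero, one_mul]
        exact congrArg _ (funext (role_pos hAB ht h).2)
      · rfl
    · exact fun j hj => if_neg fun h => hj (role_zero ht h).2
    · exact fun l hl => sum_eq_zero fun j _ => if_neg fun h => hl (role_zero ht h).1
  have hin : ∀ P : FreeGroup α × Lab,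
      Role A B P.1 (ex lo P.2) (ln lo hi P.2) (XX A B N R e t) 0 0 →
      In (lo N P.2.2.1) (hi N P.2.2.1) t := by
    intro P h i
    obtain ⟨e1, e2⟩ := role_pos hAB ht h
    have e3 := pos_in (y := YY A B N e t i) (h.2.2 i)
    rwa [e2 i, e1] at e3
  unfold cF
  rw [tsum_eq_sum (s := (s N).image (seg A B lo hi N e)), sum_image
    fun ι _ κ _ h => congrArg (fun P : FreeGroup α × Lab => P.2.2.1) h]
  · refine sum_congr rfl fun ι hι => ?_
    unfold term
    rw [Pi.smul_apply, smul_eq_mul, if_pos (valid_seg hι), hcore]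
    by_cases h : In (lo N ι) (hi N ι) t
    · rw [if_pos h, if_pos (role_seg (hR ι hι) h)]
      have hle := (hE N).le ι hι
      have e1 : (seg A B lo hi N e ι).2.2.2 0 = e (2 * lo N ι) := if_pos (by omega)
      have e2 : (seg A B lo hi N e ι).2.2.2 (ln lo hi (seg A B lo hi N e ι).2 - 1) =
          e (2 * hi N ι + 1) := by
        have e3 : ln lo hi (seg A B lo hi N e ι).2 = 2 * (hi N ι + 1 - lo N ι) := rfl
        rw [e3]
        refine (if_pos (by omega)).trans (congrArg e (by omega))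
      rw [e1, e2]
      rfl
    · rw [if_neg h, if_neg fun h' => h (hin _ h'), mul_zero]
  · intro P hP
    unfold term
    rw [Pi.smul_apply, smul_eq_mul, hcore]
    by_cases hv : Valid s lo hi P.2
    swap
    · rw [if_neg hv, zero_mul]
    rw [if_neg (c := Role A B P.1 (ex lo P.2) (ln lo hi P.2) (XX A B N R e t) 0 0), mul_zero]
    intro h
    have hι : P.2.2.1 ∈ s N := (role_pos hAB ht h).1 ▸ hv.1
    exact hP (mem_image.2 ⟨P.2.2.1, hι,
      ((role_key hAB hv (valid_seg hι) h (role_seg (hR _ hι) (hin P h))).2.2 rfl).symm⟩)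

/-! ### Walsh characters -/

lemma flip_zero {Ω : Type} (O : Finset Ω) (σ : Ω → Ω) (h1 : ∀ ω ∈ O, σ ω ∈ O)
    (h2 : ∀ ω, σ (σ ω) = ω) (f : Ω → ℝ) (hf : ∀ ω, f (σ ω) = - f ω) : ∑ ω ∈ O, f ω = 0 := by
  have : ∑ ω ∈ O, f ω = ∑ ω ∈ O, - f ω :=
    sum_nbij' σ σ h1 h1 (fun ω _ => h2 ω) (fun ω _ => h2 ω) fun ω _ => by rw [hf, neg_neg]
  rw [sum_neg_distrib] at this
  linarith

lemma bessel {Ω T : Type} [DecidableEq T] (O : Finset Ω) (hO : O.Nonempty) (s : Finset T)
    (W : T → Ω → ℝ)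
    (hW : ∀ ι ∈ s, ∀ κ ∈ s, ∑ ω ∈ O, W ι ω * W κ ω = if ι = κ then (#O : ℝ) else 0)
    (f : Ω → ℝ) (m : ℝ) (hf : ∀ ω, |f ω| ≤ m) :
    ∑ ι ∈ s, ((#O : ℝ)⁻¹ * ∑ ω ∈ O, W ι ω * f ω) ^ 2 ≤ m ^ 2 := by
  have hp : (0 : ℝ) < #O := by exact_mod_cast hO.card_pos
  set a : T → ℝ := fun ι => (#O : ℝ)⁻¹ * ∑ ω ∈ O, W ι ω * f ω with ha
  have h1 : ∑ ω ∈ O, f ω * ∑ ι ∈ s, a ι * W ι ω = #O * ∑ ι ∈ s, a ι ^ 2 := by
    simp only [mul_sum]
    rw [sum_comm]
    refine sum_congr rfl fun ι _ => ?_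
    have : ∑ ω ∈ O, W ι ω * f ω = #O * a ι := by
      simp only [ha]
      field_simp
    calc ∑ ω ∈ O, f ω * (a ι * W ι ω) = a ι * ∑ ω ∈ O, W ι ω * f ω := by
          rw [mul_sum]; exact sum_congr rfl fun ω _ => by ring
      _ = _ := by rw [this]; ring
  have h2 : ∑ ω ∈ O, (∑ ι ∈ s, a ι * W ι ω) ^ 2 = #O * ∑ ι ∈ s, a ι ^ 2 := by
    simp only [sq, sum_mul_sum]
    rw [sum_comm, mul_sum]
    refine sum_congr rfl fun ι hι => ?_
    rw [sum_comm]
    have : ∀ κ ∈ s, ∑ ω ∈ O, a ι * W ι ω * (a κ * W κ ω) =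
        if ι = κ then a ι * a κ * #O else 0 := by
      intro κ hκ
      calc ∑ ω ∈ O, a ι * W ι ω * (a κ * W κ ω) = a ι * a κ * ∑ ω ∈ O, W ι ω * W κ ω := by
            rw [mul_sum]; exact sum_congr rfl fun ω _ => by ring
        _ = _ := by rw [hW ι hι κ hκ]; split_ifs <;> simp
    rw [sum_congr rfl this, sum_ite_eq, if_pos hι]
    ring
  have h3 : 0 ≤ ∑ ω ∈ O, (f ω - ∑ ι ∈ s, a ι * W ι ω) ^ 2 := sum_nonneg fun _ _ => sq_nonneg _
  have h4 : ∑ ω ∈ O, f ω ^ 2 ≤ #O * m ^ 2 := by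
    rw [← nsmul_eq_mul]
    exact sum_le_card_nsmul _ _ _ fun ω _ => sq_le_sq' (abs_le.1 (hf ω)).1 (abs_le.1 (hf ω)).2
  simp only [sub_sq, sum_add_distrib, sum_sub_distrib, mul_assoc, ← mul_sum] at h3
  rw [h1, h2] at h3
  exact le_of_mul_le_mul_left (by linarith) hp

lemma sg_flip (ι : ℕ) (S : Finset ℕ) : sg ι (symmDiff S {ι}) = - sg ι S := by
  unfold sg
  by_cases h : ι ∈ S <;> simp [mem_symmDiff, h]

lemma sg_flip_ne {ι κ : ℕ} (h : κ ≠ ι) (S : Finset ℕ) : sg κ (symmDiff S {ι}) = sg κ S := by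
  unfold sg
  simp [mem_symmDiff, h]

lemma sg_sq (ι : ℕ) (S : Finset ℕ) : sg ι S * sg ι S = 1 := by
  unfold sg
  split_ifs <;> simp

/-- the letters of the random path -/
def lt (a b : ℕ → ℕ) (ω : Finset ℕ × Finset ℕ) (τ : ℕ) : Finset ℕ :=
  ω.1.filter (fun κ => 2 * a κ = τ) ∪ ω.2.filter fun κ => 2 * b κ + 1 = τ

lemma sg_lt1 (a b : ℕ → ℕ) (ω : Finset ℕ × Finset ℕ) (ι : ℕ) :
    sg ι (lt a b ω (2 * a ι)) = sg ι ω.1 := by
  have : ¬ 2 * b ι + 1 = 2 * a ι := by omega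
  simp [sg, lt, this]

lemma sg_lt2 (a b : ℕ → ℕ) (ω : Finset ℕ × Finset ℕ) (ι : ℕ) :
    sg ι (lt a b ω (2 * b ι + 1)) = sg ι ω.2 := by
  have : ¬ 2 * a ι = 2 * b ι + 1 := by omega
  simp [sg, lt, this]

lemma lt_flip1 (a b : ℕ → ℕ) (ω : Finset ℕ × Finset ℕ) (ι τ : ℕ) (h : 2 * a ι ≠ τ) :
    lt a b (symmDiff ω.1 {ι}, ω.2) τ = lt a b ω τ := by
  unfold lt
  congr 1
  ext κ
  by_cases hκ : κ = ι
  · subst hκ; simp [h]
  · simp [mem_symmDiff, hκ]

lemma lt_flip2 (a b : ℕ → ℕ) (ω : Finset ℕ × Finset ℕ) (ι τ : ℕ) (h : 2 * b ι + 1 ≠ τ) :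
    lt a b (ω.1, symmDiff ω.2 {ι}) τ = lt a b ω τ := by
  unfold lt
  congr 1
  ext κ
  by_cases hκ : κ = ι
  · subst hκ; simp [h]
  · simp [mem_symmDiff, hκ]

lemma flip_mem {S T : Finset ℕ} {ι : ℕ} (hι : ι ∈ S) (hT : T ∈ S.powerset) :
    symmDiff T {ι} ∈ S.powerset :=
  mem_powerset.2 (symmDiff_le_sup.trans (sup_le (mem_powerset.1 hT) (singleton_subset_iff.2 hι)))

theorem lower (hAB : A ≠ B) {C : ℝ} (hE : ∀ N : ℕ, Ex k C N (s N) (lo N) (hi N) (c N))
    (β : (Fin (k + 2) → FreeGroup α) → ℝ) (hβ : Bdd β) (hinv : ∀ g x, β (fun i => g * x i) = β x) :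
    ∃ x, 1 / 2 < |cF A B s lo hi c x - d (k + 2) β x| := by
  classical
  by_contra hcon
  push Not at hcon
  obtain ⟨M, hM⟩ := hβ
  obtain ⟨N, hN⟩ := exists_nat_ge (M ^ 2)
  let R := 2 * ((s N).sup (hi N) + 1)
  have hR : ∀ ι ∈ s N, 2 * (hi N ι + 1) ≤ R := fun ι hι => by
    have := le_sup (f := hi N) hι
    omega
  let O := (s N).powerset ×ˢ (s N).powerset
  have hO : O.Nonempty := ⟨(∅, ∅), by simp [O]⟩
  have hp : (0 : ℝ) < #O := by exact_mod_cast hO.card_pos
  let W : ℕ → Finset ℕ × Finset ℕ → ℝ := fun ι ω => sg ι ω.1 * sg ι ω.2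
  have f1 : ∀ ι ∈ s N, ∀ f : Finset ℕ × Finset ℕ → ℝ,
      (∀ ω, f (symmDiff ω.1 {ι}, ω.2) = f ω) → ∑ ω ∈ O, W ι ω * f ω = 0 := fun ι hι f hf =>
    flip_zero O (fun ω => (symmDiff ω.1 {ι}, ω.2))
      (fun ω hω => mem_product.2 ⟨flip_mem hι (mem_product.1 hω).1, (mem_product.1 hω).2⟩)
      (fun ω => by simp) _ fun ω => by simp only [W, hf, sg_flip]; ring
  have f2 : ∀ ι ∈ s N, ∀ f : Finset ℕ × Finset ℕ → ℝ,
      (∀ ω, f (ω.1, symmDiff ω.2 {ι}) = f ω) → ∑ ω ∈ O, W ι ω * f ω = 0 := fun ι hι f hf =>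
    flip_zero O (fun ω => (ω.1, symmDiff ω.2 {ι}))
      (fun ω hω => mem_product.2 ⟨(mem_product.1 hω).1, flip_mem hι (mem_product.1 hω).2⟩)
      (fun ω => by simp) _ fun ω => by simp only [W, hf, sg_flip]; ring
  have hW : ∀ ι ∈ s N, ∀ κ ∈ s N, ∑ ω ∈ O, W ι ω * W κ ω = if ι = κ then (#O : ℝ) else 0 := by
    intro ι hι κ _
    split_ifs with h
    · subst h
      have : ∀ ω ∈ O, W ι ω * W ι ω = 1 := fun ω _ => by
        simp only [W]
        rw [mul_mul_mul_comm, sg_sq, sg_sq, one_mul]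
      rw [sum_congr rfl this]
      simp
    · exact f1 ι hι _ fun ω => by simp only [W, sg_flip_ne (Ne.symm h)]
  let L := lt (lo N) (hi N)
  obtain ⟨t, ht⟩ := (hE N).low
    (fun ι t => (#O : ℝ)⁻¹ * ∑ ω ∈ O, W ι ω * β (XX A B N R (L ω) t))
    (fun ι t => (#O : ℝ)⁻¹ * ∑ ω ∈ O, W ι ω *
      (cF A B s lo hi c (XX A B N R (L ω) t) - d (k + 2) β (XX A B N R (L ω) t)))
    (fun ι hι t hin => by
      have hRι := hR ι hι
      have ht : ∀ i, 2 * t i + 1 ≤ R := fun i => by have := (hin i).2; omega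
      have e1 : ∑ ω ∈ O, W ι ω * cF A B s lo hi c (XX A B N R (L ω) t) = #O * c N ι t := by
        simp only [cF_eval hAB hE hR _ ht, L, sg_lt1, sg_lt2, mul_sum]
        rw [sum_comm]
        have : ∀ κ ∈ s N, ∑ ω ∈ O, W ι ω * (if In (lo N κ) (hi N κ) t then
            sg κ ω.1 * sg κ ω.2 * c N κ t else 0) = if ι = κ then #O * c N ι t else 0 := by
          intro κ hκ
          by_cases h : In (lo N κ) (hi N κ) t
          · simp only [if_pos h, ← mul_assoc (W ι _), ← sum_mul]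
            have := hW ι hι κ hκ
            simp only [W, ← mul_assoc] at this ⊢
            rw [this]
            split_ifs with h'
            · rw [h']
            · exact zero_mul _
          · simp only [if_neg h, mul_zero, sum_const_zero]
            rw [if_neg]
            rintro rfl
            exact h hin
        rw [sum_congr rfl this, sum_ite_eq, if_pos hι]
      have e2 : ∀ ω, d (k + 2) β (XX A B N R (L ω) t) =
          β (Fin.cons (GG A B N (L ω) R * of A) (YY A B N (L ω) t)) -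
          (β (Fin.cons 1 (YY A B N (L ω) t)) - d k (fun t' => β (XX A B N R (L ω) t')) t) := by
        intro ω
        unfold XX
        rw [d_cons, d_cons]
        rfl
      have e3 : ∑ ω ∈ O, W ι ω * β (Fin.cons (GG A B N (L ω) R * of A) (YY A B N (L ω) t)) = 0 := by
        refine f1 ι hι _ fun ω => ?_
        have hs : ∀ ω' : Finset ℕ × Finset ℕ,
            (Fin.cons (GG A B N (L ω') R * of A) (YY A B N (L ω') t) :
            Fin (k + 2) → FreeGroup α) = fun i => GG A B N (L ω') (2 * lo N ι + 1) *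
            (Fin.cons (vx A B 1 (fun v => enc N (2 * lo N ι + 1 + v) (L ω' (2 * lo N ι + 1 + v)))
              (R - (2 * lo N ι + 1)) * of A) (fun i => vx A B 1
              (fun v => enc N (2 * lo N ι + 1 + v) (L ω' (2 * lo N ι + 1 + v)))
              (2 * t i - 2 * lo N ι)) : Fin (k + 2) → FreeGroup α) i := by
          intro ω'
          funext i
          refine Fin.cases ?_ (fun i => ?_) i
          · have := (hin 0).1
            have := ht 0
            simp only [Fin.cons_zero]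
            rw [← mul_assoc, ← GG_add, Nat.add_sub_cancel' (by omega)]
          · have := (hin i).1
            simp only [Fin.cons_succ, YY]
            rw [← GG_add]
            congr 1
            omega
        rw [hs, hs, hinv, hinv]
        have : ∀ v, L (symmDiff ω.1 {ι}, ω.2) (2 * lo N ι + 1 + v) = L ω (2 * lo N ι + 1 + v) :=
          fun v => lt_flip1 _ _ _ _ _ (by omega)
        simp only [this]
      have e4 : ∑ ω ∈ O, W ι ω * β (Fin.cons 1 (YY A B N (L ω) t)) = 0 := by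
        refine f2 ι hι _ fun ω => ?_
        have : YY A B N (L (ω.1, symmDiff ω.2 {ι})) t = YY A B N (L ω) t := by
          funext i
          have := (hin i).2
          refine vx_congr _ fun τ hτ => ?_
          rw [show L (ω.1, symmDiff ω.2 {ι}) τ = L ω τ from lt_flip2 _ _ _ _ _ (by omega)]
        rw [this]
      have e5 : d k (fun t => (#O : ℝ)⁻¹ * ∑ ω ∈ O, W ι ω * β (XX A B N R (L ω) t)) t =
          (#O : ℝ)⁻¹ * ∑ ω ∈ O, W ι ω * d k (fun t' => β (XX A B N R (L ω) t')) t := by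
        simp only [d_apply, mul_sum]
        rw [sum_comm]
        exact sum_congr rfl fun y _ => sum_congr rfl fun l _ => by ring
      rw [e5]
      simp only [e2, mul_sub, sum_sub_distrib, e1, e3, e4]
      field_simp
      ring)
    (fun t => by
      refine le_trans (sum_le_sum fun ι _ => ?_)
        ((bessel O hO (s N) W hW _ (1 / 2) fun ω => hcon (XX A B N R (L ω) t)).trans
          (by norm_num))
      split_ifs
      · exact le_rfl
      · positivity)
  refine absurd (ht.trans_le ?_) (not_lt.2 hN)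
  refine le_trans (sum_le_sum fun ι _ => ?_)
    (bessel O hO (s N) W hW _ M fun ω => hM (XX A B N R (L ω) t))
  split_ifs
  · exact le_rfl
  · positivity

theorem main (α : Type) (a b : α) (hab : a ≠ b) (n : ℕ) (hn : 1 ≤ n) :
    ∃ c : (Fin (n + 1) → FreeGroup α) → ℝ, Bdd c ∧ delta c = 0 ∧
      ∀ β : (Fin n → FreeGroup α) → ℝ, Bdd β → ∃ g, 1 / 2 < |c g - delta β g| := by
  classical
  obtain ⟨k, rfl⟩ : ∃ k, n = k + 1 := ⟨n - 1, by omega⟩
  obtain ⟨C, hC⟩ := ex_all k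
  choose s lo hi c hE using fun N : ℕ => hC N
  refine ⟨fun h => cF a b s lo hi c (Fin.partialProd h), ?_, ?_, fun β hβ => ?_⟩
  · obtain ⟨M, hM⟩ := cF_bd hab hE
    exact ⟨M, fun h => hM _⟩
  · funext g
    rw [delta_eq _ (cF_inv hE), cF_cocy hab hE]
    rfl
  · obtain ⟨M, hM⟩ := hβ
    obtain ⟨x, hx⟩ := lower hab hE (hat β) ⟨M, fun x => hM _⟩ (hat_inv β)
    refine ⟨fun i => (x i.castSucc)⁻¹ * x i.succ, ?_⟩
    rw [← hat_delta, eq_mul_partialProd x, cF_inv hE, hat_inv, hat_partialProd] at hx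
    exact hx

end Pool.Agent.P.MP_2ca0d6_al.Pos
end
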